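import Pool.Agent.Full.Rough.Plane
import Pool.Agent.Helper47.Perc.Duality

/-!
# The open set as a finite planar graph

Distinct lattice edges meet only at vertices; a connected subset of the open set is path connected.
-/

set_option autoImplicit false

open Set Filter Topology Complex H47Perc

namespace Full

/-- the closed segment of the plane which represents an edge -/
def seg (ε : ℝ) (e : Sym2 (ℤ × ℤ)) : Set ℂ :=
  {w | ∃ z z' : ℤ × ℤ, e = s(z, z') ∧ w ∈ segment ℝ (pos ε z) (pos ε z')}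

lemma seg_mk (ε : ℝ) (z z' : ℤ × ℤ) : seg ε s(z, z') = segment ℝ (pos ε z) (pos ε z') := by
  ext w
  constructor
  · rintro ⟨u, v, h, hw⟩
    rw [Sym2.eq_iff] at h
    rcases h with ⟨rfl, rfl⟩ | ⟨rfl, rfl⟩
    · exact hw
    · rw [segment_symm]; exact hw
  · intro h; exact ⟨z, z', rfl, h⟩

lemma isCompact_seg (ε : ℝ) (e : Sym2 (ℤ × ℤ)) : IsCompact (seg ε e) := by
  induction e using Sym2.ind with
  | _ u v =>
    rw [seg_mk, segment_eq_image]
    exact isCompact_Icc.image (by fun_prop)

lemma mem_openSet {ε : ℝ} {ω : Finset (Sym2 (ℤ × ℤ))} {w : ℂ} :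
    w ∈ openSet ε ω ↔ ∃ e ∈ ω, w ∈ seg ε e := by
  constructor
  · rintro ⟨z, z', h, hw⟩
    exact ⟨_, h, z, z', rfl, hw⟩
  · rintro ⟨e, he, z, z', rfl, hw⟩
    exact ⟨z, z', he, hw⟩

lemma isCompact_openSet (ε : ℝ) (ω : Finset (Sym2 (ℤ × ℤ))) : IsCompact (openSet ε ω) := by
  have : openSet ε ω = ⋃ e ∈ ω, seg ε e := by
    ext w; rw [mem_openSet]; simp
  rw [this]
  exact ω.isCompact_biUnion fun e _ => isCompact_seg ε e

lemma isClosed_openSet (ε : ℝ) (ω : Finset (Sym2 (ℤ × ℤ))) : IsClosed (openSet ε ω) :=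
  (isCompact_openSet ε ω).isClosed

lemma openSet_mono {ε : ℝ} {ω ω' : Finset (Sym2 (ℤ × ℤ))} (h : ω ⊆ ω') :
    openSet ε ω ⊆ openSet ε ω' := by
  intro w hw
  rw [mem_openSet] at hw ⊢
  obtain ⟨e, he, h'⟩ := hw
  exact ⟨e, h he, h'⟩

@[simp] lemma pos_re (ε : ℝ) (z : ℤ × ℤ) : (pos ε z).re = ε * z.1 := rfl
@[simp] lemma pos_im (ε : ℝ) (z : ℤ × ℤ) : (pos ε z).im = ε * z.2 := rfl

lemma mem_segment_horiz {u v w : ℂ} (h : u.im = v.im) (huv : u.re ≤ v.re) :
    w ∈ segment ℝ u v ↔ w.im = u.im ∧ u.re ≤ w.re ∧ w.re ≤ v.re := by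
  constructor
  · intro hw
    have := segment_horiz h hw
    rwa [min_eq_left huv, max_eq_right huv] at this
  · rintro ⟨h1, h2, h3⟩
    rcases eq_or_lt_of_le huv with h4 | h4
    · have : w = u := Complex.ext (by linarith) h1
      rw [this]; exact left_mem_segment _ _ _
    · refine ⟨(v.re - w.re) / (v.re - u.re), (w.re - u.re) / (v.re - u.re), ?_, ?_, ?_, ?_⟩
      · exact div_nonneg (by linarith) (by linarith)
      · exact div_nonneg (by linarith) (by linarith)
      · field_simp [sub_ne_zero.2 h4.ne']; ring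
      · have h5 : v.re - u.re ≠ 0 := sub_ne_zero.2 h4.ne'
        apply Complex.ext
        · simp only [add_re, real_smul, re_ofReal_mul]; field_simp; ring
        · simp only [add_im, real_smul, im_ofReal_mul, ← h, h1]; field_simp; ring

lemma mem_segment_vert {u v w : ℂ} (h : u.re = v.re) (huv : u.im ≤ v.im) :
    w ∈ segment ℝ u v ↔ w.re = u.re ∧ u.im ≤ w.im ∧ w.im ≤ v.im := by
  constructor
  · intro hw
    have := segment_vert h hw
    rwa [min_eq_left huv, max_eq_right huv] at this
  · rintro ⟨h1, h2, h3⟩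
    rcases eq_or_lt_of_le huv with h4 | h4
    · have : w = u := Complex.ext h1 (by linarith)
      rw [this]; exact left_mem_segment _ _ _
    · refine ⟨(v.im - w.im) / (v.im - u.im), (w.im - u.im) / (v.im - u.im), ?_, ?_, ?_, ?_⟩
      · exact div_nonneg (by linarith) (by linarith)
      · exact div_nonneg (by linarith) (by linarith)
      · field_simp [sub_ne_zero.2 h4.ne']; ring
      · have h5 : v.im - u.im ≠ 0 := sub_ne_zero.2 h4.ne'
        apply Complex.ext
        · simp only [add_re, real_smul, re_ofReal_mul, ← h, h1]; field_simp; ring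
        · simp only [add_im, real_smul, im_ofReal_mul]; field_simp; ring

lemma mem_seg_hE {ε : ℝ} (hε : 0 < ε) {i j : ℤ} {w : ℂ} :
    w ∈ seg ε (hE i j) ↔ w.im = ε * j ∧ ε * i ≤ w.re ∧ w.re ≤ ε * (i + 1) := by
  unfold hE
  rw [seg_mk, mem_segment_horiz (u := pos ε (i, j)) (v := pos ε (i + 1, j)) rfl
    (by simp; nlinarith)]
  simp

lemma mem_seg_vE {ε : ℝ} (hε : 0 < ε) {i j : ℤ} {w : ℂ} :
    w ∈ seg ε (vE i j) ↔ w.re = ε * i ∧ ε * j ≤ w.im ∧ w.im ≤ ε * (j + 1) := by
  unfold vE
  rw [seg_mk, mem_segment_vert (u := pos ε (i, j)) (v := pos ε (i, j + 1)) rfl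
    (by simp; nlinarith)]
  simp

/-- lattice edges are horizontal or vertical -/
def IsEdge (e : Sym2 (ℤ × ℤ)) : Prop := (∃ i j, e = hE i j) ∨ (∃ i j, e = vE i j)

lemma le_of_mul_le' {ε : ℝ} (hε : 0 < ε) {a b : ℤ} (h : ε * a ≤ ε * b) : a ≤ b := by
  exact_mod_cast le_of_mul_le_mul_left h hε

/-- the end of a vertical edge where it meets a horizontal edge etc.: distinct edges meet at
vertices -/
lemma seg_inter {ε : ℝ} (hε : 0 < ε) {e e' : Sym2 (ℤ × ℤ)} (he : IsEdge e) (he' : IsEdge e')
    (hne : e ≠ e') {w : ℂ} (hw : w ∈ seg ε e) (hw' : w ∈ seg ε e') :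
    ∃ z, z ∈ e ∧ z ∈ e' ∧ w = pos ε z := by
  rcases he with ⟨i, j, rfl⟩ | ⟨i, j, rfl⟩ <;> rcases he' with ⟨i', j', rfl⟩ | ⟨i', j', rfl⟩
  · rw [mem_seg_hE hε] at hw hw'
    have h1 : j = j' := by
      have : ε * (j:ℝ) = ε * j' := by rw [← hw.1, hw'.1]
      exact_mod_cast mul_left_cancel₀ hε.ne' this
    subst h1
    have h2 : i ≠ i' := fun h => hne (by rw [h])
    have h3 : i ≤ i' + 1 := le_of_mul_le' hε (by push_cast; linarith [hw.2.1, hw'.2.2])
    have h4 : i' ≤ i + 1 := le_of_mul_le' hε (by push_cast; linarith [hw'.2.1, hw.2.2])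
    rcases lt_or_gt_of_ne h2 with h | h
    · have h5 : i' = i + 1 := by omega
      subst h5
      refine ⟨(i + 1, j), by simp [hE], by simp [hE], Complex.ext ?_ hw.1⟩
      have := hw'.2.1
      push_cast at this
      simp only [pos_re]
      push_cast
      linarith [hw.2.2]
    · have h5 : i = i' + 1 := by omega
      subst h5
      refine ⟨(i' + 1, j), by simp [hE], by simp [hE], Complex.ext ?_ hw.1⟩
      have := hw.2.1
      push_cast at this
      simp only [pos_re]
      push_cast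
      linarith [hw'.2.2]
  · rw [mem_seg_hE hε] at hw
    rw [mem_seg_vE hε] at hw'
    have h1 : i ≤ i' := le_of_mul_le' hε (by linarith [hw.2.1, hw'.1])
    have h2 : i' ≤ i + 1 := le_of_mul_le' hε (by push_cast; linarith [hw.2.2, hw'.1])
    have h3 : j' ≤ j := le_of_mul_le' hε (by linarith [hw.1, hw'.2.1])
    have h4 : j ≤ j' + 1 := le_of_mul_le' hε (by push_cast; linarith [hw.1, hw'.2.2])
    refine ⟨(i', j), ?_, ?_, Complex.ext hw'.1 hw.1⟩
    · have : i' = i ∨ i' = i + 1 := by omega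
      rcases this with rfl | rfl <;> simp [hE]
    · have : j = j' ∨ j = j' + 1 := by omega
      rcases this with rfl | rfl <;> simp [vE]
  · rw [mem_seg_hE hε] at hw'
    rw [mem_seg_vE hε] at hw
    have h1 : i' ≤ i := le_of_mul_le' hε (by linarith [hw'.2.1, hw.1])
    have h2 : i ≤ i' + 1 := le_of_mul_le' hε (by push_cast; linarith [hw'.2.2, hw.1])
    have h3 : j ≤ j' := le_of_mul_le' hε (by linarith [hw'.1, hw.2.1])
    have h4 : j' ≤ j + 1 := le_of_mul_le' hε (by push_cast; linarith [hw'.1, hw.2.2])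
    refine ⟨(i, j'), ?_, ?_, Complex.ext hw.1 hw'.1⟩
    · have : j' = j ∨ j' = j + 1 := by omega
      rcases this with rfl | rfl <;> simp [vE]
    · have : i = i' ∨ i = i' + 1 := by omega
      rcases this with rfl | rfl <;> simp [hE]
  · rw [mem_seg_vE hε] at hw hw'
    have h1 : i = i' := by
      have : ε * (i:ℝ) = ε * i' := by rw [← hw.1, hw'.1]
      exact_mod_cast mul_left_cancel₀ hε.ne' this
    subst h1
    have h2 : j ≠ j' := fun h => hne (by rw [h])
    have h3 : j ≤ j' + 1 := le_of_mul_le' hε (by push_cast; linarith [hw.2.1, hw'.2.2])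
    have h4 : j' ≤ j + 1 := le_of_mul_le' hε (by push_cast; linarith [hw'.2.1, hw.2.2])
    rcases lt_or_gt_of_ne h2 with h | h
    · have h5 : j' = j + 1 := by omega
      subst h5
      refine ⟨(i, j + 1), by simp [vE], by simp [vE], Complex.ext hw.1 ?_⟩
      have := hw'.2.1
      push_cast at this
      simp only [pos_im]
      push_cast
      linarith [hw.2.2]
    · have h5 : j = j' + 1 := by omega
      subst h5
      refine ⟨(i, j' + 1), by simp [vE], by simp [vE], Complex.ext hw.1 ?_⟩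
      have := hw.2.1
      push_cast at this
      simp only [pos_im]
      push_cast
      linarith [hw'.2.2]

/-- a preconnected subset of a segment contains the segments between its points -/
lemma segment_subset_of_preconnected {u v : ℂ} {K : Set ℂ} (hK : IsPreconnected K)
    (hKs : K ⊆ segment ℝ u v) {a b : ℂ} (ha : a ∈ K) (hb : b ∈ K) : segment ℝ a b ⊆ K := by
  rcases eq_or_ne u v with huv | huv
  · subst huv
    rw [segment_same] at hKs
    have h1 : a = u := hKs ha
    have h2 : b = u := hKs hb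
    subst h1; subst h2
    rw [segment_same]
    simpa using ha
  set N : ℝ := ‖v - u‖ ^ 2 with hN
  have hNpos : 0 < N := by rw [hN]; have := norm_pos_iff.2 (sub_ne_zero.2 huv.symm); positivity
  -- the coordinate along the segment
  set c : ℂ → ℝ := fun w => ((w - u) * (starRingEnd ℂ) (v - u)).re / N with hc
  have hcc : Continuous c := by simp only [hc]; fun_prop
  have hcs : ∀ t : ℝ, c (u + t * (v - u)) = t := by
    intro t
    have : (u + t * (v - u) - u) * (starRingEnd ℂ) (v - u) = (t * N : ℝ) := by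
      rw [add_sub_cancel_left, mul_assoc, Complex.mul_conj, Complex.normSq_eq_norm_sq]
      push_cast
      rw [hN]; push_cast; ring
    simp only [hc]
    rw [this, Complex.ofReal_re]
    field_simp
  have hseg : ∀ w ∈ segment ℝ u v, w = u + (c w : ℝ) * (v - u) := by
    rintro w ⟨x, y, hx, hy, hxy, rfl⟩
    have e1 : x • u + y • v = u + (y : ℝ) * (v - u) := by
      have : x = 1 - y := by linarith
      subst this
      simp only [real_smul]; push_cast; ring
    rw [e1, hcs]
  have hord : OrdConnected (c '' K) := (hK.image c hcc.continuousOn).ordConnected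
  intro w hw
  have hwseg : w ∈ segment ℝ u v := (convex_segment u v).segment_subset (hKs ha) (hKs hb) hw
  obtain ⟨x, y, hx, hy, hxy, rfl⟩ := hw
  have hcw : c (x • a + y • b) ∈ uIcc (c a) (c b) := by
    have h1 := hseg a (hKs ha)
    have h2 := hseg b (hKs hb)
    have h3 : c (x • a + y • b) = x * c a + y * c b := by
      have e : x • a + y • b = u + ((x * c a + y * c b : ℝ) : ℂ) * (v - u) := by
        have : x = 1 - y := by linarith
        subst this
        conv_lhs => rw [h1, h2]
        simp only [real_smul]; push_cast; ring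
      rw [e, hcs]
    rw [h3, ← segment_eq_uIcc]
    exact ⟨x, y, hx, hy, hxy, rfl⟩
  have hmem : c (x • a + y • b) ∈ c '' K :=
    hord.uIcc_subset ⟨a, ha, rfl⟩ ⟨b, hb, rfl⟩ hcw
  obtain ⟨k, hk, hke⟩ := hmem
  rw [hseg _ hwseg, ← hke, ← hseg k (hKs hk)]
  exact hk

/-- **A connected subset of the open set is path connected.** -/
theorem graph_path {ε : ℝ} (hε : 0 < ε) {ω : Finset (Sym2 (ℤ × ℤ))} (hω : ∀ e ∈ ω, IsEdge e)
    {D : Set ℂ} (hD : IsClosed D) {K : Set ℂ} (hK : IsPreconnected K)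
    (hKs : K ⊆ openSet ε ω ∩ D) {a b : ℂ} (ha : a ∈ K) (hb : b ∈ K) :
    JoinedIn (openSet ε ω ∩ D) a b := by
  -- pass to the closure
  wlog hcl : IsClosed K generalizing K
  · exact this hK.closure (closure_minimal hKs ((isClosed_openSet ε ω).inter hD))
      (subset_closure ha) (subset_closure hb) isClosed_closure
  refine JoinedIn.mono ?_ hKs
  -- case 1: `K` lies on one edge
  by_cases h1 : ∃ u v : ℂ, K ⊆ segment ℝ u v
  · obtain ⟨u, v, h⟩ := h1
    exact joinedIn_segment (segment_subset_of_preconnected hK h ha hb)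
  push Not at h1
  -- case 2: every point of `K` is joined to an endpoint of its edge
  have key : ∀ x ∈ K, ∃ e ∈ ω, ∃ z ∈ e, segment ℝ x (pos ε z) ⊆ K := by
    intro x hx
    obtain ⟨e, he, hxe⟩ := mem_openSet.1 (hKs hx).1
    refine ⟨e, he, ?_⟩
    obtain ⟨z, z', hez, hxz⟩ := hxe
    by_contra hcon
    push Not at hcon
    have c1 := hcon z (by rw [hez]; simp)
    have c2 := hcon z' (by rw [hez]; simp)
    rw [not_subset] at c1 c2
    obtain ⟨u1, hu1, hu1K⟩ := c1
    obtain ⟨u2, hu2, hu2K⟩ := c2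
    -- the parameter along the edge
    set p := pos ε z with hp
    set p' := pos ε z' with hp'
    obtain ⟨τ, hτ, hxτ⟩ : ∃ τ ∈ Icc (0:ℝ) 1, x = p + τ • (p' - p) := by
      rw [segment_eq_image'] at hxz
      obtain ⟨τ, hτ, h⟩ := hxz
      exact ⟨τ, hτ, h.symm⟩
    obtain ⟨τ₁, hτ₁, hu1'⟩ : ∃ τ₁ ∈ Icc (0:ℝ) τ, u1 = p + τ₁ • (p' - p) := by
      rw [segment_eq_image'] at hu1
      obtain ⟨θ, hθ, h⟩ := hu1
      refine ⟨τ * (1 - θ), ⟨mul_nonneg hτ.1 (by linarith [hθ.2]), by nlinarith [hθ.1, hτ.1]⟩, ?_⟩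
      rw [← h, hxτ]
      simp only [real_smul]; push_cast; ring
    obtain ⟨τ₂, hτ₂, hu2'⟩ : ∃ τ₂ ∈ Icc τ (1:ℝ), u2 = p + τ₂ • (p' - p) := by
      rw [segment_eq_image'] at hu2
      obtain ⟨θ, hθ, h⟩ := hu2
      refine ⟨τ + θ * (1 - τ), ⟨by nlinarith [hθ.1, hτ.2], by nlinarith [hθ.2, hτ.2]⟩, ?_⟩
      rw [← h, hxτ]
      simp only [real_smul]; push_cast; ring
    set E : ℝ → ℂ := fun s => p + s • (p' - p) with hE
    have hEc : Continuous E := by simp only [hE]; fun_prop
    have hEseg : ∀ s ∈ Icc (0:ℝ) 1, E s ∈ segment ℝ p p' := by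
      intro s hs
      rw [segment_eq_image']
      exact ⟨s, hs, rfl⟩
    -- the two closed pieces
    set V1 : Set ℂ := E '' Icc τ₁ τ₂ with hV1
    set R : Set ℂ := (⋃ f ∈ ω.erase e, seg ε f) ∪ E '' Icc 0 τ₁ ∪ E '' Icc τ₂ 1 with hR
    have hV1c : IsClosed V1 := (isCompact_Icc.image hEc).isClosed
    have hRc : IsClosed R := by
      refine (IsClosed.union ?_ (isCompact_Icc.image hEc).isClosed).union
        (isCompact_Icc.image hEc).isClosed
      exact ((ω.erase e).isCompact_biUnion fun f _ => isCompact_seg ε f).isClosed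
    have hcov : K ⊆ V1 ∪ R := by
      intro k hk
      obtain ⟨f, hf, hkf⟩ := mem_openSet.1 (hKs hk).1
      by_cases hfe : f = e
      · subst hfe
        rw [hez, seg_mk, segment_eq_image'] at hkf
        obtain ⟨s, hs, hks⟩ := hkf
        by_cases g1 : s ≤ τ₁
        · right; left; right; exact ⟨s, ⟨hs.1, g1⟩, hks⟩
        · by_cases g2 : τ₂ ≤ s
          · right; right; exact ⟨s, ⟨g2, hs.2⟩, hks⟩
          · left; exact ⟨s, ⟨(not_le.1 g1).le, (not_le.1 g2).le⟩, hks⟩
      · right; left; left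
        simp only [mem_iUnion]
        exact ⟨f, Finset.mem_erase.2 ⟨hfe, hf⟩, hkf⟩
    have hpp : p ≠ p' := by
      intro h
      apply hu1K
      rw [hu1', ← h, sub_self, smul_zero, add_zero]
      rw [hxτ, ← h, sub_self, smul_zero, add_zero] at hx
      exact hx
    have hEinj : ∀ s s', E s = E s' → s = s' := by
      intro s s' h
      simp only [hE] at h
      have h' := add_left_cancel h
      have := sub_ne_zero.2 hpp.symm
      exact smul_left_injective ℝ this h'
    have hτ₁' : τ₁ < τ := by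
      refine lt_of_le_of_ne hτ₁.2 ?_
      rintro rfl
      exact hu1K (by rw [hu1', ← hxτ]; exact hx)
    have hτ₂' : τ < τ₂ := by
      refine lt_of_le_of_ne hτ₂.1 ?_
      rintro rfl
      exact hu2K (by rw [hu2', ← hxτ]; exact hx)
    have hdis : ∀ k ∈ K, k ∈ V1 → k ∈ R → False := by
      rintro k hk ⟨s, hs, hks⟩ hkR
      have hs1 : τ₁ ≠ s := by rintro rfl; exact hu1K (by rw [hu1']; rw [← hks] at hk; exact hk)
      have hs2 : τ₂ ≠ s := by rintro rfl; exact hu2K (by rw [hu2']; rw [← hks] at hk; exact hk)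
      have hs1' : τ₁ < s := lt_of_le_of_ne hs.1 hs1
      have hs2' : s < τ₂ := lt_of_le_of_ne hs.2 hs2.symm
      rcases hkR with (h | ⟨s', hs', h⟩) | ⟨s', hs', h⟩
      · simp only [mem_iUnion] at h
        obtain ⟨f, hf, hkf⟩ := h
        rw [Finset.mem_erase] at hf
        have hke : k ∈ seg ε e := by
          rw [hez, seg_mk, ← hks]
          exact hEseg s ⟨hτ₁.1.trans hs1'.le, hs2'.le.trans hτ₂.2⟩
        obtain ⟨y, -, hye, hky⟩ := seg_inter hε (hω f hf.2) (hω e he) hf.1 hkf hke
        rw [hez, Sym2.mem_iff] at hye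
        rcases hye with rfl | rfl
        · have : E s = E 0 := by rw [hks, hky]; simp [hE, hp]
          have := hEinj _ _ this
          linarith [hτ₁.1]
        · have : E s = E 1 := by rw [hks, hky]; simp [hE, hp']
          have := hEinj _ _ this
          linarith [hτ₂.2]
      · have := hEinj _ _ (h.trans hks.symm)
        linarith [hs'.2]
      · have := hEinj _ _ (h.trans hks.symm)
        linarith [hs'.1]
    have hxV : x ∈ V1 := ⟨τ, ⟨hτ₁'.le, hτ₂'.le⟩, hxτ.symm⟩
    have hKV : K ⊆ V1 := by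
      rcases (isPreconnected_iff_subset_of_disjoint_closed.1 hK) V1 R hV1c hRc hcov
        (by
          ext k
          simp only [mem_inter_iff, mem_empty_iff_false, iff_false]
          rintro ⟨hk, h, h'⟩
          exact hdis k hk h h') with h | h
      · exact h
      · exact absurd (h hx) fun h' => hdis x hx hxV h'
    apply h1 p p'
    intro k hk
    obtain ⟨s, hs, hks⟩ := hKV hk
    rw [← hks]
    exact hEseg s ⟨hτ₁.1.trans hs.1, hs.2.trans hτ₂.2⟩
  -- the stars of the vertices
  set st : ℤ × ℤ → Set ℂ := fun z => {y | ∀ t ∈ Icc (0:ℝ) 1, (1 - t) • y + t • pos ε z ∈ K} with hst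
  have hstc : ∀ z, IsClosed (st z) := by
    intro z
    have : st z = ⋂ t ∈ Icc (0:ℝ) 1, (fun y : ℂ => (1 - t) • y + t • pos ε z) ⁻¹' K := by
      ext y; simp [hst]
    rw [this]
    exact isClosed_biInter fun t _ => hcl.preimage (by fun_prop)
  have hstj : ∀ z, ∀ y ∈ st z, JoinedIn K y (pos ε z) := by
    intro z y hy
    apply joinedIn_segment
    rw [segment_eq_image]
    rintro _ ⟨t, ht, rfl⟩
    exact hy t ht
  set V : Finset (ℤ × ℤ) := ω.biUnion fun e => e.toFinset with hV
  have hcov : ∀ x ∈ K, ∃ z ∈ V, x ∈ st z := by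
    intro x hx
    obtain ⟨e, he, z, hz, hs⟩ := key x hx
    refine ⟨z, Finset.mem_biUnion.2 ⟨e, he, Sym2.mem_toFinset.2 hz⟩, ?_⟩
    intro t ht
    apply hs
    rw [segment_eq_image]
    exact ⟨t, ht, rfl⟩
  refine hK.induction₂ (fun x y => JoinedIn K x y) ?_ ?_ ?_ ha hb
  · intro x hx
    have hev : ∀ᶠ y in 𝓝[K] x, ∀ z ∈ V, x ∉ st z → y ∉ st z := by
      rw [eventually_all_finset]
      intro z _
      by_cases h : x ∈ st z
      · exact Eventually.of_forall fun y h' => absurd h h'
      · have := (hstc z).isOpen_compl.mem_nhds h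
        filter_upwards [mem_nhdsWithin_of_mem_nhds this] with y hy _ using hy
    filter_upwards [hev, self_mem_nhdsWithin] with y hy hyK
    obtain ⟨z, hz, hyz⟩ := hcov y hyK
    have hxz : x ∈ st z := by
      by_contra h
      exact hy z hz h hyz
    exact (hstj z x hxz).trans (hstj z y hyz).symm
  · intro x y z _ _ _ h1 h2
    exact h1.trans h2
  · intro x y _ _ h
    exact h.symm

end Full
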