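import Pool.Agent.Full.Rough.Phi

/-!
# Q1 for tame quadrilaterals implies Q1
-/

set_option autoImplicit false

open Set Filter Topology Complex H47Perc Relation
open Pool.Agent.Helper69.RSW (P P_restrict P_congr P_mono P_nonneg P_or_le Dep)

namespace Full

lemma perc_diff_le {S : Finset (ℤ × ℤ)} {A B : Finset (Sym2 (ℤ × ℤ)) → Prop} {η : ℝ}
    (h : perc half S (fun ω => A ω ∧ ¬ B ω) ≤ η) : perc half S A - perc half S B ≤ η := by
  rw [Pool.Agent.Helper69.RSW.perc_half_eq] at h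
  rw [Pool.Agent.Helper69.RSW.perc_half_eq, Pool.Agent.Helper69.RSW.perc_half_eq]
  have h1 : P (edgesIn S) A ≤ P (edgesIn S) (fun ω => B ω ∨ (A ω ∧ ¬ B ω)) := by
    apply P_mono
    intro ω _ hA
    by_cases hB : B ω
    · exact Or.inl hB
    · exact Or.inr ⟨hA, hB⟩
  have h2 := P_or_le (edgesIn S) B (fun ω => A ω ∧ ¬ B ω)
  linarith

/-- the crossing probabilities of a quadrilateral and of its inner quadrilaterals are close -/
theorem inner_close {q : ℂ → ℂ} (hq : IsQuad q) {η : ℝ} (hη : 0 < η) :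
    ∃ s₀ : ℝ, 0 < s₀ ∧ s₀ ≤ 1/4 ∧ ∀ s : ℝ, 0 < s → s < s₀ →
      ∃ ε₀ : ℝ, 0 < ε₀ ∧ ∀ ε : ℝ, 0 < ε → ε < ε₀ → ∀ (S : Finset (ℤ × ℤ)),
        (∀ z : ℤ × ℤ, Metric.infDist (pos ε z) (q '' sq) ≤ ε → z ∈ S) →
        |perc half S (Crossed ε q) - perc half S (Crossed ε (fun w => q (phiR s w)))| ≤ η := by
  obtain ⟨s₁, h1, h14, hI⟩ := inner_crossed hq hη
  obtain ⟨s₂, h2, h24, hO⟩ := outer_crossed hq hη
  refine ⟨min s₁ s₂, lt_min h1 h2, (min_le_left _ _).trans h14, fun s hs hs0 => ?_⟩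
  have e1 : s < s₁ := hs0.trans_le (min_le_left _ _)
  have e2 : s < s₂ := hs0.trans_le (min_le_right _ _)
  obtain ⟨ε₁, hε₁, hI⟩ := hI s s hs e1 hs (by linarith)
  obtain ⟨ε₂, hε₂, hO⟩ := hO s s hs (by linarith) hs e2
  refine ⟨min ε₁ ε₂, lt_min hε₁ hε₂, fun ε hε hε0 S hS => ?_⟩
  have hA : Crossed ε q = fun ω => CrossR q ε ω 0 1 0 1 := by
    funext ω; exact propext (crossed_iff hq)
  have hB : Crossed ε (fun w => q (phiR s w)) = fun ω => CrossR q ε ω s (1 - s) s (1 - s) := by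
    funext ω; exact propext (crossed_phiR hq hs (by linarith))
  have g1 := hI ε hε (hε0.trans_le (min_le_left _ _)) 0 S (by simpa using hS)
  simp only [add_zero] at g1
  have g2 := hO ε hε (hε0.trans_le (min_le_right _ _)) S hS
  rw [hA, hB, abs_le]
  constructor
  · linarith [perc_diff_le g1]
  · exact perc_diff_le g2

/-- the limits of the inner quadrilaterals -/
def Inner (q : ℂ → ℂ) (L : ℝ → ℝ) : Prop :=
  ∀ s : ℝ, 0 < s → s < 1/4 → Tends (fun w => q (phiR s w)) (L s)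

lemma Inner.close {q : ℂ → ℂ} (hq : IsQuad q) {L : ℝ → ℝ} (hL : Inner q L) {η : ℝ} (hη : 0 < η) :
    ∃ s₀ : ℝ, 0 < s₀ ∧ s₀ ≤ 1/4 ∧ ∀ s : ℝ, 0 < s → s < s₀ →
      ∃ ε₀ : ℝ, 0 < ε₀ ∧ ∀ ε : ℝ, 0 < ε → ε < ε₀ → ∀ (S : Finset (ℤ × ℤ)),
        (∀ z : ℤ × ℤ, Metric.infDist (pos ε z) (q '' sq) ≤ ε → z ∈ S) →
        |perc half S (Crossed ε q) - L s| ≤ η := by
  obtain ⟨s₀, h1, h14, h⟩ := inner_close hq (half_pos hη)
  refine ⟨s₀, h1, h14, fun s hs hs0 => ?_⟩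
  obtain ⟨ε₁, hε₁, h⟩ := h s hs hs0
  obtain ⟨ε₂, hε₂, h'⟩ := hL s hs (by linarith) (η / 2) (half_pos hη)
  refine ⟨min ε₁ ε₂, lt_min hε₁ hε₂, fun ε hε hε0 S hS => ?_⟩
  have g1 := h ε hε (hε0.trans_le (min_le_left _ _)) S hS
  have hsub : (fun w => q (phiR s w)) '' sq ⊆ q '' sq := by
    rintro _ ⟨w, -, rfl⟩
    exact ⟨phiR s w, sqo_subset_sq (phiR_mem hs (by linarith) w), rfl⟩
  have g2 := h' ε hε (hε0.trans_le (min_le_right _ _)) S (fun z hz => hS z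
    ((Metric.infDist_le_infDist_of_subset hsub (sq_nonempty.image _)).trans hz))
  have g3 := abs_sub_le (perc half S (Crossed ε q))
    (perc half S (Crossed ε (fun w => q (phiR s w)))) (L s)
  linarith

lemma Inner.dist_le {q : ℂ → ℂ} (hq : IsQuad q) {L : ℝ → ℝ} (hL : Inner q L) {η : ℝ}
    (hη : 0 < η) : ∃ s₀ : ℝ, 0 < s₀ ∧ ∀ s s' : ℝ, 0 < s → s < s₀ → 0 < s' → s' < s₀ →
      |L s - L s'| ≤ η := by
  obtain ⟨s₀, h1, h14, h⟩ := hL.close hq (half_pos hη)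
  refine ⟨s₀, h1, fun s s' hs hs0 hs' hs0' => ?_⟩
  obtain ⟨ε₁, hε₁, g⟩ := h s hs hs0
  obtain ⟨ε₂, hε₂, g'⟩ := h s' hs' hs0'
  obtain ⟨ε, hε, hε0⟩ := exists_between (lt_min hε₁ hε₂)
  obtain ⟨N, hN⟩ := exists_cover (isCompact_sq.image_of_continuousOn hq.cont).isBounded
    (sq_nonempty.image _) hε
  have e1 := g ε hε (hε0.trans_le (min_le_left _ _)) _ hN
  have e2 := g' ε hε (hε0.trans_le (min_le_right _ _)) _ hN
  rw [abs_le] at e1 e2 ⊢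
  constructor <;> linarith [e1.1, e1.2, e2.1, e2.2]

lemma seq_pos (n : ℕ) : (0:ℝ) < 1 / ((n:ℝ) + 5) := by positivity

lemma seq_small {s₀ : ℝ} (hs₀ : 0 < s₀) : ∃ N : ℕ, ∀ n ≥ N, 1 / ((n:ℝ) + 5) < s₀ := by
  obtain ⟨N, hN⟩ := exists_nat_gt (1 / s₀)
  refine ⟨N, fun n hn => ?_⟩
  have h1 : (N:ℝ) ≤ n := by exact_mod_cast hn
  rw [div_lt_iff₀ hs₀] at hN
  rw [div_lt_iff₀ (by positivity)]
  nlinarith

lemma Inner.exists_lim {q : ℂ → ℂ} (hq : IsQuad q) {L : ℝ → ℝ} (hL : Inner q L) :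
    ∃ l : ℝ, Tendsto (fun n : ℕ => L (1 / ((n:ℝ) + 5))) atTop (𝓝 l) := by
  apply cauchySeq_tendsto_of_complete
  rw [Metric.cauchySeq_iff]
  intro η hη
  obtain ⟨s₀, h0, h⟩ := hL.dist_le hq (half_pos hη)
  obtain ⟨N, hN⟩ := seq_small h0
  refine ⟨N, fun m hm n hn => ?_⟩
  rw [Real.dist_eq]
  have := h _ _ (seq_pos m) (hN m hm) (seq_pos n) (hN n hn)
  linarith

lemma Inner.tends {q : ℂ → ℂ} (hq : IsQuad q) {L : ℝ → ℝ} (hL : Inner q L) {l : ℝ}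
    (hl : Tendsto (fun n : ℕ => L (1 / ((n:ℝ) + 5))) atTop (𝓝 l)) : Tends q l := by
  intro δ hδ
  obtain ⟨s₀, h0, h14, h⟩ := hL.close hq (half_pos hδ)
  obtain ⟨N, hN⟩ := seq_small h0
  rw [Metric.tendsto_atTop] at hl
  obtain ⟨N', hN'⟩ := hl (δ / 2) (half_pos hδ)
  obtain ⟨ε₀, hε₀, g⟩ := h _ (seq_pos (max N N')) (hN _ (le_max_left _ _))
  refine ⟨ε₀, hε₀, fun ε hε hε0 S hS => ?_⟩
  have e1 := g ε hε hε0 S hS
  have e2 := hN' _ (le_max_right N N')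
  rw [Real.dist_eq] at e2
  have e3 := abs_sub_le (perc half S (Crossed ε q)) (L (1 / (((max N N' : ℕ):ℝ) + 5))) l
  linarith

lemma sqo_convex : Convex ℝ sqo := by
  have h : sqo = Complex.reLm ⁻¹' (Ioo 0 1) ∩ Complex.imLm ⁻¹' (Ioo 0 1) := by
    ext w; simp [sqo, and_assoc]
  rw [h]
  exact ((convex_Ioo (0:ℝ) 1).linear_preimage Complex.reLm).inter
    ((convex_Ioo (0:ℝ) 1).linear_preimage Complex.imLm)

/-- the conformal image of a quadrilateral is a quadrilateral -/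
theorem IsQuad.comp {q : ℂ → ℂ} (hq : IsQuad q) {f : ℂ → ℂ} (h1 : ContinuousOn f (q '' sq))
    (h2 : InjOn f (q '' sq)) (h3 : DifferentiableOn ℂ f (q '' sqo)) : IsQuad (f ∘ q) := by
  refine ⟨h1.comp hq.cont (mapsTo_image _ _), h2.comp hq.inj (mapsTo_image _ _), ?_⟩
  have hc : IsPreconnected (q '' sqo) :=
    sqo_convex.isPreconnected.image q (hq.cont.mono sqo_subset_sq)
  rw [image_comp]
  rcases (h3.analyticOnNhd hq.isOpen).is_constant_or_isOpen hc with ⟨w, hw⟩ | h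
  · exfalso
    have m1 : (⟨1/2, 1/2⟩ : ℂ) ∈ sqo := by norm_num [sqo]
    have m2 : (⟨1/3, 1/2⟩ : ℂ) ∈ sqo := by norm_num [sqo]
    have e1 := hw _ ⟨_, m1, rfl⟩
    have e2 := hw _ ⟨_, m2, rfl⟩
    have e3 := h2 ⟨_, sqo_subset_sq m1, rfl⟩ ⟨_, sqo_subset_sq m2, rfl⟩ (e1.trans e2.symm)
    have e4 := hq.inj (sqo_subset_sq m1) (sqo_subset_sq m2) e3
    have e5 := congrArg Complex.re e4
    norm_num at e5
  · exact h _ le_rfl hq.isOpen

/-- **The reduction**: Q1 for tame quadrilaterals implies Q1. -/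
theorem q1_of_tame (H : Q1tame) : Q1 := by
  intro q hq
  have hT : ∀ s : ℝ, 0 < s → s < 1/4 → IsTame (fun w => q (phiR s w)) := fun s hs hs4 =>
    hq.tame hs (by linarith)
  choose! L hL using fun s (hs : 0 < s ∧ s < 1/4) => H _ (hT s hs.1 hs.2)
  have hI : Inner q L := fun s hs hs4 => (hL s ⟨hs, hs4⟩).1
  obtain ⟨l, hl⟩ := hI.exists_lim hq
  refine ⟨l, hI.tends hq hl, fun f h1 h2 h3 => ?_⟩
  have hI' : Inner (f ∘ q) L := by
    intro s hs hs4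
    have hr : range (fun w => q (phiR s w)) ⊆ q '' sqo := by
      rintro _ ⟨w, rfl⟩
      exact ⟨phiR s w, phiR_mem hs (by linarith) w, rfl⟩
    exact (hL s ⟨hs, hs4⟩).2 f (h2.mono (hr.trans (image_mono sqo_subset_sq))) (h3.mono hr)
  exact hI'.tends (hq.comp h1 h2 h3) hl

end Full
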