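import Pool.Agent.Full.Rough.Inner

/-!
# Affine reparametrizations; the transposed quadrilateral; finite coverings
-/

set_option autoImplicit false

open Set Filter Topology Complex H47Perc Relation

namespace Full

lemma continuous_mk {X : Type*} [TopologicalSpace X] {f g : X → ℝ} (hf : Continuous f)
    (hg : Continuous g) : Continuous fun x => (⟨f x, g x⟩ : ℂ) :=
  Complex.equivRealProdCLM.symm.continuous.comp (hf.prodMk hg)

/-- the affine map of the unit square onto the rectangle `rc a b c d` -/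
noncomputable def aff (a b c d : ℝ) (w : ℂ) : ℂ := ⟨a + (b - a) * w.re, c + (d - c) * w.im⟩

/-- its inverse -/
noncomputable def affi (a b c d : ℝ) (w : ℂ) : ℂ := ⟨(w.re - a) / (b - a), (w.im - c) / (d - c)⟩

section
variable {a b c d : ℝ}

lemma aff_re (w : ℂ) : (aff a b c d w).re = a + (b - a) * w.re := rfl
lemma aff_im (w : ℂ) : (aff a b c d w).im = c + (d - c) * w.im := rfl
lemma affi_re (w : ℂ) : (affi a b c d w).re = (w.re - a) / (b - a) := rfl
lemma affi_im (w : ℂ) : (affi a b c d w).im = (w.im - c) / (d - c) := rfl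

lemma continuous_aff : Continuous (aff a b c d) :=
  continuous_mk (by fun_prop) (by fun_prop)

lemma continuous_affi : Continuous (affi a b c d) :=
  continuous_mk (by fun_prop) (by fun_prop)

lemma aff_affi (hab : a < b) (hcd : c < d) (w : ℂ) : aff a b c d (affi a b c d w) = w := by
  have h1 : b - a ≠ 0 := by linarith
  have h2 : d - c ≠ 0 := by linarith
  apply Complex.ext
  · rw [aff_re, affi_re]; field_simp; ring
  · rw [aff_im, affi_im]; field_simp; ring

lemma affi_aff (hab : a < b) (hcd : c < d) (w : ℂ) : affi a b c d (aff a b c d w) = w := by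
  have h1 : b - a ≠ 0 := by linarith
  have h2 : d - c ≠ 0 := by linarith
  apply Complex.ext
  · rw [affi_re, aff_re]; field_simp; ring
  · rw [affi_im, aff_im]; field_simp; ring

lemma aff_mem (hab : a ≤ b) (hcd : c ≤ d) {w : ℂ} (hw : w ∈ sq) : aff a b c d w ∈ rc a b c d := by
  have h1 := mul_nonneg (sub_nonneg.2 hab) hw.1
  have h2 := mul_le_mul_of_nonneg_left hw.2.1 (sub_nonneg.2 hab)
  have h3 := mul_nonneg (sub_nonneg.2 hcd) hw.2.2.1
  have h4 := mul_le_mul_of_nonneg_left hw.2.2.2 (sub_nonneg.2 hcd)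
  refine ⟨?_, ?_, ?_, ?_⟩
  · rw [aff_re]; linarith
  · rw [aff_re]; linarith
  · rw [aff_im]; linarith
  · rw [aff_im]; linarith

lemma affi_mem (hab : a < b) (hcd : c < d) {w : ℂ} (hw : w ∈ rc a b c d) :
    affi a b c d w ∈ sq := by
  have h1 : 0 < b - a := by linarith
  have h2 : 0 < d - c := by linarith
  refine ⟨?_, ?_, ?_, ?_⟩
  · rw [affi_re]; exact div_nonneg (by linarith [hw.1]) h1.le
  · rw [affi_re, div_le_one h1]; linarith [hw.2.1]
  · rw [affi_im]; exact div_nonneg (by linarith [hw.2.2.1]) h2.le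
  · rw [affi_im, div_le_one h2]; linarith [hw.2.2.2]

lemma rc_subset_sq (ha : 0 ≤ a) (hb : b ≤ 1) (hc : 0 ≤ c) (hd : d ≤ 1) : rc a b c d ⊆ sq :=
  fun _ hw => ⟨ha.trans hw.1, hw.2.1.trans hb, hc.trans hw.2.2.1, hw.2.2.2.trans hd⟩

/-- the image of the open square -/
lemma aff_image_sqo (hab : a < b) (hcd : c < d) :
    aff a b c d '' sqo = {w | a < w.re ∧ w.re < b ∧ c < w.im ∧ w.im < d} := by
  have h1 : 0 < b - a := by linarith
  have h2 : 0 < d - c := by linarith
  ext w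
  constructor
  · rintro ⟨w, hw, rfl⟩
    have e1 := mul_pos h1 hw.1
    have e2 := mul_lt_mul_of_pos_left hw.2.1 h1
    have e3 := mul_pos h2 hw.2.2.1
    have e4 := mul_lt_mul_of_pos_left hw.2.2.2 h2
    refine ⟨?_, ?_, ?_, ?_⟩
    · rw [aff_re]; linarith
    · rw [aff_re]; linarith
    · rw [aff_im]; linarith
    · rw [aff_im]; linarith
  · intro hw
    refine ⟨affi a b c d w, ⟨?_, ?_, ?_, ?_⟩, aff_affi hab hcd w⟩
    · rw [affi_re]; exact div_pos (by linarith [hw.1]) h1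
    · rw [affi_re, div_lt_one h1]; linarith [hw.2.1]
    · rw [affi_im]; exact div_pos (by linarith [hw.2.2.1]) h2
    · rw [affi_im, div_lt_one h2]; linarith [hw.2.2.2]

lemma IsQuad.aff {q : ℂ → ℂ} (hq : IsQuad q) (ha : 0 ≤ a) (hab : a < b) (hb : b ≤ 1) (hc : 0 ≤ c)
    (hcd : c < d) (hd : d ≤ 1) : IsQuad (fun w => q (Full.aff a b c d w)) := by
  have hm : MapsTo (Full.aff a b c d) sq sq := fun w hw =>
    rc_subset_sq ha hb hc hd (aff_mem hab.le hcd.le hw)
  refine ⟨hq.cont.comp continuous_aff.continuousOn hm, ?_, ?_⟩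
  · intro w hw w' hw' h
    have := hq.inj (hm hw) (hm hw') h
    rw [← affi_aff hab hcd w, this, affi_aff hab hcd]
  · have h1 : (fun w => q (Full.aff a b c d w)) '' sqo = q '' (Full.aff a b c d '' sqo) := by
      rw [image_image]
    have h2 : Full.aff a b c d '' sqo =
        {w | a < w.re ∧ w.re < b ∧ c < w.im ∧ w.im < d} ∩ sqo := by
      rw [aff_image_sqo hab hcd]
      ext w
      constructor
      · intro h
        exact ⟨h, ha.trans_lt h.1, h.2.1.trans_le hb, hc.trans_lt h.2.2.1, h.2.2.2.trans_le hd⟩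
      · intro h
        exact h.1
    rw [h1, h2]
    apply hq.isOpen_image
    have h3 : {w : ℂ | a < w.re ∧ w.re < b ∧ c < w.im ∧ w.im < d} =
        Complex.re ⁻¹' (Ioo a b) ∩ Complex.im ⁻¹' (Ioo c d) := by
      ext w; simp [and_assoc]
    rw [h3]
    exact (isOpen_Ioo.preimage Complex.continuous_re).inter
      (isOpen_Ioo.preimage Complex.continuous_im)

theorem crossR_aff {q : ℂ → ℂ} {ε : ℝ} {ω : Finset (Sym2 (ℤ × ℤ))} (hab : a < b) (hcd : c < d) :
    CrossR (fun w => q (aff a b c d w)) ε ω 0 1 0 1 ↔ CrossR q ε ω a b c d := by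
  constructor
  · rintro ⟨u, v, hu, hv, h⟩
    refine ⟨aff a b c d u, aff a b c d v, ?_, ?_, ?_⟩
    · rw [aff_re, hu]; ring
    · rw [aff_re, hv]; ring
    · refine (joinedIn_image continuous_aff.continuousOn h).mono ?_
      rintro _ ⟨w, ⟨hw, hw2⟩, rfl⟩
      exact ⟨aff_mem hab.le hcd.le hw, hw2⟩
  · rintro ⟨u, v, hu, hv, h⟩
    refine ⟨affi a b c d u, affi a b c d v, ?_, ?_, ?_⟩
    · rw [affi_re, hu]; simp
    · rw [affi_re, hv]; exact div_self (by linarith)
    · refine (joinedIn_image continuous_affi.continuousOn h).mono ?_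
      rintro _ ⟨w, ⟨hw, hw2⟩, rfl⟩
      refine ⟨affi_mem hab hcd hw, ?_⟩
      show q (aff a b c d (affi a b c d w)) ∈ _
      rwa [aff_affi hab hcd]

end

/-- transposition -/
def trn (w : ℂ) : ℂ := ⟨w.im, w.re⟩

lemma trn_trn (w : ℂ) : trn (trn w) = w := rfl
lemma continuous_trn : Continuous trn := continuous_mk Complex.continuous_im Complex.continuous_re
lemma trn_mem_sq {w : ℂ} (h : w ∈ sq) : trn w ∈ sq := ⟨h.2.2.1, h.2.2.2, h.1, h.2.1⟩
lemma trn_mem_sqo {w : ℂ} (h : w ∈ sqo) : trn w ∈ sqo := ⟨h.2.2.1, h.2.2.2, h.1, h.2.1⟩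

lemma IsQuad.trn {q : ℂ → ℂ} (hq : IsQuad q) : IsQuad (fun w => q (Full.trn w)) := by
  refine ⟨hq.cont.comp continuous_trn.continuousOn fun w hw => trn_mem_sq hw, ?_, ?_⟩
  · intro w hw w' hw' h
    have := hq.inj (trn_mem_sq hw) (trn_mem_sq hw') h
    rw [← trn_trn w, this, trn_trn]
  · have h1 : (fun w => q (Full.trn w)) '' sqo = q '' sqo := by
      ext y
      constructor
      · rintro ⟨w, hw, rfl⟩; exact ⟨Full.trn w, trn_mem_sqo hw, rfl⟩
      · rintro ⟨w, hw, rfl⟩; exact ⟨Full.trn w, trn_mem_sqo hw, by show q (Full.trn (Full.trn w)) = _; rw [trn_trn]⟩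
    rw [h1]
    exact hq.isOpen

/-- a finite set of vertices which contains all the vertices close to a bounded set -/
theorem exists_cover {A : Set ℂ} (hA : Bornology.IsBounded A) (hne : A.Nonempty) {ε : ℝ}
    (hε : 0 < ε) :
    ∃ N : ℕ, ∀ z : ℤ × ℤ, Metric.infDist (pos ε z) A ≤ ε →
      z ∈ Finset.Icc (-(N:ℤ), -(N:ℤ)) ((N:ℤ), (N:ℤ)) := by
  obtain ⟨M, hM⟩ := hA.exists_norm_le
  obtain ⟨N, hN⟩ := exists_nat_gt ((M + 2 * ε) / ε)
  refine ⟨N, fun z hz => ?_⟩
  have h7 : M + 2 * ε < ε * N := by rw [div_lt_iff₀ hε] at hN; linarith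
  have h8 : Metric.infDist (pos ε z) A < 2 * ε := by linarith
  obtain ⟨w, hw, hwd⟩ := (Metric.infDist_lt_iff hne).1 h8
  rw [Complex.dist_eq] at hwd
  have h5 : ‖pos ε z‖ ≤ M + 2 * ε := by
    have h6 := norm_add_le (pos ε z - w) w
    rw [sub_add_cancel] at h6
    linarith [hM w hw]
  have g1 := (Complex.abs_re_le_norm (pos ε z)).trans h5
  have g2 := (Complex.abs_im_le_norm (pos ε z)).trans h5
  rw [pos_re, abs_le] at g1
  rw [pos_im, abs_le] at g2
  have k1 : z.1 ≤ N := (lt_of_mul_lt' hε (b := (N:ℤ)) (by push_cast; linarith)).le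
  have k2 : -(N:ℤ) ≤ z.1 := (lt_of_mul_lt' hε (a := -(N:ℤ)) (by push_cast; linarith)).le
  have k3 : z.2 ≤ N := (lt_of_mul_lt' hε (b := (N:ℤ)) (by push_cast; linarith)).le
  have k4 : -(N:ℤ) ≤ z.2 := (lt_of_mul_lt' hε (a := -(N:ℤ)) (by push_cast; linarith)).le
  rw [Finset.mem_Icc, Prod.le_def, Prod.le_def]
  exact ⟨⟨k2, k4⟩, k1, k3⟩

end Full
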