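import Pool.Agent.Helper46.RSW.RSW

/-!
Rings: open circuits in square annuli around a point, in the form of four box crossings.  With
probability at least `1 - C (r/R)^a` there is a ring around `x` at a scale between `r` and `R/3`.
-/

set_option autoImplicit false

namespace Full
open H47Perc Finset
open Pool.Agent.Helper69.RSW (Up P_restrict P_congr P_mono Dep P P_compl P_indep
  P_nonneg P_le_one harris)

/-- the four sides of the square annulus `k ≤ |z - x| ≤ 3k` are crossed in the long direction,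
each by open edges inside it -/
def Ring (x : ℤ × ℤ) (k : ℕ) (ω : Finset (Sym2 (ℤ × ℤ))) : Prop :=
  (LR (x.1 - 3 * k) (x.1 + 3 * k) (x.2 + k) (x.2 + 3 * k)
      (ω ∩ edgesIn (box (x.1 - 3 * k) (x.1 + 3 * k) (x.2 + k) (x.2 + 3 * k))) ∧
    LR (x.1 - 3 * k) (x.1 + 3 * k) (x.2 - 3 * k) (x.2 - k)
      (ω ∩ edgesIn (box (x.1 - 3 * k) (x.1 + 3 * k) (x.2 - 3 * k) (x.2 - k)))) ∧
  (BT (x.1 - 3 * k) (x.1 - k) (x.2 - 3 * k) (x.2 + 3 * k)
      (ω ∩ edgesIn (box (x.1 - 3 * k) (x.1 - k) (x.2 - 3 * k) (x.2 + 3 * k))) ∧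
    BT (x.1 + k) (x.1 + 3 * k) (x.2 - 3 * k) (x.2 + 3 * k)
      (ω ∩ edgesIn (box (x.1 + k) (x.1 + 3 * k) (x.2 - 3 * k) (x.2 + 3 * k))))

lemma joined_mono' {ω ω' : Finset (Sym2 (ℤ × ℤ))} (h : ω ⊆ ω') {u v : ℤ × ℤ}
    (hj : H47Perc.Joined ω u v) : H47Perc.Joined ω' u v := by
  unfold H47Perc.Joined at *
  exact hj.mono (SimpleGraph.fromEdgeSet_mono (by exact_mod_cast h))

lemma up_LR_in (a b c d : ℤ) (F : Finset (Sym2 (ℤ × ℤ))) :
    Up (fun ω : Finset (Sym2 (ℤ × ℤ)) => LR a b c d (ω ∩ F)) := by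
  rintro ω ω' h ⟨y, y', h1, h2, h3, h4, h5⟩
  exact ⟨y, y', h1, h2, h3, h4, joined_mono' (inter_subset_inter_right h) h5⟩

lemma up_BT_in (a b c d : ℤ) (F : Finset (Sym2 (ℤ × ℤ))) :
    Up (fun ω : Finset (Sym2 (ℤ × ℤ)) => BT a b c d (ω ∩ F)) := by
  rintro ω ω' h ⟨y, y', h1, h2, h3, h4, h5⟩
  exact ⟨y, y', h1, h2, h3, h4, joined_mono' (inter_subset_inter_right h) h5⟩

/-- a ring is an increasing event -/
lemma up_Ring (x : ℤ × ℤ) (k : ℕ) : Up (Ring x k) :=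
  ((up_LR_in _ _ _ _ _).and (up_LR_in _ _ _ _ _)).and
    ((up_BT_in _ _ _ _ _).and (up_BT_in _ _ _ _ _))

/-- the vertices of the square annulus -/
noncomputable def annV (x : ℤ × ℤ) (k : ℕ) : Finset (ℤ × ℤ) :=
  (box (x.1 - 3 * k) (x.1 + 3 * k) (x.2 - 3 * k) (x.2 + 3 * k)).filter
    (fun z => (z.1 ≤ x.1 - k ∨ x.1 + k ≤ z.1) ∨ (z.2 ≤ x.2 - k ∨ x.2 + k ≤ z.2))

lemma mem_annV {x : ℤ × ℤ} {k : ℕ} {z : ℤ × ℤ} : z ∈ annV x k ↔
    (x.1 - 3 * k ≤ z.1 ∧ z.1 ≤ x.1 + 3 * k ∧ x.2 - 3 * k ≤ z.2 ∧ z.2 ≤ x.2 + 3 * k) ∧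
      ((z.1 ≤ x.1 - k ∨ x.1 + k ≤ z.1) ∨ (z.2 ≤ x.2 - k ∨ x.2 + k ≤ z.2)) := by
  unfold annV
  rw [mem_filter, mem_box]

lemma dep_inter {F G : Finset (Sym2 (ℤ × ℤ))} (h : F ⊆ G) (A : Finset (Sym2 (ℤ × ℤ)) → Prop) :
    Dep G (fun ω => A (ω ∩ F)) := by
  intro S
  simp only [inter_assoc, inter_eq_right.2 h]

/-- a ring depends only on the edges of the annulus -/
lemma dep_Ring (x : ℤ × ℤ) (k : ℕ) : Dep (edgesIn (annV x k)) (Ring x k) := by
  have h1 : edgesIn (box (x.1 - 3 * k) (x.1 + 3 * k) (x.2 + k) (x.2 + 3 * k)) ⊆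
      edgesIn (annV x k) := edgesIn_mono fun z hz => by
    rw [mem_box] at hz; rw [mem_annV]; omega
  have h2 : edgesIn (box (x.1 - 3 * k) (x.1 + 3 * k) (x.2 - 3 * k) (x.2 - k)) ⊆
      edgesIn (annV x k) := edgesIn_mono fun z hz => by
    rw [mem_box] at hz; rw [mem_annV]; omega
  have h3 : edgesIn (box (x.1 - 3 * k) (x.1 - k) (x.2 - 3 * k) (x.2 + 3 * k)) ⊆
      edgesIn (annV x k) := edgesIn_mono fun z hz => by
    rw [mem_box] at hz; rw [mem_annV]; omega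
  have h4 : edgesIn (box (x.1 + k) (x.1 + 3 * k) (x.2 - 3 * k) (x.2 + 3 * k)) ⊆
      edgesIn (annV x k) := edgesIn_mono fun z hz => by
    rw [mem_box] at hz; rw [mem_annV]; omega
  exact ((dep_inter h1 (LR _ _ _ _)).and (dep_inter h2 (LR _ _ _ _))).and
    ((dep_inter h3 (BT _ _ _ _)).and (dep_inter h4 (BT _ _ _ _)))

lemma P_LR_in {a b c d : ℤ} {F : Finset (Sym2 (ℤ × ℤ))} (h : edgesIn (box a b c d) ⊆ F) :
    P F (fun ω => LR a b c d (ω ∩ edgesIn (box a b c d))) = pLR (b - a) (d - c) := by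
  rw [P_restrict h (dep_inter subset_rfl (LR a b c d)), ← perc_LR a b c d, Pool.Agent.Helper69.RSW.perc_half_eq]
  exact P_congr fun S hS => by rw [inter_eq_left.2 hS]

lemma P_BT_in {a b c d : ℤ} {F : Finset (Sym2 (ℤ × ℤ))} (h : edgesIn (box a b c d) ⊆ F) :
    P F (fun ω => BT a b c d (ω ∩ edgesIn (box a b c d))) = pLR (d - c) (b - a) := by
  rw [P_restrict h (dep_inter subset_rfl (BT a b c d)), ← perc_BT a b c d, Pool.Agent.Helper69.RSW.perc_half_eq]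
  exact P_congr fun S hS => by rw [inter_eq_left.2 hS]

/-- rings have probability bounded below -/
theorem Ring_prob : ∃ q : ℝ, 0 < q ∧ q ≤ 1 / 2 ∧ ∀ (x : ℤ × ℤ) (k : ℕ), 1 ≤ k →
    ∀ F : Finset (Sym2 (ℤ × ℤ)), edgesIn (annV x k) ⊆ F → q ≤ P F (Ring x k) := by
  obtain ⟨c, hc, h⟩ := H46.rsw_pLR 3
  set d := min c (1 / 2) with hd
  have hd0 : 0 < d := by positivity
  have hd1 : d ≤ 1 / 2 := min_le_right _ _
  refine ⟨d ^ 4, by positivity, ?_, ?_⟩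
  · calc d ^ 4 ≤ (1 / 2 : ℝ) ^ 4 := by gcongr
      _ ≤ 1 / 2 := by norm_num
  intro x k hk F hF
  have key : d ≤ pLR (6 * k) (2 * k) := by
    have := h (2 * k) (by omega)
    refine (min_le_left _ _).trans (this.trans (le_of_eq ?_))
    push_cast
    congr 1
    ring
  have h1 : d ≤ P F (fun ω => LR (x.1 - 3 * k) (x.1 + 3 * k) (x.2 + k) (x.2 + 3 * k)
      (ω ∩ edgesIn (box (x.1 - 3 * k) (x.1 + 3 * k) (x.2 + k) (x.2 + 3 * k)))) := by
    rw [P_LR_in ((edgesIn_mono fun z hz => by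
      rw [mem_box] at hz; rw [mem_annV]; omega).trans hF)]
    convert key using 2 <;> ring
  have h2 : d ≤ P F (fun ω => LR (x.1 - 3 * k) (x.1 + 3 * k) (x.2 - 3 * k) (x.2 - k)
      (ω ∩ edgesIn (box (x.1 - 3 * k) (x.1 + 3 * k) (x.2 - 3 * k) (x.2 - k)))) := by
    rw [P_LR_in ((edgesIn_mono fun z hz => by
      rw [mem_box] at hz; rw [mem_annV]; omega).trans hF)]
    convert key using 2 <;> ring
  have h3 : d ≤ P F (fun ω => BT (x.1 - 3 * k) (x.1 - k) (x.2 - 3 * k) (x.2 + 3 * k)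
      (ω ∩ edgesIn (box (x.1 - 3 * k) (x.1 - k) (x.2 - 3 * k) (x.2 + 3 * k)))) := by
    rw [P_BT_in ((edgesIn_mono fun z hz => by
      rw [mem_box] at hz; rw [mem_annV]; omega).trans hF)]
    convert key using 2 <;> ring
  have h4 : d ≤ P F (fun ω => BT (x.1 + k) (x.1 + 3 * k) (x.2 - 3 * k) (x.2 + 3 * k)
      (ω ∩ edgesIn (box (x.1 + k) (x.1 + 3 * k) (x.2 - 3 * k) (x.2 + 3 * k)))) := by
    rw [P_BT_in ((edgesIn_mono fun z hz => by
      rw [mem_box] at hz; rw [mem_annV]; omega).trans hF)]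
    convert key using 2 <;> ring
  have e1 := harris F (up_LR_in (x.1 - 3 * k) (x.1 + 3 * k) (x.2 + k) (x.2 + 3 * k)
      (edgesIn (box (x.1 - 3 * k) (x.1 + 3 * k) (x.2 + k) (x.2 + 3 * k))))
    (up_LR_in (x.1 - 3 * k) (x.1 + 3 * k) (x.2 - 3 * k) (x.2 - k)
      (edgesIn (box (x.1 - 3 * k) (x.1 + 3 * k) (x.2 - 3 * k) (x.2 - k))))
  have e2 := harris F (up_BT_in (x.1 - 3 * k) (x.1 - k) (x.2 - 3 * k) (x.2 + 3 * k)
      (edgesIn (box (x.1 - 3 * k) (x.1 - k) (x.2 - 3 * k) (x.2 + 3 * k))))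
    (up_BT_in (x.1 + k) (x.1 + 3 * k) (x.2 - 3 * k) (x.2 + 3 * k)
      (edgesIn (box (x.1 + k) (x.1 + 3 * k) (x.2 - 3 * k) (x.2 + 3 * k))))
  have e3 := harris F
    ((up_LR_in (x.1 - 3 * k) (x.1 + 3 * k) (x.2 + k) (x.2 + 3 * k)
      (edgesIn (box (x.1 - 3 * k) (x.1 + 3 * k) (x.2 + k) (x.2 + 3 * k)))).and
      (up_LR_in (x.1 - 3 * k) (x.1 + 3 * k) (x.2 - 3 * k) (x.2 - k)
      (edgesIn (box (x.1 - 3 * k) (x.1 + 3 * k) (x.2 - 3 * k) (x.2 - k)))))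
    ((up_BT_in (x.1 - 3 * k) (x.1 - k) (x.2 - 3 * k) (x.2 + 3 * k)
      (edgesIn (box (x.1 - 3 * k) (x.1 - k) (x.2 - 3 * k) (x.2 + 3 * k)))).and
      (up_BT_in (x.1 + k) (x.1 + 3 * k) (x.2 - 3 * k) (x.2 + 3 * k)
      (edgesIn (box (x.1 + k) (x.1 + 3 * k) (x.2 - 3 * k) (x.2 + 3 * k)))))
  have f1 : d * d ≤ _ := (mul_le_mul h1 h2 hd0.le (P_nonneg _ _)).trans e1
  have f2 : d * d ≤ _ := (mul_le_mul h3 h4 hd0.le (P_nonneg _ _)).trans e2
  have f3 : (d * d) * (d * d) ≤ _ := (mul_le_mul f1 f2 (by positivity) (P_nonneg _ _)).trans e3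
  calc d ^ 4 = (d * d) * (d * d) := by ring
    _ ≤ _ := f3

/-- no ring at the scales `4^j r`, `j < J` -/
theorem noRing_pow : ∃ q : ℝ, 0 < q ∧ q ≤ 1 / 2 ∧ ∀ (x : ℤ × ℤ) (r : ℕ), 1 ≤ r → ∀ (J : ℕ)
    (F : Finset (Sym2 (ℤ × ℤ))), (∀ j < J, edgesIn (box (x.1 - 3 * (4 ^ j * r : ℕ))
      (x.1 + 3 * (4 ^ j * r : ℕ)) (x.2 - 3 * (4 ^ j * r : ℕ)) (x.2 + 3 * (4 ^ j * r : ℕ))) ⊆ F) →
    P F (fun ω => ∀ j < J, ¬ Ring x (4 ^ j * r) ω) ≤ (1 - q) ^ J := by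
  obtain ⟨q, hq, hq1, h⟩ := Ring_prob
  refine ⟨q, hq, hq1, ?_⟩
  intro x r hr J
  induction J with
  | zero => intro F _; simpa using P_le_one F _
  | succ J ih =>
    intro F hF
    have hrJ : 1 ≤ 4 ^ J * r := Nat.mul_pos (by positivity) hr
    set m : ℤ := ((4 ^ J * r : ℕ) : ℤ) with hm
    have hm1 : 1 ≤ m := by rw [hm]; exact_mod_cast hrJ
    have hann : annV x (4 ^ J * r) ⊆ box (x.1 - 3 * (4 ^ J * r : ℕ))
      (x.1 + 3 * (4 ^ J * r : ℕ)) (x.2 - 3 * (4 ^ J * r : ℕ)) (x.2 + 3 * (4 ^ J * r : ℕ)) :=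
      filter_subset _ _
    have hH : edgesIn (annV x (4 ^ J * r)) ⊆ F := (edgesIn_mono hann).trans (hF J (by omega))
    have hG : edgesIn (box (x.1 - (m - 1)) (x.1 + (m - 1)) (x.2 - (m - 1)) (x.2 + (m - 1))) ⊆ F := by
      refine (edgesIn_mono fun z hz => ?_).trans (hF J (by omega))
      rw [mem_box] at hz ⊢
      rw [← hm]
      omega
    have hdis : Disjoint (edgesIn (box (x.1 - (m - 1)) (x.1 + (m - 1)) (x.2 - (m - 1))
        (x.2 + (m - 1)))) (edgesIn (annV x (4 ^ J * r))) := by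
      rw [Finset.disjoint_left]
      intro e he he'
      induction e using Sym2.ind with
      | _ u v =>
        rw [mem_edgesIn] at he he'
        have h1 := he.1
        have h2 := he'.1
        rw [mem_box] at h1
        rw [mem_annV, ← hm] at h2
        omega
    have hdepG : Dep (edgesIn (box (x.1 - (m - 1)) (x.1 + (m - 1)) (x.2 - (m - 1)) (x.2 + (m - 1))))
        (fun ω => ∀ j < J, ¬ Ring x (4 ^ j * r) ω) := by
      intro S
      refine forall_congr' fun j => forall_congr' fun hj => not_congr ?_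
      refine (dep_Ring x (4 ^ j * r)).mono (edgesIn_mono fun z hz => ?_) S
      have hz' := hz
      rw [mem_annV] at hz'
      have h4 : 4 * (4 ^ j * r) ≤ 4 ^ J * r := by
        rw [← mul_assoc, ← pow_succ']
        exact Nat.mul_le_mul_right r (Nat.pow_le_pow_right (by norm_num) hj)
      have h5 : 1 ≤ 4 ^ j * r := Nat.mul_pos (by positivity) hr
      have h6 : 4 * ((4 ^ j * r : ℕ) : ℤ) ≤ m := by rw [hm]; exact_mod_cast h4
      have h7 : (1 : ℤ) ≤ ((4 ^ j * r : ℕ) : ℤ) := by exact_mod_cast h5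
      rw [mem_box]
      omega
    have e := P_indep (F := F) hG hH hdis hdepG (dep_Ring x (4 ^ J * r)).not
    have e1 : P F (fun ω => ∀ j < J + 1, ¬ Ring x (4 ^ j * r) ω) =
        P F (fun ω => (∀ j < J, ¬ Ring x (4 ^ j * r) ω) ∧ ¬ Ring x (4 ^ J * r) ω) := by
      refine P_congr fun S _ => ⟨fun h => ⟨fun j hj => h j (by omega), h J (by omega)⟩, ?_⟩
      rintro ⟨h1, h2⟩ j hj
      rcases Nat.lt_succ_iff_lt_or_eq.1 hj with h3 | h3
      · exact h1 j h3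
      · rw [h3]; exact h2
    have e2 : P F (fun ω => ¬ Ring x (4 ^ J * r) ω) ≤ 1 - q := by
      have := P_compl F (Ring x (4 ^ J * r))
      have := h x (4 ^ J * r) hrJ F hH
      linarith
    rw [e1, e, pow_succ]
    exact mul_le_mul (ih F fun j hj => hF j (by omega)) e2 (P_nonneg _ _)
      (pow_nonneg (by linarith) _)

/-- **Rings around a point**: the probability that there is no ring around `x` at the scales between
`r` and `R / 3` is at most `C (r/R)^a`. -/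
theorem noRing_le : ∃ C a : ℝ, 0 < C ∧ 0 < a ∧ ∀ (x : ℤ × ℤ) (r R : ℕ), 1 ≤ r → r ≤ R →
    ∀ S : Finset (ℤ × ℤ), box (x.1 - R) (x.1 + R) (x.2 - R) (x.2 + R) ⊆ S →
    perc half S (fun ω => ¬ ∃ k : ℕ, r ≤ k ∧ 3 * k ≤ R ∧ Ring x k ω) ≤ C * ((r : ℝ) / R) ^ a := by
  obtain ⟨q, hq, hq1, h⟩ := noRing_pow
  have hlog4 : 0 < Real.log 4 := Real.log_pos (by norm_num)
  have hlogq : Real.log (1 - q) < 0 := Real.log_neg (by linarith) (by linarith)
  set a : ℝ := -Real.log (1 - q) / Real.log 4 with ha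
  have ha0 : 0 < a := div_pos (by linarith) hlog4
  have h4a : (1 - q) = (4 : ℝ) ^ (-a) := by
    rw [Real.rpow_def_of_pos (by norm_num), ha]
    rw [show Real.log 4 * -(-Real.log (1 - q) / Real.log 4) = Real.log (1 - q) by
      field_simp]
    rw [Real.exp_log (by linarith)]
  refine ⟨3 ^ a, a, by positivity, ha0, ?_⟩
  intro x r R hr hrR S hS
  have hex : ∃ J : ℕ, R < 3 * (4 ^ J * r) := by
    obtain ⟨J, hJ⟩ := pow_unbounded_of_one_lt R (show 1 < 4 by norm_num)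
    refine ⟨J, hJ.trans_le ?_⟩
    nlinarith [Nat.zero_le (4 ^ J), Nat.mul_le_mul_left (4 ^ J) hr]
  classical
  set J := Nat.find hex with hJdef
  have hJ1 : R < 3 * (4 ^ J * r) := Nat.find_spec hex
  have hJ2 : ∀ j < J, 3 * (4 ^ j * r) ≤ R := fun j hj => not_lt.1 (Nat.find_min hex hj)
  have hR0 : (0 : ℝ) < R := by exact_mod_cast (lt_of_lt_of_le hr hrR)
  have hr0 : (0 : ℝ) < r := by exact_mod_cast hr
  rw [Pool.Agent.Helper69.RSW.perc_half_eq]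
  have hsub : ∀ j < J, edgesIn (box (x.1 - 3 * (4 ^ j * r : ℕ)) (x.1 + 3 * (4 ^ j * r : ℕ))
      (x.2 - 3 * (4 ^ j * r : ℕ)) (x.2 + 3 * (4 ^ j * r : ℕ))) ⊆ edgesIn S := by
    intro j hj
    refine edgesIn_mono fun z hz => hS ?_
    have := hJ2 j hj
    have h3 : 3 * ((4 ^ j * r : ℕ) : ℤ) ≤ (R : ℤ) := by exact_mod_cast this
    rw [mem_box] at hz ⊢
    omega
  have h1 := h x r hr J (edgesIn S) hsub
  have h2 : P (edgesIn S) (fun ω => ¬ ∃ k : ℕ, r ≤ k ∧ 3 * k ≤ R ∧ Ring x k ω) ≤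
      P (edgesIn S) (fun ω => ∀ j < J, ¬ Ring x (4 ^ j * r) ω) := by
    refine P_mono fun ω _ hn j hj hRing => hn ⟨4 ^ j * r, ?_, hJ2 j hj, hRing⟩
    nlinarith [Nat.one_le_pow j 4 (by norm_num)]
  refine (h2.trans h1).trans ?_
  rw [h4a, ← Real.rpow_natCast, ← Real.rpow_mul (by norm_num), ← Real.mul_rpow (by norm_num)
    (by positivity)]
  have h5 : (4 : ℝ) ^ (-a * (J : ℝ)) = (((4 : ℝ) ^ J)⁻¹) ^ a := by
    rw [← Real.rpow_natCast 4 J, ← Real.rpow_neg (by norm_num), ← Real.rpow_mul (by norm_num)]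
    congr 1
    ring
  rw [h5]
  refine Real.rpow_le_rpow (by positivity) ?_ ha0.le
  rw [inv_le_comm₀ (by positivity) (by positivity)]
  have h6 : (R : ℝ) < 3 * (4 ^ J * r) := by exact_mod_cast hJ1
  rw [mul_div_assoc', inv_div, div_le_iff₀ (by positivity)]
  linarith

end Full
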