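import Pool.Agent.Full.Rough.Graph
import Pool.Agent.Full.Rough.Ring

/-!
# The topology of a ring

A ring (four box crossings of a square annulus) is, at mesh `ε`, a connected subset of the union of the
open edges in the closed square annulus, and every connected set which meets the closed inner square and
the complement of the open outer square meets it.
-/

set_option autoImplicit false

open Set Filter Topology Complex H47Perc

namespace Full

lemma joinedIn_extend {F : Set ℂ} {u v : ℂ} (α : Path u v) (hα : ∀ t, α t ∈ F) (s : ℝ) :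
    JoinedIn F u (α.extend s) :=
  JoinedIn.ofLine (f := fun r => α.extend (r * s))
    (α.continuous_extend.comp (continuous_id.mul continuous_const)).continuousOn (by simp) (by simp)
    (by rintro _ ⟨r, -, rfl⟩; exact hα _)

/-- a path which crosses a wide rectangle and a path which crosses a tall rectangle meet -/
theorem cross_plus {a b c d a' b' c' d' : ℝ} (haa : a ≤ a') (hab : a' < b') (hbb : b' ≤ b)
    (hcc : c' ≤ c) (hcd : c < d) (hdd : d ≤ d') {F G : Set ℂ} (hF : F ⊆ rc a b c d)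
    (hG : G ⊆ rc a' b' c' d') {u v x y : ℂ} (hu : u.re = a) (hv : v.re = b)
    (hx : x.im = c') (hy : y.im = d') (h1 : JoinedIn F u v) (h2 : JoinedIn G x y) :
    ∃ w, JoinedIn F u w ∧ JoinedIn G x w := by
  obtain ⟨α, hα⟩ := h1
  obtain ⟨β, hβ⟩ := h2
  have hαc := α.continuous_extend
  have hβc := β.continuous_extend
  have hαF : ∀ s, α.extend s ∈ F := fun s => hα _
  have hβG : ∀ s, β.extend s ∈ G := fun s => hβ _
  obtain ⟨s₁, s₂, hs0, hs, hs1, e1, e2, e3⟩ := passage (h := fun s => (α.extend s).re)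
    (continuous_re.comp hαc) (a := 0) (b := 1) (c := a') (d := b') zero_le_one hab.le
    (by simpa [hu] using haa) (by simpa [hv] using hbb)
  obtain ⟨t₁, t₂, ht0, ht, ht1, f1, f2, f3⟩ := passage (h := fun s => (β.extend s).im)
    (continuous_im.comp hβc) (a := 0) (b := 1) (c := c) (d := d) zero_le_one hcd.le
    (by simpa [hx] using hcc) (by simpa [hy] using hdd)
  obtain ⟨s, hs', t, ht', h⟩ := cross_rc hab hcd hαc hβc hs ht
    (fun s hs => ⟨(e3 s hs).1, (e3 s hs).2, (hF (hαF s)).2.2.1, (hF (hαF s)).2.2.2⟩)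
    (fun t ht => ⟨(hG (hβG t)).1, (hG (hβG t)).2.1, (f3 t ht).1, (f3 t ht).2⟩) e1 e2 f1 f2
  refine ⟨α.extend s, joinedIn_extend α hα s, ?_⟩
  rw [h]
  exact joinedIn_extend β hβ t

/-- joined vertices are joined by a continuous path in the union of the open edges -/
lemma joinedIn_pos {ε : ℝ} {ω : Finset (Sym2 (ℤ × ℤ))} {u v : ℤ × ℤ} (h : H47Perc.Joined ω u v) :
    u = v ∨ JoinedIn (openSet ε ω) (pos ε u) (pos ε v) := by
  obtain ⟨p⟩ := h
  induction p with
  | nil => left; rfl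
  | @cons u w v hadj p ih =>
    right
    have h1 : s(u, w) ∈ ω := by
      have := (SimpleGraph.fromEdgeSet_adj _).1 hadj
      exact_mod_cast this.1
    have h2 : JoinedIn (openSet ε ω) (pos ε u) (pos ε w) :=
      joinedIn_segment fun z hz => ⟨u, w, h1, hz⟩
    rcases ih with rfl | h3
    · exact h2
    · exact h2.trans h3

lemma pos_mem_rc {ε : ℝ} (hε : 0 ≤ ε) {a b c d : ℤ} {z : ℤ × ℤ} (hz : z ∈ box a b c d) :
    pos ε z ∈ rc (ε * a) (ε * b) (ε * c) (ε * d) := by
  rw [mem_box] at hz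
  simp only [mem_rc, pos_re, pos_im]
  refine ⟨?_, ?_, ?_, ?_⟩ <;> refine mul_le_mul_of_nonneg_left ?_ hε <;> exact_mod_cast (by omega)

/-- the edges of a box lie in the rectangle -/
lemma openSet_box_subset {ε : ℝ} (hε : 0 ≤ ε) {a b c d : ℤ} {ω : Finset (Sym2 (ℤ × ℤ))} :
    openSet ε (ω ∩ edgesIn (box a b c d)) ⊆ rc (ε * a) (ε * b) (ε * c) (ε * d) := by
  rintro w ⟨z, z', hz, hw⟩
  rw [Finset.mem_inter, mem_edgesIn] at hz
  exact convex_rc.segment_subset (pos_mem_rc hε hz.2.1) (pos_mem_rc hε hz.2.2.1) hw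

/-- a continuous curve which passes from the left to the right of a rectangle meets a crossing from
bottom to top -/
lemma meet_lr {α : ℝ → ℂ} (hα : Continuous α) {a b c d : ℝ} (hab : a < b) (hcd : c < d) {s₁ s₂ : ℝ}
    (hs : s₁ ≤ s₂) (him : ∀ s ∈ Icc s₁ s₂, c ≤ (α s).im ∧ (α s).im ≤ d) (h1 : (α s₁).re ≤ a)
    (h2 : b ≤ (α s₂).re) {G : Set ℂ} (hG : G ⊆ rc a b c d) {x y : ℂ} (hx : x.im = c) (hy : y.im = d)
    (hj : JoinedIn G x y) : ∃ s ∈ Icc s₁ s₂, JoinedIn G x (α s) := by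
  obtain ⟨t₁, t₂, ht1, ht, ht2, e1, e2, e3⟩ := passage (h := fun s => (α s).re)
    (continuous_re.comp hα) hs hab.le h1 h2
  obtain ⟨β, hβ⟩ := hj
  obtain ⟨s, hs', t, ht', h⟩ := cross_rc hab hcd hα β.continuous_extend ht zero_le_one
    (fun s hs' => ⟨(e3 s hs').1, (e3 s hs').2, (him s ⟨ht1.trans hs'.1, hs'.2.trans ht2⟩).1,
      (him s ⟨ht1.trans hs'.1, hs'.2.trans ht2⟩).2⟩) (fun t _ => hG (hβ _)) e1 e2
    (by simpa using hx) (by simpa using hy)
  refine ⟨s, ⟨ht1.trans hs'.1, hs'.2.trans ht2⟩, ?_⟩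
  rw [h]
  exact joinedIn_extend β hβ t

lemma meet_rl {α : ℝ → ℂ} (hα : Continuous α) {a b c d : ℝ} (hab : a < b) (hcd : c < d) {s₁ s₂ : ℝ}
    (hs : s₁ ≤ s₂) (him : ∀ s ∈ Icc s₁ s₂, c ≤ (α s).im ∧ (α s).im ≤ d) (h1 : b ≤ (α s₁).re)
    (h2 : (α s₂).re ≤ a) {G : Set ℂ} (hG : G ⊆ rc a b c d) {x y : ℂ} (hx : x.im = c) (hy : y.im = d)
    (hj : JoinedIn G x y) : ∃ s ∈ Icc s₁ s₂, JoinedIn G x (α s) := by
  obtain ⟨s, hs', h⟩ := meet_lr (α := fun s => α (-s)) (hα.comp continuous_neg) hab hcd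
    (neg_le_neg hs) (fun s hs' => him (-s) ⟨by linarith [hs'.2], by linarith [hs'.1]⟩)
    (by simpa using h2) (by simpa using h1) hG hx hy hj
  exact ⟨-s, ⟨by linarith [hs'.2], by linarith [hs'.1]⟩, h⟩

lemma meet_bt {α : ℝ → ℂ} (hα : Continuous α) {a b c d : ℝ} (hab : a < b) (hcd : c < d) {s₁ s₂ : ℝ}
    (hs : s₁ ≤ s₂) (hre : ∀ s ∈ Icc s₁ s₂, a ≤ (α s).re ∧ (α s).re ≤ b) (h1 : (α s₁).im ≤ c)
    (h2 : d ≤ (α s₂).im) {G : Set ℂ} (hG : G ⊆ rc a b c d) {x y : ℂ} (hx : x.re = a) (hy : y.re = b)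
    (hj : JoinedIn G x y) : ∃ s ∈ Icc s₁ s₂, JoinedIn G x (α s) := by
  obtain ⟨t₁, t₂, ht1, ht, ht2, e1, e2, e3⟩ := passage (h := fun s => (α s).im)
    (continuous_im.comp hα) hs hcd.le h1 h2
  obtain ⟨β, hβ⟩ := hj
  obtain ⟨t, ht', s, hs', h⟩ := cross_rc hab hcd β.continuous_extend hα zero_le_one ht
    (fun t _ => hG (hβ _)) (fun s hs' => ⟨(hre s ⟨ht1.trans hs'.1, hs'.2.trans ht2⟩).1,
      (hre s ⟨ht1.trans hs'.1, hs'.2.trans ht2⟩).2, (e3 s hs').1, (e3 s hs').2⟩)
    (by simpa using hx) (by simpa using hy) e1 e2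
  refine ⟨s, ⟨ht1.trans hs'.1, hs'.2.trans ht2⟩, ?_⟩
  rw [← h]
  exact joinedIn_extend β hβ t

lemma meet_tb {α : ℝ → ℂ} (hα : Continuous α) {a b c d : ℝ} (hab : a < b) (hcd : c < d) {s₁ s₂ : ℝ}
    (hs : s₁ ≤ s₂) (hre : ∀ s ∈ Icc s₁ s₂, a ≤ (α s).re ∧ (α s).re ≤ b) (h1 : d ≤ (α s₁).im)
    (h2 : (α s₂).im ≤ c) {G : Set ℂ} (hG : G ⊆ rc a b c d) {x y : ℂ} (hx : x.re = a) (hy : y.re = b)
    (hj : JoinedIn G x y) : ∃ s ∈ Icc s₁ s₂, JoinedIn G x (α s) := by
  obtain ⟨s, hs', h⟩ := meet_bt (α := fun s => α (-s)) (hα.comp continuous_neg) hab hcd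
    (neg_le_neg hs) (fun s hs' => hre (-s) ⟨by linarith [hs'.2], by linarith [hs'.1]⟩)
    (by simpa using h2) (by simpa using h1) hG hx hy hj
  exact ⟨-s, ⟨by linarith [hs'.2], by linarith [hs'.1]⟩, h⟩

/-- the distance in the maximum norm -/
noncomputable def dinf (p w : ℂ) : ℝ := max |w.re - p.re| |w.im - p.im|

lemma continuous_dinf (p : ℂ) : Continuous (dinf p) := by unfold dinf; fun_prop

lemma mem_cc_of_joinedIn {O : Set ℂ} {p w : ℂ} (h : JoinedIn O p w) :
    w ∈ connectedComponentIn O p := by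
  obtain ⟨γ, hγ⟩ := h
  exact (isPreconnected_range γ.continuous).subset_connectedComponentIn ⟨0, by simp⟩
    (range_subset_iff.2 hγ) ⟨1, by simp⟩

/-- the edges of the square annulus lie in the closed square annulus -/
lemma openSet_annV {ε : ℝ} (hε : 0 < ε) {x : ℤ × ℤ} {k : ℕ} (hk : 1 ≤ k)
    {ω : Finset (Sym2 (ℤ × ℤ))} {w : ℂ} (hw : w ∈ openSet ε (ω ∩ edgesIn (annV x k))) :
    ε * k ≤ dinf (pos ε x) w ∧ dinf (pos ε x) w ≤ 3 * (ε * k) := by
  rw [mem_openSet] at hw
  obtain ⟨e, he, hw⟩ := hw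
  have he' := (Finset.mem_inter.1 he).2
  have hkk : (1:ℤ) ≤ k := by exact_mod_cast hk
  rcases edgesIn_cases he' with ⟨i, j, rfl⟩ | ⟨i, j, rfl⟩
  · rw [hE_mem, mem_annV, mem_annV] at he'
    rw [mem_seg_hE hε] at hw
    simp only at he'
    have b1 : ε * ((x.1 - 3 * k : ℤ) : ℝ) ≤ ε * (i : ℝ) := by
      refine mul_le_mul_of_nonneg_left ?_ hε.le; exact_mod_cast (by omega)
    have b2 : ε * ((i + 1 : ℤ) : ℝ) ≤ ε * ((x.1 + 3 * k : ℤ) : ℝ) := by
      refine mul_le_mul_of_nonneg_left ?_ hε.le; exact_mod_cast (by omega)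
    have b3 : ε * ((x.2 - 3 * k : ℤ) : ℝ) ≤ ε * (j : ℝ) := by
      refine mul_le_mul_of_nonneg_left ?_ hε.le; exact_mod_cast (by omega)
    have b4 : ε * (j : ℝ) ≤ ε * ((x.2 + 3 * k : ℤ) : ℝ) := by
      refine mul_le_mul_of_nonneg_left ?_ hε.le; exact_mod_cast (by omega)
    push_cast at b1 b2 b3 b4
    constructor
    · have h : (i + 1 ≤ x.1 - k ∨ x.1 + k ≤ i) ∨ (j ≤ x.2 - k ∨ x.2 + k ≤ j) := by omega
      rcases h with (h | h) | (h | h)
      · have : ε * ((i + 1 : ℤ) : ℝ) ≤ ε * ((x.1 - k : ℤ) : ℝ) := by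
          refine mul_le_mul_of_nonneg_left ?_ hε.le; exact_mod_cast h
        push_cast at this
        refine le_trans ?_ (le_max_left _ _)
        refine le_trans ?_ (neg_le_abs _)
        simp only [pos_re]; linarith [hw.2.2]
      · have : ε * ((x.1 + k : ℤ) : ℝ) ≤ ε * (i : ℝ) := by
          refine mul_le_mul_of_nonneg_left ?_ hε.le; exact_mod_cast h
        push_cast at this
        refine le_trans ?_ (le_max_left _ _)
        refine le_trans ?_ (le_abs_self _)
        simp only [pos_re]; linarith [hw.2.1]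
      · have : ε * (j : ℝ) ≤ ε * ((x.2 - k : ℤ) : ℝ) := by
          refine mul_le_mul_of_nonneg_left ?_ hε.le; exact_mod_cast h
        push_cast at this
        refine le_trans ?_ (le_max_right _ _)
        refine le_trans ?_ (neg_le_abs _)
        simp only [pos_im]; linarith [hw.1]
      · have : ε * ((x.2 + k : ℤ) : ℝ) ≤ ε * (j : ℝ) := by
          refine mul_le_mul_of_nonneg_left ?_ hε.le; exact_mod_cast h
        push_cast at this
        refine le_trans ?_ (le_max_right _ _)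
        refine le_trans ?_ (le_abs_self _)
        simp only [pos_im]; linarith [hw.1]
    · refine max_le (abs_le.2 ⟨?_, ?_⟩) (abs_le.2 ⟨?_, ?_⟩)
      · simp only [pos_re]; linarith [hw.2.1]
      · simp only [pos_re]; linarith [hw.2.2]
      · simp only [pos_im]; linarith [hw.1]
      · simp only [pos_im]; linarith [hw.1]
  · rw [vE_mem, mem_annV, mem_annV] at he'
    rw [mem_seg_vE hε] at hw
    simp only at he'
    have b1 : ε * ((x.1 - 3 * k : ℤ) : ℝ) ≤ ε * (i : ℝ) := by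
      refine mul_le_mul_of_nonneg_left ?_ hε.le; exact_mod_cast (by omega)
    have b2 : ε * (i : ℝ) ≤ ε * ((x.1 + 3 * k : ℤ) : ℝ) := by
      refine mul_le_mul_of_nonneg_left ?_ hε.le; exact_mod_cast (by omega)
    have b3 : ε * ((x.2 - 3 * k : ℤ) : ℝ) ≤ ε * (j : ℝ) := by
      refine mul_le_mul_of_nonneg_left ?_ hε.le; exact_mod_cast (by omega)
    have b4 : ε * ((j + 1 : ℤ) : ℝ) ≤ ε * ((x.2 + 3 * k : ℤ) : ℝ) := by
      refine mul_le_mul_of_nonneg_left ?_ hε.le; exact_mod_cast (by omega)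
    push_cast at b1 b2 b3 b4
    constructor
    · have h : (i ≤ x.1 - k ∨ x.1 + k ≤ i) ∨ (j + 1 ≤ x.2 - k ∨ x.2 + k ≤ j) := by omega
      rcases h with (h | h) | (h | h)
      · have : ε * (i : ℝ) ≤ ε * ((x.1 - k : ℤ) : ℝ) := by
          refine mul_le_mul_of_nonneg_left ?_ hε.le; exact_mod_cast h
        push_cast at this
        refine le_trans ?_ (le_max_left _ _)
        refine le_trans ?_ (neg_le_abs _)
        simp only [pos_re]; linarith [hw.1]
      · have : ε * ((x.1 + k : ℤ) : ℝ) ≤ ε * (i : ℝ) := by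
          refine mul_le_mul_of_nonneg_left ?_ hε.le; exact_mod_cast h
        push_cast at this
        refine le_trans ?_ (le_max_left _ _)
        refine le_trans ?_ (le_abs_self _)
        simp only [pos_re]; linarith [hw.1]
      · have : ε * ((j + 1 : ℤ) : ℝ) ≤ ε * ((x.2 - k : ℤ) : ℝ) := by
          refine mul_le_mul_of_nonneg_left ?_ hε.le; exact_mod_cast h
        push_cast at this
        refine le_trans ?_ (le_max_right _ _)
        refine le_trans ?_ (neg_le_abs _)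
        simp only [pos_im]; linarith [hw.2.2]
      · have : ε * ((x.2 + k : ℤ) : ℝ) ≤ ε * (j : ℝ) := by
          refine mul_le_mul_of_nonneg_left ?_ hε.le; exact_mod_cast h
        push_cast at this
        refine le_trans ?_ (le_max_right _ _)
        refine le_trans ?_ (le_abs_self _)
        simp only [pos_im]; linarith [hw.2.1]
    · refine max_le (abs_le.2 ⟨?_, ?_⟩) (abs_le.2 ⟨?_, ?_⟩)
      · simp only [pos_re]; linarith [hw.1]
      · simp only [pos_re]; linarith [hw.1]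
      · simp only [pos_im]; linarith [hw.2.1]
      · simp only [pos_im]; linarith [hw.2.2]

/-- a left-right crossing of a box as a path of the open set in the rectangle -/
lemma LR_path {ε : ℝ} {a b c d : ℤ} (hab : a < b) {ω : Finset (Sym2 (ℤ × ℤ))}
    (h : LR a b c d (ω ∩ edgesIn (box a b c d))) :
    ∃ u v : ℂ, u.re = ε * a ∧ v.re = ε * b ∧ JoinedIn (openSet ε (ω ∩ edgesIn (box a b c d))) u v := by
  obtain ⟨y, y', -, -, -, -, hj⟩ := h
  rcases joinedIn_pos (ε := ε) hj with h1 | h1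
  · exact absurd (congrArg Prod.fst h1) hab.ne
  · exact ⟨_, _, rfl, rfl, h1⟩

/-- a bottom-top crossing of a box as a path of the open set in the rectangle -/
lemma BT_path {ε : ℝ} {a b c d : ℤ} (hcd : c < d) {ω : Finset (Sym2 (ℤ × ℤ))}
    (h : BT a b c d (ω ∩ edgesIn (box a b c d))) :
    ∃ u v : ℂ, u.im = ε * c ∧ v.im = ε * d ∧ JoinedIn (openSet ε (ω ∩ edgesIn (box a b c d))) u v := by
  obtain ⟨y, y', -, -, -, -, hj⟩ := h
  rcases joinedIn_pos (ε := ε) hj with h1 | h1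
  · exact absurd (congrArg Prod.snd h1) hcd.ne
  · exact ⟨_, _, rfl, rfl, h1⟩

/-- **The topology of a ring.** At mesh `ε` a ring around the vertex `x` at scale `k` contains a closed
connected subset `K` of the open set, in the closed square annulus, which is met by every connected set
which meets the closed square of radius `ε k` and the complement of the open square of radius `3 ε k`. -/
theorem Ring_topo {ε : ℝ} (hε : 0 < ε) {x : ℤ × ℤ} {k : ℕ} (hk : 1 ≤ k)
    {ω : Finset (Sym2 (ℤ × ℤ))} (h : Ring x k ω) :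
    ∃ K : Set ℂ, K ⊆ openSet ε (ω ∩ edgesIn (annV x k)) ∧ IsClosed K ∧ IsConnected K ∧
      (∀ w ∈ K, ε * k ≤ dinf (pos ε x) w ∧ dinf (pos ε x) w ≤ 3 * (ε * k)) ∧
      (∀ u ∈ K, ∀ v ∈ K, JoinedIn (openSet ε (ω ∩ edgesIn (annV x k))) u v) ∧
      ∀ G : Set ℂ, IsPreconnected G → ∀ z ∈ G, ∀ z' ∈ G, dinf (pos ε x) z ≤ ε * k →
        3 * (ε * k) ≤ dinf (pos ε x) z' → (K ∩ G).Nonempty := by
  have hkk : (1:ℤ) ≤ k := by exact_mod_cast hk
  have hεk : 0 < ε * k := mul_pos hε (by exact_mod_cast hk)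
  obtain ⟨⟨hT, hB⟩, hL, hR⟩ := h
  obtain ⟨uT, vT, eT, fT, jT⟩ := LR_path (ε := ε) (by omega) hT
  obtain ⟨uB, vB, eB, fB, jB⟩ := LR_path (ε := ε) (by omega) hB
  obtain ⟨uL, vL, eL, fL, jL⟩ := BT_path (ε := ε) (by omega) hL
  obtain ⟨uR, vR, eR, fR, jR⟩ := BT_path (ε := ε) (by omega) hR
  have sT := openSet_box_subset (ω := ω) hε.le (a := x.1 - 3 * k) (b := x.1 + 3 * k)
    (c := x.2 + k) (d := x.2 + 3 * k)
  have sB := openSet_box_subset (ω := ω) hε.le (a := x.1 - 3 * k) (b := x.1 + 3 * k)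
    (c := x.2 - 3 * k) (d := x.2 - k)
  have sL := openSet_box_subset (ω := ω) hε.le (a := x.1 - 3 * k) (b := x.1 - k)
    (c := x.2 - 3 * k) (d := x.2 + 3 * k)
  have sR := openSet_box_subset (ω := ω) hε.le (a := x.1 + k) (b := x.1 + 3 * k)
    (c := x.2 - 3 * k) (d := x.2 + 3 * k)
  have lt1 : ∀ a b : ℤ, a < b → ε * (a:ℝ) < ε * b := fun a b hab =>
    mul_lt_mul_of_pos_left (by exact_mod_cast hab) hε
  -- the intersections
  obtain ⟨w1, hw1, hw1'⟩ := cross_plus le_rfl (lt1 (x.1 - 3 * k) (x.1 - k) (by omega))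
    (lt1 (x.1 - k) (x.1 + 3 * k) (by omega)).le (lt1 (x.2 - 3 * k) (x.2 + k) (by omega)).le
    (lt1 (x.2 + k) (x.2 + 3 * k) (by omega)) le_rfl sT sL eT fT eL fL jT jL
  obtain ⟨w2, hw2, hw2'⟩ := cross_plus (lt1 (x.1 - 3 * k) (x.1 + k) (by omega)).le
    (lt1 (x.1 + k) (x.1 + 3 * k) (by omega)) le_rfl (lt1 (x.2 - 3 * k) (x.2 + k) (by omega)).le
    (lt1 (x.2 + k) (x.2 + 3 * k) (by omega)) le_rfl sT sR eT fT eR fR jT jR
  obtain ⟨w3, hw3, hw3'⟩ := cross_plus le_rfl (lt1 (x.1 - 3 * k) (x.1 - k) (by omega))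
    (lt1 (x.1 - k) (x.1 + 3 * k) (by omega)).le le_rfl (lt1 (x.2 - 3 * k) (x.2 - k) (by omega))
    (lt1 (x.2 - k) (x.2 + 3 * k) (by omega)).le sB sL eB fB eL fL jB jL
  set O := openSet ε (ω ∩ edgesIn (annV x k)) with hO
  have oT : openSet ε (ω ∩ edgesIn (box (x.1 - 3 * k) (x.1 + 3 * k) (x.2 + k) (x.2 + 3 * k))) ⊆ O :=
    openSet_mono (Finset.inter_subset_inter_left (edgesIn_mono fun z hz => by
      rw [mem_box] at hz; rw [mem_annV]; omega))
  have oB : openSet ε (ω ∩ edgesIn (box (x.1 - 3 * k) (x.1 + 3 * k) (x.2 - 3 * k) (x.2 - k))) ⊆ O :=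
    openSet_mono (Finset.inter_subset_inter_left (edgesIn_mono fun z hz => by
      rw [mem_box] at hz; rw [mem_annV]; omega))
  have oL : openSet ε (ω ∩ edgesIn (box (x.1 - 3 * k) (x.1 - k) (x.2 - 3 * k) (x.2 + 3 * k))) ⊆ O :=
    openSet_mono (Finset.inter_subset_inter_left (edgesIn_mono fun z hz => by
      rw [mem_box] at hz; rw [mem_annV]; omega))
  have oR : openSet ε (ω ∩ edgesIn (box (x.1 + k) (x.1 + 3 * k) (x.2 - 3 * k) (x.2 + 3 * k))) ⊆ O :=
    openSet_mono (Finset.inter_subset_inter_left (edgesIn_mono fun z hz => by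
      rw [mem_box] at hz; rw [mem_annV]; omega))
  have cT : JoinedIn O uT uT := JoinedIn.refl (jT.mono oT).source_mem
  have cL : JoinedIn O uT uL := (hw1.mono oT).trans (hw1'.mono oL).symm
  have cR : JoinedIn O uT uR := (hw2.mono oT).trans (hw2'.mono oR).symm
  have cB : JoinedIn O uT uB := (cL.trans (hw3'.mono oL)).trans (hw3.mono oB).symm
  have hOc : IsClosed O := isClosed_openSet _ _
  have hKO : connectedComponentIn O uT ⊆ O := connectedComponentIn_subset _ _
  have hKc : IsClosed (connectedComponentIn O uT) := by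
    refine isClosed_of_closure_subset ?_
    exact isPreconnected_connectedComponentIn.closure.subset_connectedComponentIn
      (subset_closure (mem_cc_of_joinedIn cT)) (closure_minimal hKO hOc)
  -- a path from inside to outside meets the component
  have key : ∀ α : ℝ → ℂ, Continuous α → dinf (pos ε x) (α 0) ≤ ε * k →
      3 * (ε * k) ≤ dinf (pos ε x) (α 1) → ∃ s, α s ∈ connectedComponentIn O uT := by
    intro α hα h0 h1
    obtain ⟨t₁, t₂, ht1, ht, ht2, e1, e2, e3⟩ := passage (h := fun s => dinf (pos ε x) (α s))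
      ((continuous_dinf _).comp hα) zero_le_one (by linarith) h0 h1
    have hre : ∀ s ∈ Icc t₁ t₂, ε * ((x.1 - 3 * k : ℤ) : ℝ) ≤ (α s).re ∧
        (α s).re ≤ ε * ((x.1 + 3 * k : ℤ) : ℝ) := by
      intro s hs
      have := abs_le.1 ((le_max_left _ _).trans (e3 s hs).2)
      simp only [pos_re] at this
      push_cast
      constructor <;> linarith [this.1, this.2]
    have him : ∀ s ∈ Icc t₁ t₂, ε * ((x.2 - 3 * k : ℤ) : ℝ) ≤ (α s).im ∧
        (α s).im ≤ ε * ((x.2 + 3 * k : ℤ) : ℝ) := by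
      intro s hs
      have := abs_le.1 ((le_max_right _ _).trans (e3 s hs).2)
      simp only [pos_im] at this
      push_cast
      constructor <;> linarith [this.1, this.2]
    have r1 := abs_le.1 ((le_max_left _ _).trans e1.le)
    have r2 := abs_le.1 ((le_max_right _ _).trans e1.le)
    simp only [pos_re] at r1
    simp only [pos_im] at r2
    rcases max_choice |(α t₂).re - (pos ε x).re| |(α t₂).im - (pos ε x).im| with hm | hm
    · have hm2 : |(α t₂).re - (pos ε x).re| = 3 * (ε * k) := by rw [← hm]; exact e2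
      rcases abs_choice ((α t₂).re - (pos ε x).re) with hc | hc
      · rw [hc] at hm2
        simp only [pos_re] at hm2
        obtain ⟨s, -, hs⟩ := meet_lr hα (lt1 (x.1 + k) (x.1 + 3 * k) (by omega))
          (lt1 (x.2 - 3 * k) (x.2 + 3 * k) (by omega)) ht him (by push_cast; linarith [r1.2])
          (by push_cast; linarith) sR eR fR jR
        exact ⟨s, mem_cc_of_joinedIn (cR.trans (hs.mono oR))⟩
      · rw [hc] at hm2
        simp only [pos_re] at hm2
        obtain ⟨s, -, hs⟩ := meet_rl hα (lt1 (x.1 - 3 * k) (x.1 - k) (by omega))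
          (lt1 (x.2 - 3 * k) (x.2 + 3 * k) (by omega)) ht him (by push_cast; linarith [r1.1])
          (by push_cast; linarith) sL eL fL jL
        exact ⟨s, mem_cc_of_joinedIn (cL.trans (hs.mono oL))⟩
    · have hm2 : |(α t₂).im - (pos ε x).im| = 3 * (ε * k) := by rw [← hm]; exact e2
      rcases abs_choice ((α t₂).im - (pos ε x).im) with hc | hc
      · rw [hc] at hm2
        simp only [pos_im] at hm2
        obtain ⟨s, -, hs⟩ := meet_bt hα (lt1 (x.1 - 3 * k) (x.1 + 3 * k) (by omega))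
          (lt1 (x.2 + k) (x.2 + 3 * k) (by omega)) ht hre (by push_cast; linarith [r2.2])
          (by push_cast; linarith) sT eT fT jT
        exact ⟨s, mem_cc_of_joinedIn (cT.trans (hs.mono oT))⟩
      · rw [hc] at hm2
        simp only [pos_im] at hm2
        obtain ⟨s, -, hs⟩ := meet_tb hα (lt1 (x.1 - 3 * k) (x.1 + 3 * k) (by omega))
          (lt1 (x.2 - 3 * k) (x.2 - k) (by omega)) ht hre (by push_cast; linarith [r2.1])
          (by push_cast; linarith) sB eB fB jB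
        exact ⟨s, mem_cc_of_joinedIn (cB.trans (hs.mono oB))⟩
  refine ⟨connectedComponentIn O uT, hKO, hKc,
    isConnected_connectedComponentIn_iff.2 (jT.mono oT).source_mem,
    fun w hw => openSet_annV hε hk (hKO hw), ?_, ?_⟩
  · intro u hu v hv
    have := graph_path hε (ω := ω ∩ edgesIn (annV x k)) (fun e he =>
      edgesIn_cases (Finset.mem_inter.1 he).2) isClosed_univ
      (isPreconnected_connectedComponentIn (x := uT) (F := O)) (by rw [inter_univ]; exact hKO) hu hv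
    rwa [inter_univ] at this
  · intro G hG z hz z' hz' h1 h2
    by_contra hemp
    rw [not_nonempty_iff_eq_empty] at hemp
    have hGU : G ⊆ (connectedComponentIn O uT)ᶜ := by
      intro g hg hgK
      exact (eq_empty_iff_forall_notMem.1 hemp) g ⟨hgK, hg⟩
    have oU := hKc.isOpen_compl
    have h3 : G ⊆ connectedComponentIn (connectedComponentIn O uT)ᶜ z :=
      hG.subset_connectedComponentIn hz hGU
    have h4 : IsPathConnected (connectedComponentIn (connectedComponentIn O uT)ᶜ z) :=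
      (oU.connectedComponentIn).isConnected_iff_isPathConnected.1
        (isConnected_connectedComponentIn_iff.2 (hGU hz))
    obtain ⟨γ, hγ⟩ := h4.joinedIn z (h3 hz) z' (h3 hz')
    obtain ⟨s, hs⟩ := key γ.extend γ.continuous_extend (by simpa using h1) (by simpa using h2)
    exact connectedComponentIn_subset _ _ (hγ _) hs

/-- **Rings block curves** (helper63's form). -/
theorem ring_cross {ε : ℝ} (hε : 0 < ε) {x : ℤ × ℤ} {k : ℕ} (hk : 1 ≤ k)
    {ω : Finset (Sym2 (ℤ × ℤ))} (h : Ring x k ω) {α : ℝ → ℂ} (hα : Continuous α) {a b : ℝ}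
    (hab : a ≤ b) (h0 : |(α a).re - ε * x.1| < ε * k ∧ |(α a).im - ε * x.2| < ε * k)
    (h1 : 3 * ε * k ≤ |(α b).re - ε * x.1| ∨ 3 * ε * k ≤ |(α b).im - ε * x.2|) :
    ∃ t, a < t ∧ t ≤ b ∧ ∃ e ∈ ω, IsEdge e ∧ α t ∈ seg ε e := by
  obtain ⟨K, hK, -, -, -, -, hG⟩ := Ring_topo hε hk h
  have hpre : IsPreconnected (α '' Icc a b) := isPreconnected_Icc.image _ hα.continuousOn
  have d0 : dinf (pos ε x) (α a) < ε * k := max_lt h0.1 h0.2
  have d1 : 3 * (ε * k) ≤ dinf (pos ε x) (α b) := by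
    rcases h1 with h1 | h1
    · exact le_trans (by rw [← mul_assoc]; exact h1) (le_max_left _ _)
    · exact le_trans (by rw [← mul_assoc]; exact h1) (le_max_right _ _)
  obtain ⟨w, hwK, t, ht, rfl⟩ := hG _ hpre (α a) ⟨a, ⟨le_rfl, hab⟩, rfl⟩ (α b)
    ⟨b, ⟨hab, le_rfl⟩, rfl⟩ d0.le d1
  have h2 := openSet_annV hε hk (hK hwK)
  obtain ⟨e, he, hw⟩ := mem_openSet.1 (hK hwK)
  rw [Finset.mem_inter] at he
  refine ⟨t, lt_of_le_of_ne ht.1 ?_, ht.2, e, he.1, edgesIn_cases he.2, hw⟩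
  rintro rfl
  linarith [h2.1]

end Full
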