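import Pool.Agent.Full.Rough.CrossR
import Pool.Agent.Full.Rough.RingTopo

/-!
# The bad event: the inner rectangle is crossed but the quadrilateral is not
-/

set_option autoImplicit false

open Set Filter Topology Complex H47Perc Relation

namespace Full

/-- lattice point close to `c` -/
noncomputable def rnd (ε : ℝ) (c : ℂ) : ℤ × ℤ := (⌊c.re / ε⌋, ⌊c.im / ε⌋)

lemma rnd_spec {ε : ℝ} (hε : 0 < ε) (c : ℂ) :
    (ε * (rnd ε c).1 ≤ c.re ∧ c.re ≤ ε * (rnd ε c).1 + ε) ∧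
      (ε * (rnd ε c).2 ≤ c.im ∧ c.im ≤ ε * (rnd ε c).2 + ε) := by
  have h1 := Int.floor_le (c.re / ε)
  have h2 := (Int.lt_floor_add_one (c.re / ε)).le
  have h3 := Int.floor_le (c.im / ε)
  have h4 := (Int.lt_floor_add_one (c.im / ε)).le
  rw [le_div_iff₀ hε] at h1 h3
  rw [div_le_iff₀ hε] at h2 h4
  simp only [rnd]
  refine ⟨⟨by linarith, by linarith⟩, by linarith, by linarith⟩

/-- there is no ring around `c` between the radii `r₁` and `r₂` -/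
def NoR (ε : ℝ) (c : ℂ) (r₁ r₂ : ℝ) (ω : Finset (Sym2 (ℤ × ℤ))) : Prop :=
  ∀ k : ℕ, r₁ + ε < ε * k → 3 * ε * k + ε ≤ r₂ / 2 → ¬ Ring (rnd ε c) k ω

/-- a path from `B(c, r₁)` to the complement of `B(c, r₂)` meets every ring in between -/
lemma path_ring {ε : ℝ} (hε : 0 < ε) {c : ℂ} {r₁ r₂ : ℝ} {ω : Finset (Sym2 (ℤ × ℤ))}
    (hr : 0 ≤ r₁) (h : ¬ NoR ε c r₁ r₂ ω) {α : ℝ → ℂ} (hα : Continuous α) {a b : ℝ} (hab : a ≤ b)
    (h0 : ‖α a - c‖ ≤ r₁) (h1 : r₂ ≤ ‖α b - c‖) :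
    ∃ t, a < t ∧ t ≤ b ∧ ∃ e ∈ ω, α t ∈ seg ε e := by
  unfold NoR at h
  push Not at h
  obtain ⟨k, hk1, hk2, hR⟩ := h
  have hk : 1 ≤ k := by
    rcases Nat.eq_zero_or_pos k with rfl | h
    · simp at hk1; linarith
    · exact h
  have hx := rnd_spec hε c
  have g1 := (Complex.abs_re_le_norm (α a - c)).trans h0
  have g2 := (Complex.abs_im_le_norm (α a - c)).trans h0
  rw [sub_re, abs_le] at g1
  rw [sub_im, abs_le] at g2
  have g3 := h1.trans (Complex.norm_le_abs_re_add_abs_im (α b - c))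
  rw [sub_re, sub_im] at g3
  have g4 : r₂ / 2 ≤ |(α b).re - c.re| ∨ r₂ / 2 ≤ |(α b).im - c.im| := by
    by_contra hcon
    push Not at hcon
    linarith [hcon.1, hcon.2]
  obtain ⟨t, ht1, ht2, e, he, -, hte⟩ := ring_cross hε hk hR hα hab
    ⟨by rw [abs_lt]; constructor <;> linarith [hx.1.1, hx.1.2],
      by rw [abs_lt]; constructor <;> linarith [hx.2.1, hx.2.2]⟩
    (by
      rcases g4 with g | g
      · left
        have e1 : (α b).re - c.re = ((α b).re - ε * (rnd ε c).1) - (c.re - ε * (rnd ε c).1) := by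
          ring
        rw [e1] at g
        have e2 := abs_sub ((α b).re - ε * (rnd ε c).1) (c.re - ε * (rnd ε c).1)
        have e3 : |c.re - ε * (rnd ε c).1| ≤ ε := by
          rw [abs_le]; constructor <;> linarith [hx.1.1, hx.1.2]
        linarith
      · right
        have e1 : (α b).im - c.im = ((α b).im - ε * (rnd ε c).2) - (c.im - ε * (rnd ε c).2) := by
          ring
        rw [e1] at g
        have e2 := abs_sub ((α b).im - ε * (rnd ε c).2) (c.im - ε * (rnd ε c).2)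
        have e3 : |c.im - ε * (rnd ε c).2| ≤ ε := by
          rw [abs_le]; constructor <;> linarith [hx.2.1, hx.2.2]
        linarith)
  exact ⟨t, ht1, ht2, e, he, hte⟩

section
variable {q : ℂ → ℂ} {ε s t κ : ℝ} {ω ω' : Finset (Sym2 (ℤ × ℤ))}

/-- the explored region reaches the neighbourhood of the upper left corner: no ring around it -/
lemma top_corner (hq : IsQuad q) (hG : Geo q ε s t κ) (hω : ∀ e ∈ ω, IsEdge e) {ρ r₃ r₄ : ℝ}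
    (hr4 : 0 ≤ r₄)
    (h4 : ∀ w ∈ sq, ‖w - ⟨0, 1⟩‖ ≤ ρ + s + 3 * κ → ‖q w - q ⟨0, 1⟩‖ ≤ r₄)
    (h3 : ∀ w ∈ sq, w.im ≤ 1/4 → r₃ ≤ ‖q w - q ⟨0, 1⟩‖) {c : ℂ}
    (hc : c ∈ Cs q ε (Rch q ε s t ω)) (hcre : c.re ≤ s + κ) (hcim : 1 - ρ ≤ c.im) :
    NoR ε (q ⟨0, 1⟩) r₄ r₃ ω := by
  by_contra hcon
  have hε := hG.ε_pos
  obtain ⟨hcs, z, hz, hcz⟩ := hc
  have hzs : face ε z ⊆ q '' sqo := hG.face_sub (Reach.sub hz)
  obtain ⟨m, hm, hmc⟩ := hzs (faceo_subset_face (fctr_mem hε z))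
  obtain ⟨p, hp, hpt, γ, hγ⟩ := path_from_floor hq hG hω hz hm (by rw [hmc]; exact fctr_mem hε z)
  have hmz : q m ∈ face ε z := by rw [hmc]; exact faceo_subset_face (fctr_mem hε z)
  have hmd := hG.K1 z _ (sqo_subset_sq hm) _ hcs hmz hcz
  have d1 := abs_re_le hmd
  have d2 := abs_im_le hmd
  have hα : Continuous fun x => q (γ.symm.extend x) :=
    hq.cont.comp_continuous γ.symm.continuous_extend fun x => (hγ _).1
  obtain ⟨x, hx1, hx2, e, he, hxe⟩ := path_ring hε hr4 hcon hα zero_le_one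
    (by
      simp only [Path.extend_zero]
      apply h4 m (sqo_subset_sq hm)
      refine (norm_le_add (a := s + 2 * κ) (b := ρ + κ) ?_ ?_).trans (by linarith)
      · rw [abs_le]; constructor <;> linarith [hm.1, hG.s_pos, hG.κ_pos]
      · rw [abs_le]; constructor <;> linarith [hm.2.2.2, hG.κ_pos])
    (by
      simp only [Path.extend_one]
      exact h3 p (sqo_subset_sq hp) (by linarith [hG.t_lt]))
  exact (hγ _).2.1 (mem_openSet.2 ⟨e, he, hxe⟩)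

/-- the metric data of the quadrilateral used in the estimate -/
structure Metr (q : ℂ → ℂ) (s κ ρ r₁ r₂ r₃ r₄ : ℝ) : Prop where
  r1 : 0 ≤ r₁
  r4 : 0 ≤ r₄
  ρ0 : ρ ≤ 3/4
  M1 : ∀ w ∈ sq, ∀ w' ∈ sq, ‖w - w'‖ ≤ s + 4 * κ → ‖q w - q w'‖ ≤ r₁
  M2 : ∀ y : ℝ, 0 ≤ y → y ≤ 1 - ρ → ∀ w ∈ sq, w.im = 1 →
    r₂ ≤ ‖q w - q ⟨0, y⟩‖ ∧ r₂ ≤ ‖q w - q ⟨1, y⟩‖
  M3 : ∀ w ∈ sq, w.im ≤ 1/4 → r₃ ≤ ‖q w - q ⟨0, 1⟩‖ ∧ r₃ ≤ ‖q w - q ⟨1, 1⟩‖
  M4 : ∀ w ∈ sq, (‖w - ⟨0, 1⟩‖ ≤ ρ + s + 3 * κ → ‖q w - q ⟨0, 1⟩‖ ≤ r₄) ∧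
    (‖w - ⟨1, 1⟩‖ ≤ ρ + s + 3 * κ → ‖q w - q ⟨1, 1⟩‖ ≤ r₄)

/-- **The bad event implies that a ring is missing.** `ω` is the configuration, `ω'` the resampled
configuration, which agrees with `ω` off the explored edges. -/
theorem bad_imp (hq : IsQuad q) (hG : Geo q ε s t κ) {ρ r₁ r₂ r₃ r₄ : ℝ}
    (hM : Metr q s κ ρ r₁ r₂ r₃ r₄) (hω : ∀ e ∈ ω, IsEdge e)
    (hmix : ∀ e ∈ ω', e ∉ Xpl ω (Lf q ε s t) (Bf q ε t) → e ∈ ω)
    (hA : CrossR q ε ω s (1 - s) t (1 - t)) (hB : ¬ CrossR q ε ω 0 1 0 1) :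
    (NoR ε (q ⟨0, t⟩) r₁ r₂ ω ∨ NoR ε (q ⟨1, t⟩) r₁ r₂ ω) ∨
    (NoR ε (q ⟨0, 1⟩) r₄ r₃ ω ∨ NoR ε (q ⟨1, 1⟩) r₄ r₃ ω) ∨
    (NoR ε (q ⟨0, tipL q ε s κ (Rch q ε s t ω)⟩) r₁ r₂ ω' ∨
      NoR ε (q ⟨1, tipR q ε s κ (Rch q ε s t ω)⟩) r₁ r₂ ω') := by
  have hε := hG.ε_pos
  have hκ := hG.κ_pos
  have hs := hG.s_pos
  have ht := hG.t_pos
  have ht4 := hG.t_lt
  obtain ⟨δ, hδ, hδs, hδ0, hδ1, hδO⟩ := dual_path hq hε hω hB
  obtain ⟨u, v, hu, hv, hj⟩ := hA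
  obtain ⟨τ, hτ, hC, hcase⟩ := exit_all hq hG hω hu hv hj hδ hδs hδ0 hδ1 fun x _ => hδO x
  have hα : Continuous fun x => q (δ x) := hq.cont.comp_continuous hδ hδs
  -- a path which starts close to `P` must avoid the rings of `ω`
  have fixed : ∀ P ∈ sq, ‖δ τ - P‖ ≤ s + 4 * κ → r₂ ≤ ‖q (δ 1) - q P‖ → NoR ε (q P) r₁ r₂ ω := by
    intro P hP h1 h2
    by_contra hcon
    obtain ⟨x, hx1, hx2, e, he, hxe⟩ := path_ring hε hM.r1 hcon hα hτ.2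
      (hM.M1 _ (hδs τ) _ hP h1) h2
    exact hδO x (mem_openSet.2 ⟨e, he, hxe⟩)
  have fresh : ∀ P ∈ sq, ‖δ τ - P‖ ≤ s + 4 * κ → r₂ ≤ ‖q (δ 1) - q P‖ → NoR ε (q P) r₁ r₂ ω' := by
    intro P hP h1 h2
    by_contra hcon
    obtain ⟨x, hx1, hx2, e, he, hxe⟩ := path_ring hε hM.r1 hcon hα hτ.2
      (hM.M1 _ (hδs τ) _ hP h1) h2
    by_cases hX : e ∈ Xpl ω (Lf q ε s t) (Bf q ε t)
    · obtain ⟨z, hz, hez⟩ := hX
      exact hC x hx1 hx2 ⟨hδs x, z, hz, seg_bd_subset hε hez hxe⟩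
    · exact hδO x (mem_openSet.2 ⟨e, hmix e he hX, hxe⟩)
  rcases hcase with h | h | ⟨⟨c0, hc0, hc0'⟩, h⟩ | ⟨⟨c0, hc0, hc0'⟩, h⟩
  · left; left
    exact fixed ⟨0, t⟩ ⟨le_rfl, zero_le_one, ht.le, by simp only; linarith⟩ h
      (hM.M2 t ht.le (by linarith [hM.ρ0]) _ (hδs 1) hδ1).1
  · left; right
    exact fixed ⟨1, t⟩ ⟨zero_le_one, le_rfl, ht.le, by simp only; linarith⟩ h
      (hM.M2 t ht.le (by linarith [hM.ρ0]) _ (hδs 1) hδ1).2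
  · obtain ⟨c, hc, hcre, hcim, -⟩ := tipL_spec (s := s) (κ := κ) hq hε ⟨c0, hc0, hc0'⟩
    by_cases hρ : c.im ≤ 1 - ρ
    · right; right; left
      rw [← hcim] at h ⊢
      exact fresh ⟨0, c.im⟩ ⟨le_rfl, zero_le_one, hc.1.2.2.1, hc.1.2.2.2⟩ h
        (hM.M2 _ hc.1.2.2.1 hρ _ (hδs 1) hδ1).1
    · right; left; left
      exact top_corner hq hG hω hM.r4 (fun w hw => (hM.M4 w hw).1) (fun w hw h => (hM.M3 w hw h).1)
        hc hcre (not_le.1 hρ).le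
  · obtain ⟨c, hc, hcre, hcim, -⟩ := tipL_spec (q := q ∘ rhoR) (s := s) (κ := κ)
      (Z := Rch q ε s t ω) hq.rhoR hε ⟨rhoR c0, Cs_rho.2 hc0, by
        show (rhoR c0).re ≤ s + κ
        rw [rho_re]; linarith⟩
    by_cases hρ : c.im ≤ 1 - ρ
    · right; right; right
      unfold tipR at h ⊢
      rw [← hcim] at h ⊢
      exact fresh ⟨1, c.im⟩ ⟨zero_le_one, le_rfl, hc.1.2.2.1, hc.1.2.2.2⟩ h
        (hM.M2 _ hc.1.2.2.1 hρ _ (hδs 1) hδ1).2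
    · right; left; right
      have e1 : (q ∘ rhoR) ⟨0, 1⟩ = q ⟨1, 1⟩ := by
        show q (rhoR ⟨0, 1⟩) = q ⟨1, 1⟩
        congr 1
        exact Complex.ext (by simp) (by simp)
      rw [← e1]
      refine top_corner hq.rhoR hG.rhoR hω hM.r4 ?_ ?_ (c := c) ?_ hcre (not_le.1 hρ).le
      · intro w hw hwd
        rw [e1]
        have e2 : (⟨1, 1⟩ : ℂ) = rhoR ⟨0, 1⟩ := Complex.ext (by simp) (by simp)
        exact (hM.M4 (rhoR w) (rho_sq.2 hw)).2 (by rw [e2, norm_rhoR]; exact hwd)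
      · intro w hw hwi
        rw [e1]
        exact (hM.M3 (rhoR w) (rho_sq.2 hw) hwi).2
      · rw [Rch_rho]
        exact hc

end

end Full
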