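import Pool.Agent.Full.Rough.Small
import Pool.Agent.Full.Topo.Dual

/-!
# Crossings in the parameter square; duality
-/

set_option autoImplicit false

open Set Filter Topology Complex H47Perc Relation

namespace Full

/-- horizontal crossing of the image of the rectangle `rc a b c d` of the parameter square -/
def CrossR (q : ℂ → ℂ) (ε : ℝ) (ω : Finset (Sym2 (ℤ × ℤ))) (a b c d : ℝ) : Prop :=
  ∃ u v : ℂ, u.re = a ∧ v.re = b ∧ JoinedIn {w | w ∈ rc a b c d ∧ q w ∈ openSet ε ω} u v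

/-- images of joined points under a map continuous on the set -/
lemma joinedIn_image {f : ℂ → ℂ} {F : Set ℂ} {u v : ℂ} (hf : ContinuousOn f F)
    (h : JoinedIn F u v) : JoinedIn (f '' F) (f u) (f v) := by
  obtain ⟨γ, hγ⟩ := h
  refine ⟨⟨⟨fun t => f (γ t), hf.comp_continuous γ.continuous hγ⟩, by simp, by simp⟩, fun t => ?_⟩
  exact ⟨γ t, hγ t, rfl⟩

theorem crossed_iff {q : ℂ → ℂ} (hq : IsQuad q) {ε : ℝ} {ω : Finset (Sym2 (ℤ × ℤ))} :
    Crossed ε q ω ↔ CrossR q ε ω 0 1 0 1 := by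
  constructor
  · rintro ⟨a, ⟨u, hu, rfl⟩, b, ⟨v, hv, rfl⟩, h⟩
    exact ⟨u, v, hu.2, hv.2, hq.pull hu.1 hv.1 h⟩
  · rintro ⟨u, v, hu, hv, h⟩
    refine ⟨q u, ⟨u, ⟨h.source_mem.1, hu⟩, rfl⟩, q v, ⟨v, ⟨h.target_mem.1, hv⟩, rfl⟩, ?_⟩
    have h2 := joinedIn_image (f := q) (hq.cont.mono fun w hw => hw.1) h
    refine h2.mono ?_
    rintro _ ⟨w, hw, rfl⟩
    exact ⟨hw.2, w, hw.1, rfl⟩

/-- **Duality**: if the quadrilateral is not crossed then there is a path from the lower to the upper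
side which avoids the open edges. -/
theorem dual_path {q : ℂ → ℂ} (hq : IsQuad q) {ε : ℝ} (hε : 0 < ε) {ω : Finset (Sym2 (ℤ × ℤ))}
    (hω : ∀ e ∈ ω, IsEdge e) (h : ¬ CrossR q ε ω 0 1 0 1) :
    ∃ δ : ℝ → ℂ, Continuous δ ∧ (∀ x, δ x ∈ sq) ∧ (δ 0).im = 0 ∧ (δ 1).im = 1 ∧
      ∀ x, q (δ x) ∉ openSet ε ω := by
  have hO : IsClosed {w | w ∈ sq ∧ q w ∈ openSet ε ω} :=
    hq.cont.preimage_isClosed_of_isClosed isCompact_sq.isClosed (isClosed_openSet ε ω)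
  rcases dual_exists hO with ⟨K, hK, hKc, ⟨a, haK, haL⟩, ⟨b, hbK, hbR⟩⟩ | ⟨b, hb, t, ht, hj⟩
  · exfalso
    apply h
    rw [← crossed_iff hq]
    have hK' : K ⊆ sq := fun w hw => (hK hw).2
    refine ⟨q a, ⟨a, haL, rfl⟩, q b, ⟨b, hbR, rfl⟩, ?_⟩
    refine graph_path hε hω (isCompact_sq.image_of_continuousOn hq.cont).isClosed
      (hKc.image q (hq.cont.mono hK')) ?_ ⟨a, haK, rfl⟩ ⟨b, hbK, rfl⟩
    rintro _ ⟨w, hw, rfl⟩
    exact ⟨(hK hw).1.2, w, hK' hw, rfl⟩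
  · obtain ⟨γ, hγ⟩ := hj
    refine ⟨γ.extend, γ.continuous_extend, fun x => (hγ _).1, by simpa using hb.2,
      by simpa using ht.2, fun x hx => ?_⟩
    exact (hγ _).2 ⟨(hγ _).1, hx⟩

/-- monotonicity: a crossing of a longer and thinner rectangle contains a crossing of a shorter and
wider one -/
theorem CrossR.mono {q : ℂ → ℂ} {ε : ℝ} {ω : Finset (Sym2 (ℤ × ℤ))} {a b c d a' b' c' d' : ℝ}
    (h : CrossR q ε ω a b c d) (h1 : a ≤ a') (h2 : a' ≤ b') (h3 : b' ≤ b) (h4 : c' ≤ c)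
    (h5 : d ≤ d') : CrossR q ε ω a' b' c' d' := by
  obtain ⟨u, v, hu, hv, γ, hγ⟩ := h
  obtain ⟨t₁, t₂, -, h12, -, e1, e2, hm⟩ := passage (h := fun t => (γ.extend t).re)
    (Complex.continuous_re.comp γ.continuous_extend) zero_le_one h2 (by simpa [hu] using h1)
    (by simpa [hv] using h3)
  refine ⟨γ.extend t₁, γ.extend t₂, e1, e2, ?_⟩
  refine joinedIn_curve γ.continuous_extend h12 fun x hx => ?_
  have h6 := hγ (projIcc 0 1 zero_le_one x)
  exact ⟨⟨(hm x hx).1, (hm x hx).2, h4.trans h6.1.2.2.1, h6.1.2.2.2.trans h5⟩, h6.2⟩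

/-- the crossing event does not depend on the edges which do not meet the domain -/
theorem CrossR.inter {q : ℂ → ℂ} {ε : ℝ} (hε : 0 < ε) {ω : Finset (Sym2 (ℤ × ℤ))}
    (hω : ∀ e ∈ ω, IsEdge e) {S : Finset (ℤ × ℤ)}
    (hS : ∀ z : ℤ × ℤ, Metric.infDist (pos ε z) (q '' sq) ≤ ε → z ∈ S) {a b c d : ℝ}
    (ha : 0 ≤ a) (hb : b ≤ 1) (hc : 0 ≤ c) (hd : d ≤ 1) :
    CrossR q ε ω a b c d ↔ CrossR q ε (ω ∩ edgesIn S) a b c d := by
  have hsub : rc a b c d ⊆ sq := fun w hw =>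
    ⟨ha.trans hw.1, hw.2.1.trans hb, hc.trans hw.2.2.1, hw.2.2.2.trans hd⟩
  have key : ∀ w ∈ rc a b c d, (q w ∈ openSet ε ω ↔ q w ∈ openSet ε (ω ∩ edgesIn S)) := by
    intro w hw
    refine ⟨fun h => ?_, fun h => openSet_mono Finset.inter_subset_left h⟩
    rw [mem_openSet] at h ⊢
    obtain ⟨e, he, hwe⟩ := h
    refine ⟨e, Finset.mem_inter.2 ⟨he, ?_⟩, hwe⟩
    -- both ends are close to the domain
    have hwq : q w ∈ q '' sq := ⟨w, hsub hw, rfl⟩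
    have near : ∀ z : ℤ × ℤ, ‖pos ε z - q w‖ ≤ ε → z ∈ S := by
      intro z hz
      apply hS
      refine (Metric.infDist_le_dist_of_mem hwq).trans ?_
      rwa [Complex.dist_eq]
    have n1 : ∀ x y : ℝ, (x = 0 ∧ |y| ≤ ε) ∨ (y = 0 ∧ |x| ≤ ε) → ∀ z : ℂ, z.re = x → z.im = y →
        ‖z‖ ≤ ε := by
      intro x y h z h1 h2
      have h3 := Complex.norm_le_abs_re_add_abs_im z
      rw [h1, h2] at h3
      rcases h with ⟨rfl, h⟩ | ⟨rfl, h⟩
      · rw [abs_zero] at h3; linarith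
      · rw [abs_zero] at h3; linarith
    rcases hω e he with ⟨i, j, rfl⟩ | ⟨i, j, rfl⟩
    · rw [mem_seg_hE hε] at hwe
      rw [hE_mem]
      constructor
      · apply near
        refine n1 (ε * i - (q w).re) 0 (Or.inr ⟨rfl, ?_⟩) _ (by simp) (by simp [hwe.1])
        rw [abs_le]; constructor <;> linarith [hwe.2.1, hwe.2.2]
      · apply near
        refine n1 (ε * (i + 1) - (q w).re) 0 (Or.inr ⟨rfl, ?_⟩) _ (by simp) (by simp [hwe.1])
        rw [abs_le]; constructor <;> linarith [hwe.2.1, hwe.2.2]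
    · rw [mem_seg_vE hε] at hwe
      rw [vE_mem]
      constructor
      · apply near
        refine n1 0 (ε * j - (q w).im) (Or.inl ⟨rfl, ?_⟩) _ (by simp [hwe.1]) (by simp)
        rw [abs_le]; constructor <;> linarith [hwe.2.1, hwe.2.2]
      · apply near
        refine n1 0 (ε * (j + 1) - (q w).im) (Or.inl ⟨rfl, ?_⟩) _ (by simp [hwe.1]) (by simp)
        rw [abs_le]; constructor <;> linarith [hwe.2.1, hwe.2.2]
  have hset : {w | w ∈ rc a b c d ∧ q w ∈ openSet ε ω} =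
      {w | w ∈ rc a b c d ∧ q w ∈ openSet ε (ω ∩ edgesIn S)} := by
    ext w
    constructor
    · rintro ⟨h1, h2⟩; exact ⟨h1, (key w h1).1 h2⟩
    · rintro ⟨h1, h2⟩; exact ⟨h1, (key w h1).2 h2⟩
  unfold CrossR
  rw [hset]

end Full
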