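import Pool.Agent.Full.Rough.DualLat

/-!
# Dual crossings
-/

set_option autoImplicit false

open Set Filter Topology Complex H47Perc Relation

namespace Full

/-- the faces met by a curve off the open set are adjacent across closed edges -/
theorem face_path {ε : ℝ} (hε : 0 < ε) {ω : Finset (Sym2 (ℤ × ℤ))} {β : ℝ → ℂ} (hβ : Continuous β)
    (hω : ∀ x, β x ∉ openSet ε ω) {x y : ℝ} {z z' : ℤ × ℤ} (hz : β x ∈ face ε z)
    (hz' : β y ∈ face ε z') :
    ReflTransGen (fun a c => Fadj ω a c ∧ (∃ x, β x ∈ face ε a) ∧ ∃ x, β x ∈ face ε c) z z' := by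
  have key : ∀ x, ∀ a c, β x ∈ face ε a → β x ∈ face ε c →
      ReflTransGen (fun a c => Fadj ω a c ∧ (∃ x, β x ∈ face ε a) ∧ ∃ x, β x ∈ face ε c) a c := by
    intro x a c ha hc
    have h := face_chain hε (hω x) ha hc
    induction h with
    | refl => exact ReflTransGen.refl
    | tail _ h ih => exact (ih h.2.1).tail ⟨h.1, ⟨x, h.2.1⟩, ⟨x, h.2.2⟩⟩
  have := PreconnectedSpace.induction₂' (α := ℝ)
    (fun x y => ∀ z z', β x ∈ face ε z → β y ∈ face ε z' →
      ReflTransGen (fun a c => Fadj ω a c ∧ (∃ x, β x ∈ face ε a) ∧ ∃ x, β x ∈ face ε c) z z')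
    (fun x => by
      filter_upwards [(hβ.tendsto x).eventually (near_face hε (β x))] with y hy
      exact ⟨fun z z' h h' => key x z z' h (hy z' h'), fun z z' h h' => key x z z' (hy z h) h'⟩)
    ⟨fun a b c h1 h2 z z' h h' => by
      obtain ⟨z₂, hz₂⟩ := exists_face hε (β b)
      exact (h1 z z₂ h hz₂).trans (h2 z₂ z' hz₂ h')⟩ x y
  exact this z z' hz hz'

lemma seg_faces {ε : ℝ} (hε : 0 < ε) {ω : Finset (Sym2 (ℤ × ℤ))} {a c : ℤ × ℤ}
    (h : Fadj ω a c) {y : ℂ} (hy : y ∈ segment ℝ (fctr ε a) (fctr ε c)) :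
    y ∈ face ε a ∨ y ∈ face ε c := by
  have key : ∀ a c : ℤ × ℤ, (c = (a.1 + 1, a.2) ∨ c = (a.1, a.2 + 1)) →
      y ∈ segment ℝ (fctr ε a) (fctr ε c) → y ∈ face ε a ∨ y ∈ face ε c := by
    intro a c hac hy
    have ha := fctr_mem hε a
    have hc := fctr_mem hε c
    rcases hac with rfl | rfl
    · have h1 := segment_horiz (u := fctr ε a) (v := fctr ε (a.1 + 1, a.2)) rfl hy
      have e1 : (fctr ε a).re = ε * (a.1 + 1/2) := rfl
      have e2 : (fctr ε (a.1 + 1, a.2)).re = ε * (((a.1 + 1 : ℤ) : ℝ) + 1/2) := rfl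
      have e3 : (fctr ε a).im = ε * (a.2 + 1/2) := rfl
      rw [e1, e2, e3] at h1
      push_cast at h1
      rw [min_eq_left (by nlinarith), max_eq_right (by nlinarith)] at h1
      rcases le_total y.re (ε * (a.1 + 1)) with h2 | h2
      · left
        rw [mem_face]
        refine ⟨by nlinarith [h1.2.1], h2, ?_, ?_⟩ <;> rw [h1.1] <;> nlinarith
      · right
        rw [mem_face]
        push_cast
        refine ⟨h2, by nlinarith [h1.2.2], ?_, ?_⟩ <;> rw [h1.1] <;> nlinarith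
    · have h1 := segment_vert (u := fctr ε a) (v := fctr ε (a.1, a.2 + 1)) rfl hy
      have e1 : (fctr ε a).im = ε * (a.2 + 1/2) := rfl
      have e2 : (fctr ε (a.1, a.2 + 1)).im = ε * (((a.2 + 1 : ℤ) : ℝ) + 1/2) := rfl
      have e3 : (fctr ε a).re = ε * (a.1 + 1/2) := rfl
      rw [e1, e2, e3] at h1
      push_cast at h1
      rw [min_eq_left (by nlinarith), max_eq_right (by nlinarith)] at h1
      rcases le_total y.im (ε * (a.2 + 1)) with h2 | h2
      · left
        rw [mem_face]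
        refine ⟨?_, ?_, by nlinarith [h1.2.1], h2⟩ <;> rw [h1.1] <;> nlinarith
      · right
        rw [mem_face]
        push_cast
        refine ⟨?_, ?_, h2, by nlinarith [h1.2.2]⟩ <;> rw [h1.1] <;> nlinarith
  rcases h with h | h | h | h
  · exact key a c (Or.inl h.1) hy
  · rw [segment_symm] at hy; exact (key c a (Or.inl h.1) hy).symm
  · exact key a c (Or.inr h.1) hy
  · rw [segment_symm] at hy; exact (key c a (Or.inr h.1) hy).symm

lemma seg_shift {ε : ℝ} {a c : ℤ × ℤ} {y : ℂ} (hy : y ∈ segment ℝ (fctr ε a) (fctr ε c)) :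
    y + sh ε ∈ segment ℝ (pos ε a) (pos ε c) := by
  obtain ⟨u, v, hu, hv, huv, rfl⟩ := hy
  refine ⟨u, v, hu, hv, huv, ?_⟩
  rw [← fctr_sh, ← fctr_sh, smul_add, smul_add]
  have : sh ε = u • sh ε + v • sh ε := by rw [← add_smul, huv, one_smul]
  nth_rewrite 3 [this]
  abel

/-- **The dual crossing.**  If the rectangle `s, t` is not crossed, then the dual configuration
crosses a slightly longer and thinner rectangle in the other direction. -/
theorem dual_cross {q : ℂ → ℂ} (hq : IsQuad q) {ε s t κ : ℝ} (hG : Geo q ε s t κ)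
    {ω : Finset (Sym2 (ℤ × ℤ))} (hω : ∀ e ∈ ω, IsEdge e) {S : Finset (ℤ × ℤ)}
    (hS : ∀ z : ℤ × ℤ, Metric.infDist (pos ε z) ((fun w => q (trn w) + sh ε) '' sq) ≤ ε → z ∈ S)
    (hn : ¬ CrossR q ε ω s (1 - s) t (1 - t)) :
    CrossR (fun w => q (trn w) + sh ε) ε (dcfg (edgesIn S) ω) (t + κ) (1 - (t + κ)) (s - κ)
      (1 - (s - κ)) := by
  have hε := hG.ε_pos
  have s1 := hG.s_pos
  have s2 := hG.s_lt
  have t1 := hG.t_pos
  have t2 := hG.t_lt
  have κ1 := hG.κ_s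
  have κ2 := hG.κ_t
  rw [← crossR_aff (by linarith) (by linarith)] at hn
  have hqa := hq.aff (a := s) (b := 1 - s) (c := t) (d := 1 - t) s1.le (by linarith) (by linarith)
    t1.le (by linarith) (by linarith)
  obtain ⟨δ, hδ, hδs, hδ0, hδ1, hδo⟩ := dual_path hqa hε hω hn
  set α : ℝ → ℂ := fun x => aff s (1 - s) t (1 - t) (δ x) with hα
  have hαm : ∀ x, α x ∈ rc s (1 - s) t (1 - t) := fun x =>
    aff_mem (by linarith) (by linarith) (hδs x)
  have hαs : ∀ x, α x ∈ sq := fun x =>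
    rc_subset_sq s1.le (by linarith) t1.le (by linarith) (hαm x)
  have hβ : Continuous fun x => q (α x) := hqa.cont.comp_continuous hδ hδs
  obtain ⟨z₀, hz₀⟩ := exists_face hε (q (α 0))
  obtain ⟨z₁, hz₁⟩ := exists_face hε (q (α 1))
  have hch := face_path hε hβ hδo hz₀ hz₁
  have hα0 : (α 0).im = t := by rw [hα]; simp only [aff_im, hδ0]; ring
  have hα1 : (α 1).im = 1 - t := by rw [hα]; simp only [aff_im, hδ1]; ring
  -- the faces of the chain
  have hZ : ∀ z, (∃ x, q (α x) ∈ face ε z) → face ε z ⊆ q '' sqo := by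
    rintro z ⟨x, hx⟩
    exact hG.K2 z _ (hαm x) hx
  have hZS : ∀ z, (∃ x, q (α x) ∈ face ε z) → z ∈ S := by
    intro z hz
    apply hS
    obtain ⟨w, hw, hwz⟩ := hZ z hz (faceo_subset_face (fctr_mem hε z))
    have : pos ε z ∈ (fun w => q (trn w) + sh ε) '' sq := by
      refine ⟨trn w, trn_mem_sq (sqo_subset_sq hw), ?_⟩
      show q (trn (trn w)) + sh ε = _
      rw [trn_trn, hwz, fctr_sh]
    rw [Metric.infDist_zero_of_mem this]
    exact hε.le
  set G : Set ℂ := {y | y + sh ε ∈ openSet ε (dcfg (edgesIn S) ω) ∧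
    ∃ z, (∃ x, q (α x) ∈ face ε z) ∧ y ∈ face ε z} with hGdef
  have hstep : ∀ a c, (Fadj ω a c ∧ (∃ x, q (α x) ∈ face ε a) ∧ ∃ x, q (α x) ∈ face ε c) →
      JoinedIn (G ∩ q '' sq) (fctr ε a) (fctr ε c) := by
    rintro a c ⟨h1, h2, h3⟩
    apply joinedIn_segment
    intro y hy
    have h4 := seg_faces hε h1 hy
    refine ⟨⟨seg_dcfg (hZS a h2) (hZS c h3) h1 (seg_shift hy), ?_⟩, ?_⟩
    · rcases h4 with h4 | h4
      · exact ⟨a, h2, h4⟩
      · exact ⟨c, h3, h4⟩
    · rcases h4 with h4 | h4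
      · exact image_mono sqo_subset_sq (hZ a h2 h4)
      · exact image_mono sqo_subset_sq (hZ c h3 h4)
  have hne : z₀ ≠ z₁ := by
    rintro rfl
    have := abs_im_le (hG.K1 z₀ _ (hαs 0) _ (hαs 1) hz₀ hz₁)
    rw [hα0, hα1] at this
    linarith [this.2]
  have hjoin : JoinedIn (G ∩ q '' sq) (fctr ε z₀) (fctr ε z₁) := by
    rcases reflTransGen_iff_eq_or_transGen.1 hch with h | h
    · exact absurd h.symm hne
    · clear hne hα1 hz₁ hch
      induction h with
      | single h => exact hstep _ _ h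
      | tail _ h ih => exact ih.trans (hstep _ _ h)
  obtain ⟨u, hu, hue⟩ := hZ z₀ ⟨0, hz₀⟩ (faceo_subset_face (fctr_mem hε z₀))
  obtain ⟨v, hv, hve⟩ := hZ z₁ ⟨1, hz₁⟩ (faceo_subset_face (fctr_mem hε z₁))
  have hu' := sqo_subset_sq hu
  have hv' := sqo_subset_sq hv
  rw [← hue, ← hve] at hjoin
  obtain ⟨γ, hγ⟩ := hq.pull hu' hv' hjoin
  have hfu : u.im ≤ t + κ := by
    have := abs_im_le (hG.K1 z₀ _ hu' _ (hαs 0)
      (by rw [hue]; exact faceo_subset_face (fctr_mem hε z₀)) hz₀)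
    rw [hα0] at this
    exact this.1
  have hfv : 1 - (t + κ) ≤ v.im := by
    have := abs_im_le (hG.K1 z₁ _ hv' _ (hαs 1)
      (by rw [hve]; exact faceo_subset_face (fctr_mem hε z₁)) hz₁)
    rw [hα1] at this
    linarith [this.2]
  obtain ⟨x₁, x₂, -, h12, -, e1, e2, hm⟩ := passage (h := fun x => (γ.extend x).im)
    (Complex.continuous_im.comp γ.continuous_extend) (c := t + κ) (d := 1 - (t + κ)) zero_le_one
    (by linarith) (by simpa using hfu) (by simpa using hfv)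
  refine ⟨trn (γ.extend x₁), trn (γ.extend x₂), e1, e2, ?_⟩
  refine joinedIn_curve (δ := fun x => trn (γ.extend x)) (continuous_trn.comp γ.continuous_extend) h12
    fun x hx => ?_
  obtain ⟨g1, g2, z, ⟨y, hy⟩, g3⟩ := hγ (projIcc 0 1 zero_le_one x)
  have g4 := abs_re_le (hG.K1 z _ g1 _ (hαs y) g3 hy)
  have g5 := hαm y
  refine ⟨⟨(hm x hx).1, (hm x hx).2, ?_, ?_⟩, g2⟩
  · show s - κ ≤ (γ (projIcc 0 1 zero_le_one x)).re
    linarith [g4.2, g5.1]
  · show (γ (projIcc 0 1 zero_le_one x)).re ≤ 1 - (s - κ)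
    linarith [g4.1, g5.2.1]

/-- primal crossings exclude dual crossings -/
theorem dual_excl {q : ℂ → ℂ} {ε : ℝ} (hε : 0 < ε) {ω G : Finset (Sym2 (ℤ × ℤ))}
    (hω : ∀ e ∈ ω, IsEdge e) (hG : ∀ e ∈ G, IsEdge e) (h : CrossR q ε ω 0 1 0 1)
    (h' : CrossR (fun w => q (trn w) + sh ε) ε (dcfg G ω) 0 1 0 1) : False := by
  obtain ⟨u, v, hu, hv, h1⟩ := h
  obtain ⟨x, y, hx, hy, h2⟩ := h'
  have h3 := joinedIn_image continuous_trn.continuousOn h2
  obtain ⟨w, hw, w', hw', hww⟩ := cross_joined zero_lt_one zero_lt_one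
    (fun w hw => hw.1) (F := {w | w ∈ rc 0 1 0 1 ∧ q w ∈ openSet ε ω})
    (G := trn '' {w | w ∈ rc 0 1 0 1 ∧ q (trn w) + sh ε ∈ openSet ε (dcfg G ω)}) (by
      rintro _ ⟨w, hw, rfl⟩
      exact trn_mem_sq hw.1) hu hv (x := trn x) (y := trn y) hx hy h1 h3
  subst hww
  exact not_both hε hω hG hw.2 hw'.2

end Full
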