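import Pool.Agent.Full.Rough.Aff

/-!
# The dual lattice
-/

set_option autoImplicit false

open Set Filter Topology Complex H47Perc Relation
open Pool.Agent.Helper69.RSW (P P_restrict P_congr P_map P_flip P_mono P_nonneg P_or_le Dep)

namespace Full

/-- relabelling by a map which is injective on the set of edges -/
lemma P_image {E E' : Type*} [DecidableEq E] [DecidableEq E'] {G : Finset E} {f : E → E'}
    (hf : InjOn f G) (A : Finset E' → Prop) : P (G.image f) A = P G (fun S => A (S.image f)) := by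
  classical
  set φ : {x // x ∈ G} ↪ E := Function.Embedding.subtype _ with hφ
  set ψ : {x // x ∈ G} ↪ E' := ⟨fun x => f x, fun x y h => Subtype.ext (hf x.2 y.2 h)⟩ with hψ
  have h1 : G.attach.map φ = G := Finset.attach_map_val
  have h2 : G.attach.map ψ = G.image f := by
    ext y
    simp only [Finset.mem_map, Finset.mem_attach, true_and, Subtype.exists, Finset.mem_image]
    constructor
    · rintro ⟨x, hx, rfl⟩; exact ⟨x, hx, rfl⟩
    · rintro ⟨x, hx, rfl⟩; exact ⟨x, hx, rfl⟩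
  have h3 := P_map G.attach ψ A
  have h4 := P_map G.attach φ (fun S => A (S.image f))
  rw [h2] at h3
  rw [h1] at h4
  rw [h3, h4]
  apply P_congr
  intro S _
  have : (S.map φ).image f = S.map ψ := by
    ext y
    simp only [Finset.mem_map, Finset.mem_image]
    constructor
    · rintro ⟨x, ⟨x', hx', rfl⟩, rfl⟩; exact ⟨x', hx', rfl⟩
    · rintro ⟨x', hx', rfl⟩; exact ⟨_, ⟨x', hx', rfl⟩, rfl⟩
  rw [this]

/-- the complement of the preimage of the configuration has the same law -/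
theorem P_dual {E E' : Type*} [DecidableEq E] [DecidableEq E'] {G : Finset E} {F : Finset E'}
    {f : E → E'} (hf : InjOn f G) (hF : ∀ e ∈ G, f e ∈ F) (B : Finset E → Prop) :
    P F (fun ω => B (G.filter (fun e => f e ∉ ω))) = P G B := by
  classical
  have hsub : G.image f ⊆ F := by
    intro y hy
    obtain ⟨e, he, rfl⟩ := Finset.mem_image.1 hy
    exact hF e he
  have hdep : Dep (G.image f) (fun ω => B (G.filter (fun e => f e ∉ ω))) := by
    intro ω
    have : G.filter (fun e => f e ∉ ω) = G.filter (fun e => f e ∉ ω ∩ G.image f) := by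
      apply Finset.filter_congr
      intro e he
      rw [Finset.mem_inter, not_and]
      constructor
      · intro h h'; exact absurd h' h
      · intro h h'; exact h h' (Finset.mem_image_of_mem f he)
    show B _ ↔ B _
    rw [this]
  rw [P_restrict hsub hdep, P_image hf, P_flip G B]
  apply P_congr
  intro S hS
  have : G.filter (fun e => f e ∉ S.image f) = G \ S := by
    ext e
    rw [Finset.mem_filter, Finset.mem_sdiff]
    apply and_congr_right
    intro he
    rw [not_iff_not, Finset.mem_image]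
    constructor
    · rintro ⟨e', he', h⟩
      rw [← hf (hS he') he h]
      exact he'
    · intro h; exact ⟨e, h, rfl⟩
  show B _ ↔ B _
  rw [this]

/-- the edge crossed by a dual edge; the dual vertex `z` is the centre of the face `z` -/
def dE : Sym2 (ℤ × ℤ) → Sym2 (ℤ × ℤ) :=
  Sym2.lift ⟨fun u v => if u.2 = v.2 then vE (max u.1 v.1) (max u.2 v.2)
    else hE (max u.1 v.1) (max u.2 v.2), by
    intro u v
    simp only [eq_comm, max_comm]⟩

lemma dE_hE (i j : ℤ) : dE (hE i j) = vE (i + 1) j := by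
  unfold dE hE
  rw [Sym2.lift_mk]
  simp

lemma dE_vE (i j : ℤ) : dE (vE i j) = hE i (j + 1) := by
  unfold dE vE
  rw [Sym2.lift_mk]
  simp

lemma hE_injective {i j i' j' : ℤ} (h : hE i j = hE i' j') : i = i' ∧ j = j' := by
  unfold hE at h
  rw [Sym2.eq_iff, Prod.mk.injEq, Prod.mk.injEq, Prod.mk.injEq, Prod.mk.injEq] at h
  omega

lemma vE_injective {i j i' j' : ℤ} (h : vE i j = vE i' j') : i = i' ∧ j = j' := by
  unfold vE at h
  rw [Sym2.eq_iff, Prod.mk.injEq, Prod.mk.injEq, Prod.mk.injEq, Prod.mk.injEq] at h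
  omega

lemma hE_ne_vE' {i j i' j' : ℤ} : hE i j ≠ vE i' j' := by
  intro h
  unfold hE vE at h
  rw [Sym2.eq_iff, Prod.mk.injEq, Prod.mk.injEq, Prod.mk.injEq, Prod.mk.injEq] at h
  omega

lemma dE_injOn {G : Finset (Sym2 (ℤ × ℤ))} (hG : ∀ e ∈ G, IsEdge e) : InjOn dE G := by
  intro e he e' he' h
  rcases hG e he with ⟨i, j, rfl⟩ | ⟨i, j, rfl⟩ <;> rcases hG e' he' with ⟨i', j', rfl⟩ | ⟨i', j', rfl⟩
  · rw [dE_hE, dE_hE] at h
    have := vE_injective h
    rw [show i = i' by omega, this.2]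
  · rw [dE_hE, dE_vE] at h
    exact absurd h.symm hE_ne_vE'
  · rw [dE_vE, dE_hE] at h
    exact absurd h hE_ne_vE'
  · rw [dE_vE, dE_vE] at h
    have := hE_injective h
    rw [this.1, show j = j' by omega]

open Classical in
/-- the dual configuration -/
noncomputable def dcfg (G ω : Finset (Sym2 (ℤ × ℤ))) : Finset (Sym2 (ℤ × ℤ)) :=
  G.filter (fun e => dE e ∉ ω)

/-- the dual configuration has the law of the percolation -/
theorem P_dcfg {S S' : Finset (ℤ × ℤ)}
    (h : ∀ z ∈ S, z ∈ S' ∧ (z.1 + 1, z.2) ∈ S' ∧ (z.1, z.2 + 1) ∈ S' ∧ (z.1 + 1, z.2 + 1) ∈ S')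
    (B : Finset (Sym2 (ℤ × ℤ)) → Prop) :
    P (edgesIn S') (fun ω => B (dcfg (edgesIn S) ω)) = P (edgesIn S) B := by
  classical
  have := P_dual (F := edgesIn S') (dE_injOn (G := edgesIn S) fun e he => edgesIn_cases he) ?_ B
  · rw [← this]
    apply P_congr
    intro ω _
    unfold dcfg
    show B _ ↔ B _
    congr!
  · intro e he
    rcases edgesIn_cases he with ⟨i, j, rfl⟩ | ⟨i, j, rfl⟩
    · rw [hE_mem] at he
      rw [dE_hE, vE_mem]
      exact ⟨(h _ he.1).2.1, (h _ he.1).2.2.2⟩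
    · rw [vE_mem] at he
      rw [dE_vE, hE_mem]
      exact ⟨(h _ he.1).2.2.1, (h _ he.1).2.2.2⟩

/-- the shift between the centres of the faces and the vertices -/
noncomputable def sh (ε : ℝ) : ℂ := ⟨-(ε / 2), -(ε / 2)⟩

lemma fctr_sh (ε : ℝ) (z : ℤ × ℤ) : fctr ε z + sh ε = pos ε z := by
  apply Complex.ext
  · simp only [fctr, sh, add_re, pos_re]; ring
  · simp only [fctr, sh, add_im, pos_im]; ring

/-- a point is not both on an open edge and on an open dual edge -/
theorem not_both {ε : ℝ} (hε : 0 < ε) {ω G : Finset (Sym2 (ℤ × ℤ))} (hω : ∀ e ∈ ω, IsEdge e)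
    (hG : ∀ e ∈ G, IsEdge e) {y : ℂ} (h : y ∈ openSet ε ω)
    (h' : y + sh ε ∈ openSet ε (dcfg G ω)) : False := by
  classical
  rw [mem_openSet] at h h'
  obtain ⟨e, he, hy⟩ := h
  obtain ⟨e', he', hy'⟩ := h'
  unfold dcfg at he'
  rw [Finset.mem_filter] at he'
  have hre : (y + sh ε).re = y.re - ε / 2 := by simp only [add_re, sh]; ring
  have him : (y + sh ε).im = y.im - ε / 2 := by simp only [add_im, sh]; ring
  rcases hω e he with ⟨i, j, rfl⟩ | ⟨i, j, rfl⟩ <;>
    rcases hG e' he'.1 with ⟨i', j', rfl⟩ | ⟨i', j', rfl⟩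
  · rw [mem_seg_hE hε] at hy hy'
    rw [him] at hy'
    have h1 : ε * j' < ε * j := by linarith [hy.1, hy'.1]
    have h2 : ε * j < ε * ((j' + 1 : ℤ) : ℝ) := by push_cast; linarith [hy.1, hy'.1]
    have h3 := lt_of_mul_lt' hε h1
    have h4 := lt_of_mul_lt' hε h2
    omega
  · rw [mem_seg_hE hε] at hy
    rw [mem_seg_vE hε, hre, him] at hy'
    have h1 : i' < i + 1 := lt_of_mul_lt' hε (by push_cast; linarith [hy.2.2, hy'.1])
    have h2 : i < i' + 1 := lt_of_mul_lt' hε (by push_cast; linarith [hy.2.1, hy'.1])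
    have h3 : j' < j := lt_of_mul_lt' hε (by linarith [hy.1, hy'.2.1])
    have h4 : j < j' + 2 := lt_of_mul_lt' hε (by push_cast; linarith [hy.1, hy'.2.2])
    apply he'.2
    rw [dE_vE, show i' = i by omega, show j' + 1 = j by omega]
    exact he
  · rw [mem_seg_vE hε] at hy
    rw [mem_seg_hE hε, hre, him] at hy'
    have h1 : j' < j + 1 := lt_of_mul_lt' hε (by push_cast; linarith [hy.2.2, hy'.1])
    have h2 : j < j' + 1 := lt_of_mul_lt' hε (by push_cast; linarith [hy.2.1, hy'.1])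
    have h3 : i' < i := lt_of_mul_lt' hε (by linarith [hy.1, hy'.2.1])
    have h4 : i < i' + 2 := lt_of_mul_lt' hε (by push_cast; linarith [hy.1, hy'.2.2])
    apply he'.2
    rw [dE_hE, show i' + 1 = i by omega, show j' = j by omega]
    exact he
  · rw [mem_seg_vE hε] at hy hy'
    rw [hre] at hy'
    have h1 : ε * i' < ε * i := by linarith [hy.1, hy'.1]
    have h2 : ε * i < ε * ((i' + 1 : ℤ) : ℝ) := by push_cast; linarith [hy.1, hy'.1]
    have h3 := lt_of_mul_lt' hε h1
    have h4 := lt_of_mul_lt' hε h2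
    omega

/-- an edge of the dual configuration between two adjacent faces -/
lemma seg_dcfg {ε : ℝ} {ω : Finset (Sym2 (ℤ × ℤ))} {S : Finset (ℤ × ℤ)} {z z' : ℤ × ℤ}
    (hz : z ∈ S) (hz' : z' ∈ S) (h : Fadj ω z z') :
    segment ℝ (pos ε z) (pos ε z') ⊆ openSet ε (dcfg (edgesIn S) ω) := by
  classical
  have key : ∀ u v : ℤ × ℤ, u ∈ S → v ∈ S → ((v = (u.1 + 1, u.2) ∧ vE (u.1 + 1) u.2 ∉ ω) ∨
      (v = (u.1, u.2 + 1) ∧ hE u.1 (u.2 + 1) ∉ ω)) →
      segment ℝ (pos ε u) (pos ε v) ⊆ openSet ε (dcfg (edgesIn S) ω) := by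
    intro u v hu hv huv w hw
    refine ⟨u, v, ?_, hw⟩
    unfold dcfg
    rw [Finset.mem_filter]
    rcases huv with ⟨rfl, h⟩ | ⟨rfl, h⟩
    · have e : s(u, (u.1 + 1, u.2)) = hE u.1 u.2 := rfl
      rw [e, hE_mem, dE_hE]
      exact ⟨⟨hu, hv⟩, h⟩
    · have e : s(u, (u.1, u.2 + 1)) = vE u.1 u.2 := rfl
      rw [e, vE_mem, dE_vE]
      exact ⟨⟨hu, hv⟩, h⟩
  rcases h with h | h | h | h
  · exact key z z' hz hz' (Or.inl h)
  · rw [segment_symm]; exact key z' z hz' hz (Or.inl h)
  · exact key z z' hz hz' (Or.inr h)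
  · rw [segment_symm]; exact key z' z hz' hz (Or.inr h)

end Full
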