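import Pool.Agent.Helper69.RSW.Prob

/-!
# Resampling the unexplored edges
-/

set_option autoImplicit false

namespace Full
open Finset Pool.Agent.Helper69.RSW

variable {E : Type*} [DecidableEq E]

/-- **Resampling.** `X ω` is the set of explored edges of the configuration `ω`; it is determined by
the restriction of `ω` to it.  If, for every `ω`, the event `B` has probability at most `g` after
resampling the edges off `X ω`, then `B` has probability at most `g`. -/
theorem P_resample {F : Finset E} {X : Finset E → Finset E} (hXF : ∀ ω, ω ⊆ F → X ω ⊆ F)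
    (hX : ∀ ω ω', ω ⊆ F → ω' ⊆ F → ω' ∩ X ω = ω ∩ X ω → X ω' = X ω) {B : Finset E → Prop} {g : ℝ}
    (h : ∀ ω ⊆ F, P F (fun ω' => B ((ω ∩ X ω) ∪ (ω' \ X ω))) ≤ g) : P F B ≤ g := by
  classical
  set D : Finset E → Finset E × Finset E := fun ω => (X ω, ω ∩ X ω) with hD
  set I := F.powerset.image D with hI
  have hsum := P_sum F D I B (fun S hS _ => mem_image_of_mem _ (mem_powerset.2 hS))
  have hone := P_sum F D I (fun _ => True) (fun S hS _ => mem_image_of_mem _ (mem_powerset.2 hS))
  rw [P_true] at hone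
  rw [hsum]
  have hg : g = ∑ i ∈ I, P F (fun S => D S = i ∧ True) * g := by
    rw [← sum_mul, ← hone, one_mul]
  rw [hg]
  apply sum_le_sum
  intro i hi
  obtain ⟨ω, hω, rfl⟩ := mem_image.1 hi
  rw [mem_powerset] at hω
  set T := X ω with hT
  -- the cylinder
  have key : ∀ S ⊆ F, (D S = D ω ↔ S ∩ T = ω ∩ T) := by
    intro S hS
    constructor
    · intro he
      have h1 : X S = X ω := congrArg Prod.fst he
      have h2 : S ∩ X S = ω ∩ X ω := congrArg Prod.snd he
      rw [h1] at h2
      exact h2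
    · intro he
      have h1 := hX ω S hω hS he
      simp only [hD]
      rw [h1, he]
  have e1 : P F (fun S => D S = D ω ∧ B S) =
      P F (fun S => (S ∩ T = ω ∩ T) ∧ B ((ω ∩ T) ∪ (S \ T))) := by
    apply P_congr
    intro S hS
    rw [key S hS]
    refine and_congr_right fun he => ?_
    have : S = (ω ∩ T) ∪ (S \ T) := by
      rw [← he]
      ext x
      simp only [mem_union, mem_inter, mem_sdiff]
      tauto
    rw [← this]
  have e2 : P F (fun S => D S = D ω ∧ True) = P F (fun S => S ∩ T = ω ∩ T) := by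
    apply P_congr
    intro S hS
    rw [and_true, key S hS]
  have e3 : P F (fun S => (S ∩ T = ω ∩ T) ∧ B ((ω ∩ T) ∪ (S \ T))) =
      P F (fun S => S ∩ T = ω ∩ T) * P F (fun S => B ((ω ∩ T) ∪ (S \ T))) := by
    refine (P_congr ?_).trans ((P_indep (G := T) (H := F \ T) (hXF ω hω) sdiff_subset
      disjoint_sdiff (A := fun S => S ∩ T = ω ∩ T)
      (B := fun S => B ((ω ∩ T) ∪ ((S ∩ F) \ T))) ?_ ?_).trans ?_)
    · intro S hS
      rw [inter_eq_left.2 hS]
    · intro S
      show S ∩ T = ω ∩ T ↔ S ∩ T ∩ T = ω ∩ T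
      rw [inter_assoc, inter_self]
    · intro S
      show B ((ω ∩ T) ∪ ((S ∩ F) \ T)) ↔ B ((ω ∩ T) ∪ ((S ∩ (F \ T) ∩ F) \ T))
      have : (S ∩ (F \ T) ∩ F) \ T = (S ∩ F) \ T := by
        ext x
        simp only [mem_sdiff, mem_inter]
        tauto
      rw [this]
    · congr 1
      apply P_congr
      intro S hS
      rw [inter_eq_left.2 hS]
  rw [e1, e3, e2]
  exact mul_le_mul_of_nonneg_left (h ω hω) (P_nonneg _ _)

end Full
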