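import Pool.Agent.Full.Rough.Bad
import Pool.Agent.Full.Rough.Resample

/-!
# The estimate: if the inner rectangle is crossed then, with high probability, the quadrilateral is
crossed
-/

set_option autoImplicit false

open Set Filter Topology Complex H47Perc Relation
open Pool.Agent.Helper69.RSW (P P_restrict P_congr P_mono P_nonneg P_or_le Dep)

namespace Full

/-- probability that there is no ring -/
theorem noR_prob : ∃ C a : ℝ, 0 < C ∧ 0 < a ∧ ∀ (ε : ℝ) (c : ℂ) (r₁ r₂ : ℝ), 0 < ε → ε ≤ r₁ →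
    12 * r₁ ≤ r₂ → ∀ S : Finset (ℤ × ℤ), (∀ z, ‖pos ε z - c‖ ≤ 3 * r₂ → z ∈ S) →
      P (edgesIn S) (NoR ε c r₁ r₂) ≤ C * (12 * r₁ / r₂) ^ a := by
  obtain ⟨C, a, hC, ha, h⟩ := noRing_le
  refine ⟨C, a, hC, ha, fun ε c r₁ r₂ hε hεr h12 S hS => ?_⟩
  have hr1 : 0 < r₁ := hε.trans_le hεr
  have hr2 : 0 < r₂ := by linarith
  set r : ℕ := ⌊r₁ / ε⌋₊ + 2 with hr
  set R : ℕ := ⌊(r₂ / 2 - ε) / ε⌋₊ with hR
  have e1 : (r : ℝ) ≤ 3 * r₁ / ε := by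
    have := Nat.floor_le (div_nonneg hr1.le hε.le)
    rw [hr]; push_cast
    rw [le_div_iff₀ hε]
    rw [le_div_iff₀ hε] at this
    nlinarith
  have e2 : r₁ + ε < ε * r := by
    have := Nat.lt_floor_add_one (r₁ / ε)
    rw [div_lt_iff₀ hε] at this
    rw [hr]; push_cast
    nlinarith
  have e3 : r₂ / (4 * ε) ≤ R := by
    have := Nat.lt_floor_add_one ((r₂ / 2 - ε) / ε)
    rw [← hR, div_lt_iff₀ hε] at this
    rw [div_le_iff₀ (by positivity)]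
    nlinarith
  have e4 : (R : ℝ) * ε ≤ r₂ / 2 - ε := by
    have := Nat.floor_le (div_nonneg (by linarith : 0 ≤ r₂ / 2 - ε) hε.le)
    rw [← hR, le_div_iff₀ hε] at this
    exact this
  have hRpos : (0:ℝ) < R := lt_of_lt_of_le (by positivity) e3
  have e5 : (r : ℝ) / R ≤ 12 * r₁ / r₂ := by
    rw [div_le_div_iff₀ hRpos hr2]
    have h1 : (r : ℝ) * r₂ ≤ 3 * r₁ / ε * r₂ := mul_le_mul_of_nonneg_right e1 hr2.le
    have h2 : 12 * r₁ * (r₂ / (4 * ε)) ≤ 12 * r₁ * R := mul_le_mul_of_nonneg_left e3 (by positivity)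
    have h3 : 3 * r₁ / ε * r₂ = 12 * r₁ * (r₂ / (4 * ε)) := by field_simp; ring
    linarith
  have e6 : r ≤ R := by
    have : (r : ℝ) / R ≤ 1 := e5.trans (by rw [div_le_one hr2]; exact h12)
    rw [div_le_one hRpos] at this
    exact_mod_cast this
  have hx := rnd_spec hε c
  have hbox : box ((rnd ε c).1 - R) ((rnd ε c).1 + R) ((rnd ε c).2 - R) ((rnd ε c).2 + R) ⊆ S := by
    intro z hz
    rw [mem_box] at hz
    apply hS
    have g1 : (z.1 : ℝ) ≤ (rnd ε c).1 + R := by exact_mod_cast hz.2.1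
    have g2 : ((rnd ε c).1 : ℝ) - R ≤ z.1 := by exact_mod_cast hz.1
    have g3 : (z.2 : ℝ) ≤ (rnd ε c).2 + R := by exact_mod_cast hz.2.2.2
    have g4 : ((rnd ε c).2 : ℝ) - R ≤ z.2 := by exact_mod_cast hz.2.2.1
    refine (Complex.norm_le_abs_re_add_abs_im _).trans ?_
    have k1 : |(pos ε z - c).re| ≤ r₂ := by
      rw [sub_re, pos_re, abs_le]
      constructor <;> nlinarith [hx.1.1, hx.1.2]
    have k2 : |(pos ε z - c).im| ≤ r₂ := by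
      rw [sub_im, pos_im, abs_le]
      constructor <;> nlinarith [hx.2.1, hx.2.2]
    linarith
  have hmain := h (rnd ε c) r R (by omega) e6 S hbox
  rw [Pool.Agent.Helper69.RSW.perc_half_eq] at hmain
  refine (P_mono ?_).trans (hmain.trans ?_)
  · intro ω _ hN hcon
    obtain ⟨k, hk1, hk2, hk3⟩ := hcon
    refine hN k ?_ ?_ hk3
    · have : (r : ℝ) ≤ k := by exact_mod_cast hk1
      nlinarith
    · have : (3:ℝ) * k ≤ R := by exact_mod_cast hk2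
      nlinarith
  · exact mul_le_mul_of_nonneg_left (Real.rpow_le_rpow (by positivity) e5 ha.le) hC.le

lemma tipL_mem {q : ℂ → ℂ} {ε s κ : ℝ} {Z : Set (ℤ × ℤ)} :
    0 ≤ tipL q ε s κ Z ∧ tipL q ε s κ Z ≤ 1 := by
  unfold tipL
  constructor
  · apply Real.sSup_nonneg
    rintro _ ⟨w, hw, rfl⟩
    exact hw.1.1.2.2.1
  · apply Real.sSup_le _ zero_le_one
    rintro _ ⟨w, hw, rfl⟩
    exact hw.1.1.2.2.2

/-- the probability of the bad event, for fixed data -/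
theorem bad_prob {C a : ℝ} (hN : ∀ (ε : ℝ) (c : ℂ) (r₁ r₂ : ℝ), 0 < ε → ε ≤ r₁ →
    12 * r₁ ≤ r₂ → ∀ S : Finset (ℤ × ℤ), (∀ z, ‖pos ε z - c‖ ≤ 3 * r₂ → z ∈ S) →
      P (edgesIn S) (NoR ε c r₁ r₂) ≤ C * (12 * r₁ / r₂) ^ a)
    {q : ℂ → ℂ} (hq : IsQuad q) {ε s t κ ρ r₁ r₂ r₃ r₄ : ℝ} (hG : Geo q ε s t κ)
    (hM : Metr q s κ ρ r₁ r₂ r₃ r₄) (h1 : ε ≤ r₁) (h2 : 12 * r₁ ≤ r₂) (h4 : ε ≤ r₄)
    (h3 : 12 * r₄ ≤ r₃) {S : Finset (ℤ × ℤ)}
    (hS : ∀ z : ℤ × ℤ, Metric.infDist (pos ε z) (q '' sq) ≤ ε → z ∈ S) {g : ℝ}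
    (hg1 : C * (12 * r₁ / r₂) ^ a ≤ g) (hg2 : C * (12 * r₄ / r₃) ^ a ≤ g) :
    perc half S (fun ω => CrossR q ε ω s (1 - s) t (1 - t) ∧ ¬ CrossR q ε ω 0 1 0 1) ≤ 6 * g := by
  classical
  have hε := hG.ε_pos
  -- a large set of vertices
  obtain ⟨M, hM0⟩ : ∃ M : ℝ, ∀ w ∈ sq, ‖q w‖ ≤ M := by
    obtain ⟨M, hM⟩ := (isCompact_sq.image_of_continuousOn hq.cont).isBounded.exists_norm_le
    exact ⟨M, fun w hw => hM _ ⟨w, hw, rfl⟩⟩
  obtain ⟨N, hN0⟩ := exists_nat_gt ((M + 3 * r₂ + 3 * r₃) / ε)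
  set S' : Finset (ℤ × ℤ) := S ∪ Finset.Icc (-(N:ℤ), -(N:ℤ)) ((N:ℤ), (N:ℤ)) with hS'
  have hr1 : 0 < r₁ := hε.trans_le h1
  have hr4 : 0 < r₄ := hε.trans_le h4
  have hbig : ∀ w ∈ sq, ∀ r, r ≤ r₂ + r₃ → ∀ z, ‖pos ε z - q w‖ ≤ 3 * r → z ∈ S' := by
    intro w hw r hr z hz
    rw [hS', Finset.mem_union]
    right
    have h5 : ‖pos ε z‖ ≤ M + 3 * r₂ + 3 * r₃ := by
      have h6 := norm_add_le (pos ε z - q w) (q w)
      rw [sub_add_cancel] at h6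
      linarith [hM0 w hw]
    have h7 : M + 3 * r₂ + 3 * r₃ < ε * N := by rw [div_lt_iff₀ hε] at hN0; linarith
    have g1 := (Complex.abs_re_le_norm (pos ε z)).trans h5
    have g2 := (Complex.abs_im_le_norm (pos ε z)).trans h5
    rw [pos_re, abs_le] at g1
    rw [pos_im, abs_le] at g2
    have k1 : z.1 ≤ N := (lt_of_mul_lt' hε (b := (N:ℤ)) (by push_cast; linarith)).le
    have k2 : -(N:ℤ) ≤ z.1 := (lt_of_mul_lt' hε (a := -(N:ℤ)) (by push_cast; linarith)).le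
    have k3 : z.2 ≤ N := (lt_of_mul_lt' hε (b := (N:ℤ)) (by push_cast; linarith)).le
    have k4 : -(N:ℤ) ≤ z.2 := (lt_of_mul_lt' hε (a := -(N:ℤ)) (by push_cast; linarith)).le
    rw [Finset.mem_Icc, Prod.le_def, Prod.le_def]
    exact ⟨⟨k2, k4⟩, k1, k3⟩
  set F := edgesIn S' with hF
  have hedge : ∀ ω ⊆ F, ∀ e ∈ ω, IsEdge e := fun ω hω e he => edgesIn_cases (hω he)
  -- restriction to the large set
  set E : Finset (Sym2 (ℤ × ℤ)) → Prop :=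
    fun ω => CrossR q ε ω s (1 - s) t (1 - t) ∧ ¬ CrossR q ε ω 0 1 0 1 with hE
  have hEi : ∀ ω ⊆ F, (E ω ↔ E (ω ∩ edgesIn S)) := by
    intro ω hω
    have h5 := hG.s_pos
    have h6 := hG.t_pos
    have h7 := hG.s_lt
    have h8 := hG.t_lt
    exact and_congr (CrossR.inter hε (hedge ω hω) hS h5.le (by linarith) h6.le (by linarith))
      (not_congr (CrossR.inter hε (hedge ω hω) hS le_rfl le_rfl le_rfl le_rfl))
  have hPE : perc half S E = P F E := by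
    rw [Pool.Agent.Helper69.RSW.perc_half_eq]
    have hsub : edgesIn S ⊆ F := edgesIn_mono Finset.subset_union_left
    have e1 : P F E = P F (fun ω => E (ω ∩ edgesIn S)) := P_congr hEi
    rw [e1, P_restrict hsub (A := fun ω => E (ω ∩ edgesIn S)) (fun ω => by
      show E (ω ∩ edgesIn S) ↔ E (ω ∩ edgesIn S ∩ edgesIn S)
      rw [Finset.inter_assoc, Finset.inter_self])]
    apply P_congr
    intro ω hω
    rw [Finset.inter_eq_left.2 hω]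
  show perc half S E ≤ 6 * g
  rw [hPE]
  -- the fixed rings
  have hr2 : r₂ ≤ r₂ + r₃ := by linarith
  have hr3 : r₃ ≤ r₂ + r₃ := by linarith
  have ht := hG.t_pos
  have ht4 := hG.t_lt
  have p1 : P F (NoR ε (q ⟨0, t⟩) r₁ r₂) ≤ g :=
    (hN ε _ r₁ r₂ hε h1 h2 S' (hbig ⟨0, t⟩ ⟨le_rfl, zero_le_one, ht.le, by simp only; linarith⟩ _
      hr2)).trans hg1
  have p2 : P F (NoR ε (q ⟨1, t⟩) r₁ r₂) ≤ g :=
    (hN ε _ r₁ r₂ hε h1 h2 S' (hbig ⟨1, t⟩ ⟨zero_le_one, le_rfl, ht.le, by simp only; linarith⟩ _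
      hr2)).trans hg1
  have p3 : P F (NoR ε (q ⟨0, 1⟩) r₄ r₃) ≤ g :=
    (hN ε _ r₄ r₃ hε h4 h3 S' (hbig ⟨0, 1⟩ ⟨le_rfl, zero_le_one, zero_le_one, le_rfl⟩ _
      hr3)).trans hg2
  have p4 : P F (NoR ε (q ⟨1, 1⟩) r₄ r₃) ≤ g :=
    (hN ε _ r₄ r₃ hε h4 h3 S' (hbig ⟨1, 1⟩ ⟨zero_le_one, le_rfl, zero_le_one, le_rfl⟩ _
      hr3)).trans hg2
  set A4 : Finset (Sym2 (ℤ × ℤ)) → Prop := fun ω =>
    (NoR ε (q ⟨0, t⟩) r₁ r₂ ω ∨ NoR ε (q ⟨1, t⟩) r₁ r₂ ω) ∨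
      (NoR ε (q ⟨0, 1⟩) r₄ r₃ ω ∨ NoR ε (q ⟨1, 1⟩) r₄ r₃ ω) with hA4
  have pA : P F A4 ≤ 4 * g := by
    have := P_or_le F (fun ω => NoR ε (q ⟨0, t⟩) r₁ r₂ ω ∨ NoR ε (q ⟨1, t⟩) r₁ r₂ ω)
      (fun ω => NoR ε (q ⟨0, 1⟩) r₄ r₃ ω ∨ NoR ε (q ⟨1, 1⟩) r₄ r₃ ω)
    have h5 := P_or_le F (NoR ε (q ⟨0, t⟩) r₁ r₂) (NoR ε (q ⟨1, t⟩) r₁ r₂)
    have h6 := P_or_le F (NoR ε (q ⟨0, 1⟩) r₄ r₃) (NoR ε (q ⟨1, 1⟩) r₄ r₃)
    linarith
  -- resampling
  set X : Finset (Sym2 (ℤ × ℤ)) → Finset (Sym2 (ℤ × ℤ)) :=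
    fun ω => F.filter (fun e => e ∈ Xpl ω (Lf q ε s t) (Bf q ε t)) with hX
  have hXR : ∀ ω ω', ω ⊆ F → ω' ⊆ F → ω' ∩ X ω = ω ∩ X ω →
      Rch q ε s t ω' = Rch q ε s t ω := by
    intro ω ω' hω hω' h
    apply Reach.congr
    intro e he
    by_cases heF : e ∈ F
    · have heX : e ∈ X ω := Finset.mem_filter.2 ⟨heF, he⟩
      constructor
      · intro h'
        have : e ∈ ω' ∩ X ω := Finset.mem_inter.2 ⟨h', heX⟩
        rw [h] at this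
        exact (Finset.mem_inter.1 this).1
      · intro h'
        have : e ∈ ω ∩ X ω := Finset.mem_inter.2 ⟨h', heX⟩
        rw [← h] at this
        exact (Finset.mem_inter.1 this).1
    · exact ⟨fun h' => absurd (hω' h') heF, fun h' => absurd (hω h') heF⟩
  have hXX : ∀ ω ω', ω ⊆ F → ω' ⊆ F → ω' ∩ X ω = ω ∩ X ω → X ω' = X ω := by
    intro ω ω' hω hω' h
    have h5 := hXR ω ω' hω hω' h
    simp only [hX]
    apply Finset.filter_congr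
    intro e _
    unfold Xpl
    unfold Rch at h5
    rw [h5]
  have pB : P F (fun ω => E ω ∧ ¬ A4 ω) ≤ 2 * g := by
    apply P_resample (X := X) (fun ω _ => Finset.filter_subset _ _) hXX
    intro ω hω
    have hle : ∀ ω' ⊆ F, (E ((ω ∩ X ω) ∪ (ω' \ X ω)) ∧ ¬ A4 ((ω ∩ X ω) ∪ (ω' \ X ω))) →
        (NoR ε (q ⟨0, tipL q ε s κ (Rch q ε s t ω)⟩) r₁ r₂ ω' ∨
          NoR ε (q ⟨1, tipR q ε s κ (Rch q ε s t ω)⟩) r₁ r₂ ω') := by
      intro ω' hω' h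
      set m := (ω ∩ X ω) ∪ (ω' \ X ω) with hm
      have hmF : m ⊆ F := Finset.union_subset (Finset.inter_subset_left.trans hω)
        (Finset.sdiff_subset.trans hω')
      have hmX : m ∩ X ω = ω ∩ X ω := by
        rw [hm]
        ext e
        simp only [Finset.mem_inter, Finset.mem_union, Finset.mem_sdiff]
        tauto
      have hR := hXR ω m hω hmF hmX
      have hb := bad_imp hq hG hM (ω := m) (ω' := ω') (hedge m hmF) ?_ h.1.1 h.1.2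
      · rw [hR] at hb
        rcases hb with hb | hb | hb
        · exact absurd (Or.inl hb) h.2
        · exact absurd (Or.inr hb) h.2
        · exact hb
      · intro e he heX
        rw [hm, Finset.mem_union, Finset.mem_sdiff]
        right
        refine ⟨he, fun hcon => heX ?_⟩
        have := (Finset.mem_filter.1 hcon).2
        unfold Xpl at this ⊢
        unfold Rch at hR
        rw [hR]
        exact this
    refine (P_mono hle).trans ((P_or_le _ _ _).trans ?_)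
    have q1 : P F (NoR ε (q ⟨0, tipL q ε s κ (Rch q ε s t ω)⟩) r₁ r₂) ≤ g :=
      (hN ε _ r₁ r₂ hε h1 h2 S' (hbig _ ⟨le_rfl, zero_le_one, tipL_mem.1, tipL_mem.2⟩ _
        hr2)).trans hg1
    have q2 : P F (NoR ε (q ⟨1, tipR q ε s κ (Rch q ε s t ω)⟩) r₁ r₂) ≤ g :=
      (hN ε _ r₁ r₂ hε h1 h2 S' (hbig _ ⟨zero_le_one, le_rfl, tipL_mem.1, tipL_mem.2⟩ _
        hr2)).trans hg1
    linarith
  have : P F E ≤ P F (fun ω => A4 ω ∨ (E ω ∧ ¬ A4 ω)) := by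
    apply P_mono
    intro ω _ h
    by_cases h' : A4 ω
    · exact Or.inl h'
    · exact Or.inr ⟨h, h'⟩
  refine this.trans ((P_or_le _ _ _).trans ?_)
  linarith

end Full
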