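import Pool.Agent.Full.Rough.Reach

/-!
# The exit of a dual path from the explored region
-/

set_option autoImplicit false

open Set Filter Topology Complex H47Perc Relation

namespace Full

/-! ### transfer to the parameter square -/

lemma IsQuad.pull {q : ℂ → ℂ} (hq : IsQuad q) {G : Set ℂ} {u v : ℂ} (hu : u ∈ sq) (hv : v ∈ sq)
    (h : JoinedIn (G ∩ q '' sq) (q u) (q v)) : JoinedIn {w | w ∈ sq ∧ q w ∈ G} u v := by
  obtain ⟨g, hg, hgq⟩ := hq.inv_cont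
  obtain ⟨γ, hγ⟩ := h
  have hc : Continuous fun t => g (γ t) := hg.comp_continuous γ.continuous fun t => (hγ t).2
  refine ⟨⟨⟨fun t => g (γ t), hc⟩, by simp [hgq u hu], by simp [hgq v hv]⟩, ?_⟩
  intro t
  obtain ⟨w, hw, hwe⟩ := (hγ t).2
  show g (γ t) ∈ _
  rw [← hwe, hgq w hw]
  refine ⟨hw, ?_⟩
  have := (hγ t).1
  rwa [← hwe] at this

lemma IsQuad.isOpen_image {q : ℂ → ℂ} (hq : IsQuad q) {U : Set ℂ} (hU : IsOpen U) :
    IsOpen (q '' (U ∩ sqo)) := by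
  obtain ⟨g, hg, hgq⟩ := hq.inv_cont
  have hsub : sqo ⊆ sq := fun w h => ⟨h.1.le, h.2.1.le, h.2.2.1.le, h.2.2.2.le⟩
  have h := (hg.mono (image_mono hsub)).isOpen_inter_preimage hq.isOpen hU
  convert h using 1
  ext y
  constructor
  · rintro ⟨w, ⟨h1, h2⟩, rfl⟩
    exact ⟨⟨w, h2, rfl⟩, by rw [mem_preimage, hgq w (hsub h2)]; exact h1⟩
  · rintro ⟨⟨w, h2, rfl⟩, h1⟩
    rw [mem_preimage, hgq w (hsub h2)] at h1
    exact ⟨w, ⟨h1, h2⟩, rfl⟩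

lemma sqo_subset_sq : sqo ⊆ sq := fun _ h => ⟨h.1.le, h.2.1.le, h.2.2.1.le, h.2.2.2.le⟩

/-! ### the geometric set-up -/

/-- the mesh is small compared with the parameters `s`, `t`, `κ` -/
structure Geo (q : ℂ → ℂ) (ε s t κ : ℝ) : Prop where
  ε_pos : 0 < ε
  s_pos : 0 < s
  s_lt : s < 1/4
  t_pos : 0 < t
  t_lt : t < 1/4
  κ_pos : 0 < κ
  κ_s : κ ≤ s
  κ_t : κ ≤ t
  K1 : ∀ z, ∀ w ∈ sq, ∀ w' ∈ sq, q w ∈ face ε z → q w' ∈ face ε z → ‖w - w'‖ ≤ κ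
  K2 : ∀ z, ∀ w ∈ rc s (1 - s) t (1 - t), q w ∈ face ε z → face ε z ⊆ q '' sqo

/-- the faces where the exploration lives -/
def Lf (q : ℂ → ℂ) (ε s t : ℝ) : Set (ℤ × ℤ) :=
  {z | (∃ w ∈ rc s (1 - s) t (1 - t), q w ∈ face ε z) ∧
    ∀ w ∈ sq, q w ∈ face ε z → s ≤ w.re ∧ w.re ≤ 1 - s}

/-- the faces which meet the floor -/
def Bf (q : ℂ → ℂ) (ε t : ℝ) : Set (ℤ × ℤ) := {z | ∃ w ∈ sq, q w ∈ face ε z ∧ w.im < t}

/-- the points of the square in faces of `Z` -/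
def Cs (q : ℂ → ℂ) (ε : ℝ) (Z : Set (ℤ × ℤ)) : Set ℂ := {w | w ∈ sq ∧ ∃ z ∈ Z, q w ∈ face ε z}

lemma isCompact_Cs {q : ℂ → ℂ} (hq : IsQuad q) {ε : ℝ} (hε : 0 < ε) (Z : Set (ℤ × ℤ)) :
    IsCompact (Cs q ε Z) := by
  have h : Cs q ε Z = sq ∩ q ⁻¹' {w | ∃ z ∈ Z, w ∈ face ε z} := rfl
  rw [h]
  exact isCompact_sq.of_isClosed_subset (hq.cont.preimage_isClosed_of_isClosed isCompact_sq.isClosed
    (isClosed_iUnion_face hε Z)) inter_subset_left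

lemma abs_re_le {w w' : ℂ} {κ : ℝ} (h : ‖w - w'‖ ≤ κ) : w.re ≤ w'.re + κ ∧ w'.re ≤ w.re + κ := by
  have := (Complex.abs_re_le_norm (w - w')).trans h
  rw [sub_re, abs_le] at this
  constructor <;> linarith [this.1, this.2]

lemma abs_im_le {w w' : ℂ} {κ : ℝ} (h : ‖w - w'‖ ≤ κ) : w.im ≤ w'.im + κ ∧ w'.im ≤ w.im + κ := by
  have := (Complex.abs_im_le_norm (w - w')).trans h
  rw [sub_im, abs_le] at this
  constructor <;> linarith [this.1, this.2]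

lemma norm_le_add {w : ℂ} {x y : ℝ} {a b : ℝ} (h1 : |w.re - x| ≤ a) (h2 : |w.im - y| ≤ b) :
    ‖w - ⟨x, y⟩‖ ≤ a + b := by
  refine (Complex.norm_le_abs_re_add_abs_im _).trans ?_
  simp only [sub_re, sub_im]
  linarith

section
variable {q : ℂ → ℂ} {ε s t κ : ℝ} {ω : Finset (Sym2 (ℤ × ℤ))}

/-- the reached faces -/
def Rch (q : ℂ → ℂ) (ε s t : ℝ) (ω : Finset (Sym2 (ℤ × ℤ))) : Set (ℤ × ℤ) :=
  Reach ω (Lf q ε s t) (Bf q ε t)

lemma Geo.face_sub (hG : Geo q ε s t κ) {z : ℤ × ℤ} (hz : z ∈ Lf q ε s t) :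
    face ε z ⊆ q '' sqo := by
  obtain ⟨⟨w, hw, hwz⟩, -⟩ := hz
  exact hG.K2 z w hw hwz

/-- every face of `L` meeting an open condition has an interior point with this condition -/
lemma exists_interior (hq : IsQuad q) (hε : 0 < ε) {z : ℤ × ℤ} (hz : face ε z ⊆ q '' sqo)
    {U : Set ℂ} (hU : IsOpen U) {w : ℂ} (hw : w ∈ sq) (hwz : q w ∈ face ε z) (hwU : w ∈ U) :
    ∃ u ∈ sqo, u ∈ U ∧ q u ∈ faceo ε z := by
  obtain ⟨w', hw', hww'⟩ := hz hwz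
  have : w' = w := hq.inj (sqo_subset_sq hw') hw hww'
  subst this
  have hO := hq.isOpen_image hU
  have hcl := face_subset_closure hε hwz
  rw [mem_closure_iff] at hcl
  obtain ⟨y, ⟨u, hu, rfl⟩, hy⟩ := hcl _ hO ⟨w', ⟨hwU, hw'⟩, rfl⟩
  exact ⟨u, hu.2, hu.1, hy⟩

/-- the gap of the reached faces lies in the domain and in the vertical strip -/
lemma Gap_sub (hG : Geo q ε s t κ) {Z : Set (ℤ × ℤ)} (hZ : Z ⊆ Lf q ε s t) :
    Gap ε ω Z ⊆ q '' sqo := by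
  intro w hw
  obtain ⟨z, hz⟩ := exists_face hG.ε_pos w
  exact hG.face_sub (hZ (hw.2 z hz)) hz

lemma joined_param (hq : IsQuad q) (hG : Geo q ε s t κ) {Z : Set (ℤ × ℤ)} (hZ : Z ⊆ Lf q ε s t)
    {u v : ℂ} (hu : u ∈ sq) (hv : v ∈ sq) (h : JoinedIn (Gap ε ω Z) (q u) (q v)) :
    JoinedIn {w | w ∈ sq ∧ q w ∈ Gap ε ω Z} u v := by
  apply hq.pull hu hv
  exact h.mono fun w hw => ⟨hw, image_mono sqo_subset_sq (Gap_sub hG hZ hw)⟩

/-- points of the gap are in the strip -/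
lemma strip_of_gap (hG : Geo q ε s t κ) {Z : Set (ℤ × ℤ)} (hZ : Z ⊆ Lf q ε s t) {w : ℂ}
    (hw : w ∈ sq) (h : q w ∈ Gap ε ω Z) : s ≤ w.re ∧ w.re ≤ 1 - s := by
  obtain ⟨z, hz⟩ := exists_face hG.ε_pos (q w)
  exact (hZ (h.2 z hz)).2 w hw hz

/-- a path from below to above in a vertical strip meets every crossing of the rectangle -/
lemma cross_strip {a b c d : ℝ} (hab : a < b) (hcd : c < d) {F G : Set ℂ} (hF : F ⊆ rc a b c d)
    (hG : ∀ w ∈ G, a ≤ w.re ∧ w.re ≤ b) {u v x y : ℂ} (hu : u.re = a) (hv : v.re = b)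
    (hx : x.im ≤ c) (hy : d ≤ y.im) (h1 : JoinedIn F u v) (h2 : JoinedIn G x y) :
    (F ∩ G).Nonempty := by
  obtain ⟨α, hα⟩ := h1
  obtain ⟨β, hβ⟩ := h2
  obtain ⟨t₁, t₂, -, h12, -, e1, e2, hm⟩ := passage (h := fun t => (β.extend t).im)
    (Complex.continuous_im.comp β.continuous_extend) zero_le_one hcd.le (by simpa using hx)
    (by simpa using hy)
  obtain ⟨s', hs', t', ht', h⟩ := cross_rc hab hcd (α := α.extend) (β := β.extend)
    α.continuous_extend β.continuous_extend zero_le_one h12 (fun s _ => hF (hα _))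
    (fun t ht => ⟨(hG _ (hβ _)).1, (hG _ (hβ _)).2, (hm t ht).1, (hm t ht).2⟩)
    (by simpa using hu) (by simpa using hv) e1 e2
  refine ⟨α.extend s', hα _, ?_⟩
  rw [h]
  exact hβ _

/-- a reached face has a path from the floor -/
lemma path_from_floor (hq : IsQuad q) (hG : Geo q ε s t κ) (hω : ∀ e ∈ ω, IsEdge e) {z : ℤ × ℤ}
    (hz : z ∈ Rch q ε s t ω) {u : ℂ} (hu : u ∈ sqo) (huz : q u ∈ faceo ε z) :
    ∃ p ∈ sqo, p.im < t ∧ JoinedIn {w | w ∈ sq ∧ q w ∈ Gap ε ω (Rch q ε s t ω)} p u := by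
  obtain ⟨b, hb, hbL, hj⟩ := Reach.joined hG.ε_pos hω hz
  have hsub : Rch q ε s t ω ⊆ Lf q ε s t := Reach.sub
  have hbR : b ∈ Rch q ε s t ω := Reach.start hb hbL
  obtain ⟨w, hw, hwb, hwt⟩ := hb
  obtain ⟨p, hp, hpt, hpb⟩ := exists_interior hq hG.ε_pos (hG.face_sub hbL)
    (isOpen_Iio.preimage Complex.continuous_im) hw hwb hwt
  refine ⟨p, hp, hpt, ?_⟩
  apply joined_param hq hG hsub (sqo_subset_sq hp) (sqo_subset_sq hu)
  exact ((joined_faceo hG.ε_pos hω hbR hpb (fctr_mem hG.ε_pos b)).trans hj).trans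
    (joined_faceo hG.ε_pos hω hz (fctr_mem hG.ε_pos z) huz)

/-- if the rectangle is crossed then the exploration does not reach the ceiling -/
theorem below_ceiling (hq : IsQuad q) (hG : Geo q ε s t κ) (hω : ∀ e ∈ ω, IsEdge e)
    {u v : ℂ} (hu : u.re = s) (hv : v.re = 1 - s)
    (hA : JoinedIn {w | w ∈ rc s (1 - s) t (1 - t) ∧ q w ∈ openSet ε ω} u v)
    {w : ℂ} (hw : w ∈ Cs q ε (Rch q ε s t ω)) : w.im ≤ 1 - t := by
  by_contra hlt
  push Not at hlt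
  obtain ⟨hws, z, hz, hwz⟩ := hw
  have hzL : z ∈ Lf q ε s t := Reach.sub hz
  obtain ⟨y, hy, hyt, hyz⟩ := exists_interior hq hG.ε_pos (hG.face_sub hzL)
    (isOpen_Ioi.preimage Complex.continuous_im) hws hwz hlt
  obtain ⟨p, hp, hpt, hj⟩ := path_from_floor hq hG hω hz hy hyz
  have h1 := hG.s_lt
  have h2 := hG.t_lt
  obtain ⟨x, hx1, hx2⟩ := cross_strip (by linarith : s < 1 - s) (by linarith : t < 1 - t)
    (fun w hw => hw.1) (fun w hw => strip_of_gap hG Reach.sub hw.1 hw.2) hu hv hpt.le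
    (le_of_lt hyt) hA hj
  exact hx2.2.1 hx1.2

end

end Full
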