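import Pool.Agent.Full.Rough.ExitL

/-!
# The exit of a dual path: both sides
-/

set_option autoImplicit false

open Set Filter Topology Complex H47Perc Relation

namespace Full

/-- reflection of the square -/
def rhoR (w : ℂ) : ℂ := ⟨1 - w.re, w.im⟩

@[simp] lemma rho_re (w : ℂ) : (rhoR w).re = 1 - w.re := rfl
@[simp] lemma rho_im (w : ℂ) : (rhoR w).im = w.im := rfl

lemma rho_rho (w : ℂ) : rhoR (rhoR w) = w := Complex.ext (by simp) (by simp)

lemma rho_cont : Continuous rhoR := by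
  have : rhoR = fun w => Complex.equivRealProdCLM.symm (1 - w.re, w.im) := by
    funext x; rfl
  rw [this]
  exact Complex.equivRealProdCLM.symm.continuous.comp (by fun_prop)

lemma rho_sq {w : ℂ} : rhoR w ∈ sq ↔ w ∈ sq := by
  constructor
  · intro h
    exact ⟨by have := h.2.1; simp at this; linarith, by have := h.1; simp at this; linarith,
      h.2.2.1, h.2.2.2⟩
  · intro h
    exact ⟨by simp; linarith [h.2.1], by simp; linarith [h.1], h.2.2.1, h.2.2.2⟩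

lemma rho_sqo {w : ℂ} : rhoR w ∈ sqo ↔ w ∈ sqo := by
  constructor
  · intro h
    exact ⟨by have := h.2.1; simp at this; linarith, by have := h.1; simp at this; linarith,
      h.2.2.1, h.2.2.2⟩
  · intro h
    exact ⟨by simp; linarith [h.2.1], by simp; linarith [h.1], h.2.2.1, h.2.2.2⟩

lemma image_rho {q : ℂ → ℂ} {A : Set ℂ} (hA : ∀ w, rhoR w ∈ A ↔ w ∈ A) : (q ∘ rhoR) '' A = q '' A := by
  ext y
  constructor
  · rintro ⟨w, hw, rfl⟩
    exact ⟨rhoR w, (hA w).2 hw, rfl⟩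
  · rintro ⟨w, hw, rfl⟩
    exact ⟨rhoR w, (hA w).2 hw, by simp [rho_rho]⟩

lemma IsQuad.rhoR {q : ℂ → ℂ} (hq : IsQuad q) : IsQuad (q ∘ rhoR) := by
  refine ⟨hq.cont.comp rho_cont.continuousOn fun w hw => rho_sq.2 hw, ?_, ?_⟩
  · intro w hw w' hw' h
    have := hq.inj (rho_sq.2 hw) (rho_sq.2 hw') h
    rw [← rho_rho w, this, rho_rho]
  · rw [image_rho fun w => rho_sqo]
    exact hq.isOpen

lemma norm_rhoR (w w' : ℂ) : ‖rhoR w - rhoR w'‖ = ‖w - w'‖ := by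
  rw [Complex.norm_def, Complex.norm_def, Complex.normSq_apply, Complex.normSq_apply]
  simp only [sub_re, sub_im, rho_re, rho_im]
  ring_nf

section
variable {q : ℂ → ℂ} {ε s t κ : ℝ} {ω : Finset (Sym2 (ℤ × ℤ))}

lemma rho_rc {w : ℂ} : rhoR w ∈ rc s (1 - s) t (1 - t) ↔ w ∈ rc s (1 - s) t (1 - t) := by
  simp only [mem_rc, rho_re, rho_im]
  constructor
  · rintro ⟨h1, h2, h3, h4⟩; exact ⟨by linarith, by linarith, h3, h4⟩
  · rintro ⟨h1, h2, h3, h4⟩; exact ⟨by linarith, by linarith, h3, h4⟩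

lemma Geo.rhoR (hG : Geo q ε s t κ) : Geo (q ∘ rhoR) ε s t κ := by
  refine ⟨hG.ε_pos, hG.s_pos, hG.s_lt, hG.t_pos, hG.t_lt, hG.κ_pos, hG.κ_s, hG.κ_t, ?_, ?_⟩
  · intro z w hw w' hw' h h'
    have := hG.K1 z _ (rho_sq.2 hw) _ (rho_sq.2 hw') h h'
    rwa [norm_rhoR] at this
  · intro z w hw h
    rw [image_rho fun w => rho_sqo]
    exact hG.K2 z _ (rho_rc.2 hw) h

lemma Lf_rho : Lf (q ∘ rhoR) ε s t = Lf q ε s t := by
  ext z
  constructor
  · rintro ⟨⟨w, hw, h⟩, h2⟩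
    refine ⟨⟨rhoR w, rho_rc.2 hw, h⟩, fun w' hw' h' => ?_⟩
    have := h2 (rhoR w') (rho_sq.2 hw') (by simpa [rho_rho] using h')
    simp at this
    constructor <;> linarith [this.1, this.2]
  · rintro ⟨⟨w, hw, h⟩, h2⟩
    refine ⟨⟨rhoR w, rho_rc.2 hw, by simpa [rho_rho] using h⟩, fun w' hw' h' => ?_⟩
    have := h2 (rhoR w') (rho_sq.2 hw') h'
    simp at this
    constructor <;> linarith [this.1, this.2]

lemma Bf_rho : Bf (q ∘ rhoR) ε t = Bf q ε t := by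
  ext z
  constructor
  · rintro ⟨w, hw, h, h2⟩
    exact ⟨rhoR w, rho_sq.2 hw, h, h2⟩
  · rintro ⟨w, hw, h, h2⟩
    exact ⟨rhoR w, rho_sq.2 hw, by simpa [rho_rho] using h, h2⟩

lemma Rch_rho : Rch (q ∘ rhoR) ε s t ω = Rch q ε s t ω := by
  unfold Rch
  rw [Lf_rho, Bf_rho]

lemma Cs_rho {Z : Set (ℤ × ℤ)} {w : ℂ} : rhoR w ∈ Cs (q ∘ rhoR) ε Z ↔ w ∈ Cs q ε Z := by
  constructor
  · rintro ⟨hw, z, hz, h⟩
    exact ⟨rho_sq.1 hw, z, hz, by simpa [rho_rho] using h⟩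
  · rintro ⟨hw, z, hz, h⟩
    exact ⟨rho_sq.2 hw, z, hz, by simpa [rho_rho] using h⟩

/-- the height of the tip of the exploration near the right side -/
noncomputable def tipR (q : ℂ → ℂ) (ε s κ : ℝ) (Z : Set (ℤ × ℤ)) : ℝ := tipL (q ∘ rhoR) ε s κ Z

theorem exit_all (hq : IsQuad q) (hG : Geo q ε s t κ) (hω : ∀ e ∈ ω, IsEdge e)
    {u v : ℂ} (hu : u.re = s) (hv : v.re = 1 - s)
    (hA : JoinedIn {w | w ∈ rc s (1 - s) t (1 - t) ∧ q w ∈ openSet ε ω} u v) {δ : ℝ → ℂ}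
    (hδ : Continuous δ) (hδs : ∀ x, δ x ∈ sq) (hδ0 : (δ 0).im = 0) (hδ1 : (δ 1).im = 1)
    (hδO : ∀ x ∈ Icc (0:ℝ) 1, q (δ x) ∉ openSet ε ω) :
    ∃ τ' ∈ Icc (0:ℝ) 1, (∀ x, τ' < x → x ≤ 1 → δ x ∉ Cs q ε (Rch q ε s t ω)) ∧
      (‖δ τ' - ⟨0, t⟩‖ ≤ s + 4 * κ ∨ ‖δ τ' - ⟨1, t⟩‖ ≤ s + 4 * κ ∨
        ((∃ w ∈ Cs q ε (Rch q ε s t ω), w.re ≤ s + κ) ∧
          ‖δ τ' - ⟨0, tipL q ε s κ (Rch q ε s t ω)⟩‖ ≤ s + 4 * κ) ∨
        ((∃ w ∈ Cs q ε (Rch q ε s t ω), 1 - s - κ ≤ w.re) ∧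
          ‖δ τ' - ⟨1, tipR q ε s κ (Rch q ε s t ω)⟩‖ ≤ s + 4 * κ)) := by
  have hε := hG.ε_pos
  have hκ := hG.κ_pos
  have hs := hG.s_pos
  have ht := hG.t_pos
  have hs4 := hG.s_lt
  have ht4 := hG.t_lt
  set R := Rch q ε s t ω with hR
  have hRL : R ⊆ Lf q ε s t := Reach.sub
  have hCc : IsClosed (Cs q ε R) := (isCompact_Cs hq hε R).isClosed
  have hZ : IsClosed (Cs q ε R ∪ {w : ℂ | w.im ≤ t}) :=
    hCc.union (isClosed_le Complex.continuous_im continuous_const)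
  obtain ⟨τ, hτ, hτZ, hτm⟩ := last_time hδ hZ (zero_le_one) (Or.inr (by
    show (δ 0).im ≤ t
    rw [hδ0]; exact ht.le))
  have h1 : ∀ x, τ < x → x ≤ 1 → δ x ∉ Cs q ε R ∧ t < (δ x).im := by
    intro x hx hx1
    have := hτm x hx hx1
    rw [mem_union, not_or] at this
    exact ⟨this.1, not_le.1 this.2⟩
  have hτ1 : τ < 1 := by
    refine lt_of_le_of_ne hτ.2 ?_
    rintro rfl
    rcases hτZ with h | h
    · have := below_ceiling hq hG hω hu hv hA h
      rw [hδ1] at this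
      linarith
    · have : (δ 1).im ≤ t := h
      rw [hδ1] at this
      linarith
  -- the height at the exit
  have htτ : t ≤ (δ τ).im := by
    have hc : ContinuousWithinAt (fun x => (δ x).im) (Ioi τ) τ :=
      (Complex.continuous_im.comp hδ).continuousWithinAt
    refine ge_of_tendsto hc ?_
    filter_upwards [Ioc_mem_nhdsGT hτ1] with x hx using (h1 x hx.1 hx.2).2.le
  have hqδ : Continuous fun x => q (δ x) := hq.cont.comp_continuous hδ hδs
  -- the corners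
  have corner : (δ τ).im = t → (δ τ).re ≤ s + κ ∨ 1 - s - κ ≤ (δ τ).re →
      ‖δ τ - ⟨0, t⟩‖ ≤ s + 4 * κ ∨ ‖δ τ - ⟨1, t⟩‖ ≤ s + 4 * κ := by
    intro e h
    have h0 := (hδs τ).1
    have h01 := (hδs τ).2.1
    rcases h with h | h
    · left
      refine (norm_le_add (a := s + κ) (b := 0) ?_ ?_).trans (by linarith)
      · rw [abs_le]; constructor <;> linarith
      · rw [e, sub_self, abs_zero]
    · right
      refine (norm_le_add (a := s + κ) (b := 0) ?_ ?_).trans (by linarith)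
      · rw [abs_le]; constructor <;> linarith
      · rw [e, sub_self, abs_zero]
  by_cases hC : δ τ ∈ Cs q ε R
  · -- exit from the explored region
    obtain ⟨hds, z0, hz0, hdz⟩ := hC
    have hrc : δ τ ∈ rc s (1 - s) t (1 - t) :=
      ⟨((hRL hz0).2 _ hds hdz).1, ((hRL hz0).2 _ hds hdz).2, htτ,
        below_ceiling hq hG hω hu hv hA ⟨hds, z0, hz0, hdz⟩⟩
    -- a later point, in a face which is not reached
    have hev : ∀ᶠ x in 𝓝[>] τ, ∀ z, q (δ x) ∈ face ε z → q (δ τ) ∈ face ε z :=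
      (hqδ.continuousAt.eventually (near_face hε (q (δ τ)))).filter_mono nhdsWithin_le_nhds
    obtain ⟨x1, hx1, hx1'⟩ := (hev.and (Ioc_mem_nhdsGT hτ1)).exists
    obtain ⟨f1, hf1⟩ := exists_face hε (q (δ x1))
    have hf1R : f1 ∉ R := fun h => (h1 x1 hx1'.1 hx1'.2).1 ⟨hδs x1, f1, h, hf1⟩
    obtain ⟨f, hfL, hff⟩ : ∃ f, f ∉ Lf q ε s t ∧ q (δ τ) ∈ face ε f := by
      by_contra hcon
      push Not at hcon
      have hch := face_chain hε (hδO τ hτ) hdz (hx1 f1 hf1)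
      apply hf1R
      clear hf1 hf1R
      induction hch with
      | refl => exact hz0
      | tail _ h ih =>
        refine Reach.step ih ?_ h.1
        by_contra hn
        exact hcon _ hn h.2.2
    have hcase : ∃ w ∈ sq, q w ∈ face ε f ∧ (w.re < s ∨ 1 - s < w.re) := by
      by_contra hcon
      push Not at hcon
      exact hfL ⟨⟨δ τ, hrc, hff⟩, fun w hw hwf => hcon w hw hwf⟩
    obtain ⟨w, hw, hwf, hwr⟩ := hcase
    have hd := abs_re_le (hG.K1 f _ (hδs τ) _ hw hff hwf)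
    rcases hwr with hwr | hwr
    · obtain ⟨τ', hτ', h⟩ := exit_left hq hG hω hδ hδs hδ1 hτ h1 ⟨hds, z0, hz0, hdz⟩ hrc hff hfL hw
        hwf hwr
      refine ⟨τ', ⟨hτ.1.trans hτ'.1, hτ'.2⟩, fun x hx hx1 => (h1 x (hτ'.1.trans_lt hx) hx1).1, ?_⟩
      rcases h with h | h
      · exact Or.inl h
      · exact Or.inr (Or.inr (Or.inl ⟨⟨δ τ, ⟨hds, z0, hz0, hdz⟩, by linarith [hd.1]⟩, h⟩))
    · obtain ⟨τ', hτ', h⟩ := exit_left (δ := fun x => rhoR (δ x)) hq.rhoR hG.rhoR hω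
        (rho_cont.comp hδ) (fun x => rho_sq.2 (hδs x)) hδ1 hτ
        (fun x hx hx1 => by
          rw [Rch_rho]
          exact ⟨fun h => (h1 x hx hx1).1 (Cs_rho.1 h), (h1 x hx hx1).2⟩)
        (by rw [Rch_rho]; exact Cs_rho.2 ⟨hds, z0, hz0, hdz⟩) (rho_rc.2 hrc)
        (f := f) (by simpa [rho_rho] using hff) (by rw [Lf_rho]; exact hfL) (w := rhoR w)
        (rho_sq.2 hw) (by simpa [rho_rho] using hwf) (by simp; linarith)
      have e1 : ∀ y : ℝ, ‖rhoR (δ τ') - ⟨0, y⟩‖ = ‖δ τ' - ⟨1, y⟩‖ := by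
        intro y
        have : (⟨0, y⟩ : ℂ) = rhoR ⟨1, y⟩ := Complex.ext (by simp) (by simp)
        rw [this, norm_rhoR]
      rw [Rch_rho, e1, e1] at h
      refine ⟨τ', ⟨hτ.1.trans hτ'.1, hτ'.2⟩, fun x hx hx1 => (h1 x (hτ'.1.trans_lt hx) hx1).1, ?_⟩
      rcases h with h | h
      · exact Or.inr (Or.inl h)
      · exact Or.inr (Or.inr (Or.inr ⟨⟨δ τ, ⟨hds, z0, hz0, hdz⟩, by linarith [hd.2]⟩, h⟩))
  · -- exit from the floor
    have hfl : (δ τ).im ≤ t := by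
      rcases hτZ with h | h
      · exact absurd h hC
      · exact h
    have him : (δ τ).im = t := le_antisymm hfl htτ
    refine ⟨τ, hτ, fun x hx hx1 => (h1 x hx hx1).1, ?_⟩
    suffices h : (δ τ).re ≤ s + κ ∨ 1 - s - κ ≤ (δ τ).re by
      rcases corner him h with h | h
      · exact Or.inl h
      · exact Or.inr (Or.inl h)
    by_cases c1 : (δ τ).re < s
    · left; linarith
    by_cases c2 : 1 - s < (δ τ).re
    · right; linarith
    push Not at c1 c2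
    have hrc : δ τ ∈ rc s (1 - s) t (1 - t) := ⟨c1, c2, htτ, by linarith⟩
    -- points below
    set γ : ℝ → ℂ := fun x => ⟨(δ τ).re, max 0 (t - |x|)⟩ with hγ
    have hγc : Continuous γ := by
      have : γ = fun x => Complex.equivRealProdCLM.symm ((δ τ).re, max 0 (t - |x|)) := by
        funext x; rfl
      rw [this]
      exact Complex.equivRealProdCLM.symm.continuous.comp (by fun_prop)
    have hγs : ∀ x, γ x ∈ sq := fun x => ⟨(hδs τ).1, (hδs τ).2.1, le_max_left _ _,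
      max_le zero_le_one (by have := abs_nonneg x; linarith)⟩
    have hγ0 : γ 0 = δ τ := by
      apply Complex.ext
      · rfl
      · simp only [hγ, abs_zero, sub_zero]
        rw [max_eq_right ht.le, him]
    have hqγ : Continuous fun x => q (γ x) := hq.cont.comp_continuous hγc hγs
    have hev : ∀ᶠ x in 𝓝[>] (0:ℝ), ∀ z, q (γ x) ∈ face ε z → q (δ τ) ∈ face ε z := by
      have := (hqγ.continuousAt (x := 0)).eventually (near_face hε (q (γ 0)))
      rw [hγ0] at this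
      exact this.filter_mono nhdsWithin_le_nhds
    obtain ⟨x1, hx1, hx1'⟩ := (hev.and (Ioc_mem_nhdsGT ht)).exists
    obtain ⟨f1, hf1⟩ := exists_face hε (q (γ x1))
    have hB : f1 ∈ Bf q ε t := by
      refine ⟨γ x1, hγs x1, hf1, ?_⟩
      simp only [hγ]
      rw [abs_of_pos hx1'.1]
      exact max_lt ht (by linarith [hx1'.1])
    have hfL : f1 ∉ Lf q ε s t := by
      intro h
      exact hC ⟨hδs τ, f1, Reach.start hB h, hx1 f1 hf1⟩
    have hcase : ∃ w ∈ sq, q w ∈ face ε f1 ∧ (w.re < s ∨ 1 - s < w.re) := by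
      by_contra hcon
      push Not at hcon
      exact hfL ⟨⟨δ τ, hrc, hx1 f1 hf1⟩, fun w hw hwf => hcon w hw hwf⟩
    obtain ⟨w, hw, hwf, hwr⟩ := hcase
    have hd := abs_re_le (hG.K1 f1 _ (hδs τ) _ hw (hx1 f1 hf1) hwf)
    rcases hwr with hwr | hwr
    · left; linarith [hd.1]
    · right; linarith [hd.2]

end

end Full
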