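import Pool.Agent.Full.Rough.Exit

/-!
# The exit of a dual path: left side
-/

set_option autoImplicit false

open Set Filter Topology Complex H47Perc Relation

namespace Full

/-- the height of the tip of the exploration near the left side -/
noncomputable def tipL (q : ℂ → ℂ) (ε s κ : ℝ) (Z : Set (ℤ × ℤ)) : ℝ :=
  sSup (Complex.im '' (Cs q ε Z ∩ {w | w.re ≤ s + κ}))

lemma tipL_spec {q : ℂ → ℂ} (hq : IsQuad q) {ε s κ : ℝ} (hε : 0 < ε) {Z : Set (ℤ × ℤ)}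
    (hne : (Cs q ε Z ∩ {w | w.re ≤ s + κ}).Nonempty) :
    ∃ c ∈ Cs q ε Z, c.re ≤ s + κ ∧ c.im = tipL q ε s κ Z ∧
      ∀ w ∈ Cs q ε Z, w.re ≤ s + κ → w.im ≤ c.im := by
  have hc : IsCompact (Cs q ε Z ∩ {w | w.re ≤ s + κ}) :=
    (isCompact_Cs hq hε Z).inter_right (isClosed_le Complex.continuous_re continuous_const)
  obtain ⟨c, hc1, hc2⟩ := hc.exists_isMaxOn hne Complex.continuous_im.continuousOn
  refine ⟨c, hc1.1, hc1.2, ?_, fun w h1 h2 => hc2 ⟨h1, h2⟩⟩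
  have hgr : IsGreatest (Complex.im '' (Cs q ε Z ∩ {w | w.re ≤ s + κ})) c.im := by
    refine ⟨⟨c, hc1, rfl⟩, ?_⟩
    rintro _ ⟨w, hw, rfl⟩
    exact hc2 hw
  exact hgr.csSup_eq.symm

lemma joinedIn_curve {δ : ℝ → ℂ} (hδ : Continuous δ) {a b : ℝ} (hab : a ≤ b) {F : Set ℂ}
    (hF : ∀ x ∈ Icc a b, δ x ∈ F) : JoinedIn F (δ a) (δ b) := by
  have h1 : IsPathConnected (δ '' Icc a b) :=
    ((convex_Icc a b).isPathConnected ⟨a, le_rfl, hab⟩).image hδ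
  refine (h1.joinedIn _ ⟨a, ⟨le_rfl, hab⟩, rfl⟩ _ ⟨b, ⟨hab, le_rfl⟩, rfl⟩).mono ?_
  rintro _ ⟨x, hx, rfl⟩
  exact hF x hx

section
variable {q : ℂ → ℂ} {ε s t κ : ℝ} {ω : Finset (Sym2 (ℤ × ℤ))}

/-- two points of the closed face which are images of points of the square are joined through the
interior -/
lemma joined_in_face (hq : IsQuad q) (hε : 0 < ε) {z : ℤ × ℤ} (hz : face ε z ⊆ q '' sqo) {u v : ℂ}
    (hu : u ∈ sq) (hv : v ∈ sq) (huz : q u ∈ faceo ε z) (hvz : q v ∈ face ε z) :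
    JoinedIn {w | w ∈ sq ∧ (w = v ∨ q w ∈ faceo ε z)} u v := by
  have h1 : JoinedIn (insert (q v) (faceo ε z)) (q u) (fctr ε z) :=
    joinedIn_segment ((convex_faceo.segment_subset huz (fctr_mem hε z)).trans (subset_insert _ _))
  have h2 : JoinedIn (insert (q v) (faceo ε z)) (fctr ε z) (q v) :=
    joinedIn_segment (segment_fctr hε hvz)
  have h3 : insert (q v) (faceo ε z) ⊆ insert (q v) (faceo ε z) ∩ q '' sq := by
    rintro w (hw | hw)
    · exact ⟨Or.inl hw, v, hv, hw.symm⟩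
    · exact ⟨Or.inr hw, image_mono sqo_subset_sq (hz (faceo_subset_face hw))⟩
  have h4 := hq.pull hu hv ((h1.trans h2).mono h3)
  refine h4.mono ?_
  rintro w ⟨hw, hw' | hw'⟩
  · exact ⟨hw, Or.inl (hq.inj hw hv hw')⟩
  · exact ⟨hw, Or.inr hw'⟩

theorem exit_left (hq : IsQuad q) (hG : Geo q ε s t κ) (hω : ∀ e ∈ ω, IsEdge e) {δ : ℝ → ℂ}
    (hδ : Continuous δ) (hδs : ∀ x, δ x ∈ sq) (hδ1 : (δ 1).im = 1) {τ : ℝ}
    (hτ : τ ∈ Icc (0:ℝ) 1)
    (h1 : ∀ x, τ < x → x ≤ 1 → δ x ∉ Cs q ε (Rch q ε s t ω) ∧ t < (δ x).im)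
    (hw0 : δ τ ∈ Cs q ε (Rch q ε s t ω)) (hw1 : δ τ ∈ rc s (1 - s) t (1 - t)) {f : ℤ × ℤ}
    (hf : q (δ τ) ∈ face ε f) (hfR : f ∉ Lf q ε s t) {w : ℂ} (hw : w ∈ sq)
    (hwf : q w ∈ face ε f) (hws : w.re < s) :
    ∃ τ' ∈ Icc τ 1, ‖δ τ' - ⟨0, t⟩‖ ≤ s + 4 * κ ∨
      ‖δ τ' - ⟨0, tipL q ε s κ (Rch q ε s t ω)⟩‖ ≤ s + 4 * κ := by
  have hε := hG.ε_pos
  have hκ := hG.κ_pos
  have hs := hG.s_pos
  have hRL : Rch q ε s t ω ⊆ Lf q ε s t := Reach.sub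
  have hd := abs_re_le (hG.K1 f _ (hδs τ) _ hw hf hwf)
  have hre : (δ τ).re ≤ s + κ := by linarith [hd.1]
  have hre0 : 0 ≤ (δ τ).re := (hδs τ).1
  by_cases c1 : (δ τ).im ≤ t + 2 * κ
  · refine ⟨τ, ⟨le_rfl, hτ.2⟩, Or.inl ?_⟩
    refine (norm_le_add (a := s + κ) (b := 2 * κ) ?_ ?_).trans (by linarith)
    · rw [abs_le]; constructor <;> linarith
    · have := hw1.2.2.1
      rw [abs_le]; constructor <;> linarith
  push Not at c1
  obtain ⟨c, hcC, hcre, hcim, hcmax⟩ := tipL_spec (s := s) (κ := κ) hq hε ⟨δ τ, hw0, hre⟩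
  rw [← hcim]
  have hτc := hcmax _ hw0 hre
  by_cases c2 : c.im ≤ (δ τ).im + κ
  · refine ⟨τ, ⟨le_rfl, hτ.2⟩, Or.inr ?_⟩
    refine (norm_le_add (a := s + κ) (b := κ) ?_ ?_).trans (by linarith)
    · rw [abs_le]; constructor <;> linarith
    · rw [abs_le]; constructor <;> linarith
  push Not at c2
  -- the face `f` reaches the left strip
  have hfs : face ε f ⊆ q '' sqo := hG.K2 f _ hw1 hf
  obtain ⟨u, hu, hus, huf⟩ := exists_interior hq hε hfs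
    (isOpen_Iio.preimage Complex.continuous_re) hw hwf hws
  have hus' : u.re < s := hus
  have hud := abs_im_le (hG.K1 f _ (hδs τ) _ (sqo_subset_sq hu) hf (faceo_subset_face huf))
  obtain ⟨hcs, zc, hzc, hczc⟩ := hcC
  have hzcs : face ε zc ⊆ q '' sqo := hG.face_sub (hRL hzc)
  obtain ⟨m, hm, hmc⟩ := hzcs (faceo_subset_face (fctr_mem hε zc))
  obtain ⟨p, hp, hpt, hj⟩ := path_from_floor hq hG hω hzc hm (by rw [hmc]; exact fctr_mem hε zc)
  have hmf : q m ∈ faceo ε zc := by rw [hmc]; exact fctr_mem hε zc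
  -- the lower chord
  set G2 : Set ℂ := {w | w ∈ sq ∧ (w.im < t ∨ q w ∈ Gap ε ω (Rch q ε s t ω) ∨ w = c ∨
    (w.im = c.im ∧ w.re ≤ s + κ))} with hG2
  have j1 : JoinedIn G2 ⟨p.re, 0⟩ p := by
    apply joinedIn_segment
    intro y hy
    rw [mem_segment_vert (u := ⟨p.re, 0⟩) (v := p) rfl hp.2.2.1.le] at hy
    simp only at hy
    have h5 := hG.t_lt
    exact ⟨⟨by rw [hy.1]; exact hp.1.le, by rw [hy.1]; exact hp.2.1.le, hy.2.1, by linarith⟩,
      Or.inl (by linarith)⟩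
  have j2 : JoinedIn G2 p m := hj.mono fun y hy => ⟨hy.1, Or.inr (Or.inl hy.2)⟩
  have j3 : JoinedIn G2 m c := by
    refine (joined_in_face hq hε hzcs (sqo_subset_sq hm) hcs hmf hczc).mono ?_
    rintro y ⟨hy, hy' | hy'⟩
    · exact ⟨hy, Or.inr (Or.inr (Or.inl hy'))⟩
    · exact ⟨hy, Or.inr (Or.inl (faceo_subset_Gap hε hω hzc hy'))⟩
  have j4 : JoinedIn G2 c ⟨0, c.im⟩ := by
    apply JoinedIn.symm
    apply joinedIn_segment
    intro y hy
    rw [mem_segment_horiz (u := ⟨0, c.im⟩) (v := c) rfl hcs.1] at hy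
    simp only at hy
    exact ⟨⟨hy.2.1, by linarith [hcs.2.1], by rw [hy.1]; exact hcs.2.2.1,
      by rw [hy.1]; exact hcs.2.2.2⟩, Or.inr (Or.inr (Or.inr ⟨hy.1, by linarith⟩))⟩
  have J2 : JoinedIn G2 ⟨p.re, 0⟩ ⟨0, c.im⟩ := ((j1.trans j2).trans j3).trans j4
  -- the upper chord
  set F1 : Set ℂ := {w | w ∈ sq ∧ ((w.re < s ∧ w.im = u.im) ∨ q w ∈ faceo ε f ∨
    ∃ x ∈ Icc τ 1, w = δ x)} with hF1
  have k1 : JoinedIn F1 ⟨0, u.im⟩ u := by
    apply joinedIn_segment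
    intro y hy
    rw [mem_segment_horiz (u := ⟨0, u.im⟩) (v := u) rfl hu.1.le] at hy
    simp only at hy
    exact ⟨⟨hy.2.1, by linarith [hu.2.1], by rw [hy.1]; exact hu.2.2.1.le,
      by rw [hy.1]; exact hu.2.2.2.le⟩, Or.inl ⟨by linarith, hy.1⟩⟩
  have k2 : JoinedIn F1 u (δ τ) := by
    refine (joined_in_face hq hε hfs (sqo_subset_sq hu) (hδs τ) huf hf).mono ?_
    rintro y ⟨hy, hy' | hy'⟩
    · exact ⟨hy, Or.inr (Or.inr ⟨τ, ⟨le_rfl, hτ.2⟩, hy'⟩)⟩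
    · exact ⟨hy, Or.inr (Or.inl hy')⟩
  have k3 : JoinedIn F1 (δ τ) (δ 1) :=
    joinedIn_curve hδ hτ.2 fun x hx => ⟨hδs x, Or.inr (Or.inr ⟨x, hx, rfl⟩)⟩
  have J1 : JoinedIn F1 ⟨0, u.im⟩ (δ 1) := (k1.trans k2).trans k3
  obtain ⟨y, hy1, hy2⟩ := interlace (fun w hw => hw.1) (fun w hw => hw.1)
    (by linarith [hud.2] : u.im < c.im) hδ1 rfl J1 J2
  obtain ⟨hys, hy1⟩ := hy1
  obtain ⟨-, hy2⟩ := hy2
  rcases hy1 with ⟨hy3, hy4⟩ | hy3 | ⟨x, hx, hyx⟩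
  · -- left strip
    exfalso
    rcases hy2 with h | h | h | h
    · linarith [hud.1]
    · have := strip_of_gap hG hRL hys h
      linarith [this.1]
    · rw [h] at hy4; linarith [hud.2]
    · linarith [hud.2, h.1]
  · -- interior of `f`
    exfalso
    have hyd := abs_im_le (hG.K1 f _ (hδs τ) _ hys hf (faceo_subset_face hy3))
    rcases hy2 with h | h | h | h
    · linarith [hyd.1]
    · exact hfR (hRL (h.2 f (faceo_subset_face hy3)))
    · rw [h] at hyd; linarith [hyd.2]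
    · linarith [hyd.2, h.1]
  · rcases eq_or_lt_of_le hx.1 with hx1 | hx1
    · exfalso
      rw [← hx1] at hyx
      rw [hyx] at hy2
      rcases hy2 with h | h | h | h
      · linarith
      · exact hfR (hRL (h.2 f hf))
      · have := congrArg Complex.im h
        linarith
      · linarith [h.1]
    · have h2 := h1 x hx1 hx.2
      rw [hyx] at hy2
      rcases hy2 with h | h | h | h
      · exfalso; linarith [h2.2]
      · exfalso
        obtain ⟨z, hz⟩ := exists_face hε (q (δ x))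
        exact h2.1 ⟨hδs x, z, h.2 z hz, hz⟩
      · exact absurd ⟨hcs, zc, hzc, hczc⟩ (h ▸ h2.1)
      · refine ⟨x, hx, Or.inr ?_⟩
        refine (norm_le_add (a := s + κ) (b := 0) ?_ ?_).trans (by linarith)
        · have := (hδs x).1
          rw [abs_le]; constructor <;> linarith [h.2]
        · rw [h.1, sub_self, abs_zero]

end

end Full
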