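import Pool.Agent.Full.Rough.Graph

/-!
# Faces of the lattice and exploration of dual clusters
-/

set_option autoImplicit false

open Set Filter Topology Complex H47Perc

namespace Full

/-- closed faces -/
def face (ε : ℝ) (z : ℤ × ℤ) : Set ℂ :=
  {w | ε * z.1 ≤ w.re ∧ w.re ≤ ε * (z.1 + 1) ∧ ε * z.2 ≤ w.im ∧ w.im ≤ ε * (z.2 + 1)}

/-- open faces -/
def faceo (ε : ℝ) (z : ℤ × ℤ) : Set ℂ :=
  {w | ε * z.1 < w.re ∧ w.re < ε * (z.1 + 1) ∧ ε * z.2 < w.im ∧ w.im < ε * (z.2 + 1)}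

/-- the centre of a face -/
noncomputable def fctr (ε : ℝ) (z : ℤ × ℤ) : ℂ := ⟨ε * (z.1 + 1/2), ε * (z.2 + 1/2)⟩

lemma mem_face {ε : ℝ} {z : ℤ × ℤ} {w : ℂ} : w ∈ face ε z ↔
    ε * z.1 ≤ w.re ∧ w.re ≤ ε * (z.1 + 1) ∧ ε * z.2 ≤ w.im ∧ w.im ≤ ε * (z.2 + 1) := Iff.rfl

lemma mem_faceo {ε : ℝ} {z : ℤ × ℤ} {w : ℂ} : w ∈ faceo ε z ↔
    ε * z.1 < w.re ∧ w.re < ε * (z.1 + 1) ∧ ε * z.2 < w.im ∧ w.im < ε * (z.2 + 1) := Iff.rfl

lemma faceo_subset_face {ε : ℝ} {z : ℤ × ℤ} : faceo ε z ⊆ face ε z :=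
  fun _ h => ⟨h.1.le, h.2.1.le, h.2.2.1.le, h.2.2.2.le⟩

lemma isClosed_face {ε : ℝ} {z : ℤ × ℤ} : IsClosed (face ε z) := isClosed_rc

lemma exists_face {ε : ℝ} (hε : 0 < ε) (w : ℂ) : ∃ z, w ∈ face ε z := by
  refine ⟨(⌊w.re / ε⌋, ⌊w.im / ε⌋), ?_, ?_, ?_, ?_⟩
  · have := Int.floor_le (w.re / ε)
    rw [le_div_iff₀ hε] at this; linarith
  · have := (Int.lt_floor_add_one (w.re / ε)).le
    rw [div_le_iff₀ hε] at this; linarith
  · have := Int.floor_le (w.im / ε)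
    rw [le_div_iff₀ hε] at this; linarith
  · have := (Int.lt_floor_add_one (w.im / ε)).le
    rw [div_le_iff₀ hε] at this; linarith

lemma fctr_mem {ε : ℝ} (hε : 0 < ε) (z : ℤ × ℤ) : fctr ε z ∈ faceo ε z := by
  refine ⟨?_, ?_, ?_, ?_⟩ <;> simp only [fctr] <;> nlinarith

lemma lt_of_mul_lt' {ε : ℝ} (hε : 0 < ε) {a b : ℤ} (h : ε * a < ε * b) : a < b := by
  exact_mod_cast lt_of_mul_lt_mul_left h hε.le

lemma face_unique {ε : ℝ} (hε : 0 < ε) {z z' : ℤ × ℤ} {w : ℂ} (h : w ∈ faceo ε z)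
    (h' : w ∈ face ε z') : z' = z := by
  have h1 : z'.1 < z.1 + 1 := lt_of_mul_lt' hε (by push_cast; linarith [h.2.1, h'.1])
  have h2 : z.1 < z'.1 + 1 := lt_of_mul_lt' hε (by push_cast; linarith [h.1, h'.2.1])
  have h3 : z'.2 < z.2 + 1 := lt_of_mul_lt' hε (by push_cast; linarith [h.2.2.2, h'.2.2.1])
  have h4 : z.2 < z'.2 + 1 := lt_of_mul_lt' hε (by push_cast; linarith [h.2.2.1, h'.2.2.2])
  exact Prod.ext (by omega) (by omega)

/-- two faces with a common point are close -/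
lemma face_near {ε : ℝ} (hε : 0 < ε) {z z' : ℤ × ℤ} {w : ℂ} (h : w ∈ face ε z)
    (h' : w ∈ face ε z') : z'.1 ≤ z.1 + 1 ∧ z.1 ≤ z'.1 + 1 ∧ z'.2 ≤ z.2 + 1 ∧ z.2 ≤ z'.2 + 1 := by
  refine ⟨?_, ?_, ?_, ?_⟩
  · exact le_of_mul_le' hε (by push_cast; linarith [h.2.1, h'.1])
  · exact le_of_mul_le' hε (by push_cast; linarith [h.1, h'.2.1])
  · exact le_of_mul_le' hε (by push_cast; linarith [h.2.2.2, h'.2.2.1])
  · exact le_of_mul_le' hε (by push_cast; linarith [h.2.2.1, h'.2.2.2])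

/-- a face is in the closure of its interior -/
lemma face_subset_closure {ε : ℝ} (hε : 0 < ε) {z : ℤ × ℤ} : face ε z ⊆ closure (faceo ε z) := by
  intro w hw
  rw [mem_closure_iff_seq_limit]
  refine ⟨fun n => w + ((1 / ((n:ℝ) + 1) : ℝ) : ℂ) * (fctr ε z - w), fun n => ?_, ?_⟩
  · have hn : 0 < 1 / ((n:ℝ) + 1) := by positivity
    have hn1 : 1 / ((n:ℝ) + 1) ≤ 1 := by
      rw [div_le_one (by positivity)]
      have : (0:ℝ) ≤ n := Nat.cast_nonneg n
      linarith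
    set r := 1 / ((n:ℝ) + 1)
    have hc := fctr_mem hε z
    rw [mem_face] at hw
    rw [mem_faceo] at hc ⊢
    simp only [add_re, add_im, re_ofReal_mul, im_ofReal_mul, sub_re, sub_im]
    refine ⟨?_, ?_, ?_, ?_⟩ <;> nlinarith
  · have h1 : Tendsto (fun n : ℕ => (1 / ((n:ℝ) + 1) : ℝ)) atTop (𝓝 0) :=
      tendsto_one_div_add_atTop_nhds_zero_nat
    have h2 : Tendsto (fun n : ℕ => w + ((1 / ((n:ℝ) + 1) : ℝ) : ℂ) * (fctr ε z - w)) atTop
        (𝓝 (w + ((0:ℝ) : ℂ) * (fctr ε z - w))) :=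
      tendsto_const_nhds.add (((Complex.continuous_ofReal.tendsto _).comp h1).mul_const _)
    simpa using h2

lemma convex_faceo {ε : ℝ} {z : ℤ × ℤ} : Convex ℝ (faceo ε z) := by
  intro x hx y hy u v hu hv huv
  rw [mem_faceo] at hx hy ⊢
  simp only [add_re, add_im, real_smul, re_ofReal_mul, im_ofReal_mul]
  have key : ∀ a b c : ℝ, a < b → a < c → a < u * b + v * c := by
    intro a b c h1 h2
    have : a = u * a + v * a := by rw [← add_mul, huv, one_mul]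
    rw [this]
    rcases eq_or_lt_of_le hu with h | h
    · have : v = 1 := by linarith
      rw [← h, this]; linarith
    · have h3 := mul_lt_mul_of_pos_left h1 h
      have h4 := mul_le_mul_of_nonneg_left h2.le hv
      linarith
  have key' : ∀ a b c : ℝ, b < a → c < a → u * b + v * c < a := by
    intro a b c h1 h2
    have := key (-a) (-b) (-c) (by linarith) (by linarith)
    linarith
  exact ⟨key _ _ _ hx.1 hy.1, key' _ _ _ hx.2.1 hy.2.1, key _ _ _ hx.2.2.1 hy.2.2.1,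
    key' _ _ _ hx.2.2.2 hy.2.2.2⟩

/-- the segment from the centre of a face to a point of the face is in the interior, up to its end -/
lemma segment_fctr {ε : ℝ} (hε : 0 < ε) {z : ℤ × ℤ} {w : ℂ} (hw : w ∈ face ε z) :
    segment ℝ (fctr ε z) w ⊆ insert w (faceo ε z) := by
  rintro _ ⟨u, v, hu, hv, huv, rfl⟩
  rcases eq_or_lt_of_le hu with h | h
  · left
    have : v = 1 := by linarith
    rw [← h, this]; simp
  · right
    have hc := fctr_mem hε z
    rw [mem_face] at hw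
    rw [mem_faceo] at hc ⊢
    have hv' : v = 1 - u := by linarith
    subst hv'
    simp only [add_re, add_im, real_smul, re_ofReal_mul, im_ofReal_mul]
    refine ⟨?_, ?_, ?_, ?_⟩ <;> nlinarith

/-- local finiteness of the faces -/
lemma face_locallyFinite {ε : ℝ} (hε : 0 < ε) : LocallyFinite (face ε) := by
  intro x
  refine ⟨Metric.ball x ε, Metric.ball_mem_nhds x hε, ?_⟩
  obtain ⟨z₀, hz₀⟩ := exists_face hε x
  apply (Set.finite_Icc (z₀ - (2, 2)) (z₀ + (2, 2))).subset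
  rintro z ⟨w, hw, hwx⟩
  rw [Metric.mem_ball, Complex.dist_eq] at hwx
  have h1 := (Complex.abs_re_le_norm (w - x)).trans hwx.le
  have h2 := (Complex.abs_im_le_norm (w - x)).trans hwx.le
  rw [sub_re, abs_le] at h1
  rw [sub_im, abs_le] at h2
  rw [mem_face] at hw hz₀
  have g1 : z.1 ≤ z₀.1 + 2 := le_of_mul_le' hε (by push_cast; linarith [hw.1, hz₀.2.1, h1.2])
  have g2 : z₀.1 ≤ z.1 + 2 := le_of_mul_le' hε (by push_cast; linarith [hw.2.1, hz₀.1, h1.1])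
  have g3 : z.2 ≤ z₀.2 + 2 := le_of_mul_le' hε (by push_cast; linarith [hw.2.2.1, hz₀.2.2.2, h2.2])
  have g4 : z₀.2 ≤ z.2 + 2 := le_of_mul_le' hε (by push_cast; linarith [hw.2.2.2, hz₀.2.2.1, h2.1])
  rw [mem_Icc, Prod.le_def, Prod.le_def]
  simp only [Prod.fst_sub, Prod.snd_sub, Prod.fst_add, Prod.snd_add]
  omega

/-- faces which contain points close to `w` contain `w` -/
lemma near_face {ε : ℝ} (hε : 0 < ε) (w : ℂ) : ∀ᶠ w' in 𝓝 w, ∀ z, w' ∈ face ε z → w ∈ face ε z := by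
  have h := (face_locallyFinite hε).closure.eventually_subset (fun _ => isClosed_closure) w
  filter_upwards [h] with y hy z hz
  have : z ∈ {i | y ∈ closure (face ε i)} := subset_closure hz
  have h2 := hy this
  have h3 : w ∈ closure (face ε z) := h2
  rwa [isClosed_face.closure_eq] at h3

/-- unions of faces are closed -/
lemma isClosed_iUnion_face {ε : ℝ} (hε : 0 < ε) (Z : Set (ℤ × ℤ)) :
    IsClosed {w | ∃ z ∈ Z, w ∈ face ε z} := by
  rw [← isOpen_compl_iff, isOpen_iff_mem_nhds]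
  intro w hw
  filter_upwards [near_face hε w] with w' hw' hcon
  obtain ⟨z, hz, h⟩ := hcon
  exact hw ⟨z, hz, hw' z h⟩

end Full
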