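import Pool.Agent.Full.Rough.Estimate

/-!
# The estimate for inner rectangles, uniformly in translations of the lattice
-/

set_option autoImplicit false

open Set Filter Topology Complex H47Perc Relation
open Pool.Agent.Helper69.RSW (P P_restrict P_congr P_mono P_nonneg P_or_le Dep)

namespace Full

lemma exists_theta {C a η : ℝ} (hC : 0 < C) (ha : 0 < a) (hη : 0 < η) :
    ∃ θ : ℝ, 0 < θ ∧ θ ≤ 1 ∧ C * θ ^ a ≤ η := by
  refine ⟨min 1 ((η / C) ^ (1 / a)), lt_min one_pos (by positivity), min_le_left _ _, ?_⟩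
  have h1 : (min 1 ((η / C) ^ (1 / a))) ^ a ≤ ((η / C) ^ (1 / a)) ^ a :=
    Real.rpow_le_rpow (le_min zero_le_one (by positivity)) (min_le_right _ _) ha.le
  rw [← Real.rpow_mul (by positivity), one_div, inv_mul_cancel₀ ha.ne', Real.rpow_one] at h1
  have h2 := mul_le_mul_of_nonneg_left h1 hC.le
  have h3 : C * (η / C) = η := by field_simp
  rw [h3, ← one_div] at h2
  exact h2

/-- **The inner rectangle estimate.** -/
theorem inner_crossed {q : ℂ → ℂ} (hq : IsQuad q) {η : ℝ} (hη : 0 < η) :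
    ∃ s₀ : ℝ, 0 < s₀ ∧ s₀ ≤ 1/4 ∧ ∀ s t : ℝ, 0 < s → s < s₀ → 0 < t → t < 1/4 →
      ∃ ε₀ : ℝ, 0 < ε₀ ∧ ∀ ε : ℝ, 0 < ε → ε < ε₀ → ∀ (a : ℂ) (S : Finset (ℤ × ℤ)),
        (∀ z : ℤ × ℤ, Metric.infDist (pos ε z) ((fun w => q w + a) '' sq) ≤ ε → z ∈ S) →
        perc half S (fun ω => CrossR (fun w => q w + a) ε ω s (1 - s) t (1 - t) ∧
          ¬ CrossR (fun w => q w + a) ε ω 0 1 0 1) ≤ η := by
  obtain ⟨C, a', hC, ha', hN⟩ := noR_prob
  obtain ⟨θ, hθ, hθ1, hθη⟩ := exists_theta hC ha' (by linarith : 0 < η / 6)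
  have c01 : (⟨0, 1⟩ : ℂ) ∈ sq := ⟨le_rfl, zero_le_one, zero_le_one, le_rfl⟩
  have c11 : (⟨1, 1⟩ : ℂ) ∈ sq := ⟨zero_le_one, le_rfl, zero_le_one, le_rfl⟩
  -- `r₃`
  obtain ⟨r₃, hr₃, h3⟩ := hq.dist_pos (A := {w | w ∈ sq ∧ w.im ≤ 1/4}) (B := {⟨0, 1⟩, ⟨1, 1⟩})
    (isCompact_sq.isClosed.inter (isClosed_le Complex.continuous_im continuous_const))
    (Set.toFinite _).isClosed (fun w hw => hw.1)
    (by rintro w (rfl | rfl); exacts [c01, c11])
    (by
      rw [disjoint_left]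
      rintro w ⟨-, hw⟩ (rfl | rfl)
      · simp only at hw; norm_num at hw
      · simp only at hw; norm_num at hw)
  set r₄ := θ * r₃ / 12 with hr₄
  have hr4pos : 0 < r₄ := by positivity
  obtain ⟨d₄, hd₄, h4⟩ := hq.modulus hr4pos
  set ρ := min (1/2) (d₄ / 2) with hρ
  have hρpos : 0 < ρ := lt_min (by norm_num) (by linarith)
  have hρ1 : ρ ≤ 1/2 := min_le_left _ _
  have hρ2 : ρ ≤ d₄ / 2 := min_le_right _ _
  obtain ⟨r₂, hr₂, h2⟩ := hq.dist_pos
    (A := {w | w ∈ sq ∧ w.im = 1}) (B := {w | w ∈ sq ∧ ((w.re = 0 ∨ w.re = 1) ∧ w.im ≤ 1 - ρ)})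
    (isCompact_sq.isClosed.inter (isClosed_eq Complex.continuous_im continuous_const))
    (isCompact_sq.isClosed.inter
      (((isClosed_eq Complex.continuous_re continuous_const).union
        (isClosed_eq Complex.continuous_re continuous_const)).inter
        (isClosed_le Complex.continuous_im continuous_const)))
    (fun w hw => hw.1) (fun w hw => hw.1)
    (by
      rw [disjoint_left]
      rintro w ⟨-, hw⟩ ⟨-, -, hw'⟩
      linarith)
  set r₁ := θ * r₂ / 12 with hr₁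
  have hr1pos : 0 < r₁ := by positivity
  obtain ⟨d₁, hd₁, h1⟩ := hq.modulus hr1pos
  refine ⟨min (1/4) (min (d₄ / 8) (d₁ / 5)), lt_min (by norm_num) (lt_min (by linarith)
    (by linarith)), min_le_left _ _, fun s t hs hs0 ht ht4 => ?_⟩
  have hs1 : s < 1/4 := hs0.trans_le (min_le_left _ _)
  have hs2 : s < d₄ / 8 := hs0.trans_le ((min_le_right _ _).trans (min_le_left _ _))
  have hs3 : s < d₁ / 5 := hs0.trans_le ((min_le_right _ _).trans (min_le_right _ _))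
  have hκ : 0 < min s t := lt_min hs ht
  obtain ⟨ε₁, hε₁, hG⟩ := geo_exists hq hs hs1 ht ht4 hκ (min_le_left _ _) (min_le_right _ _)
  have hκs : min s t ≤ s := min_le_left _ _
  refine ⟨min ε₁ (min r₁ r₄), lt_min hε₁ (lt_min hr1pos hr4pos), fun ε hε hε0 a S hS => ?_⟩
  have e1 : ε < ε₁ := hε0.trans_le (min_le_left _ _)
  have e2 : ε < r₁ := hε0.trans_le ((min_le_right _ _).trans (min_le_left _ _))
  have e3 : ε < r₄ := hε0.trans_le ((min_le_right _ _).trans (min_le_right _ _))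
  have hM : Metr (fun w => q w + a) s (min s t) ρ r₁ r₂ r₃ r₄ := by
    refine ⟨hr1pos.le, hr4pos.le, by linarith, ?_, ?_, ?_, ?_⟩
    · intro w hw w' hw' h
      rw [add_sub_add_right_eq_sub]
      exact (h1 w hw w' hw' (by linarith)).le
    · intro y hy0 hy1 w hw hw1
      rw [add_sub_add_right_eq_sub, add_sub_add_right_eq_sub]
      exact ⟨h2 w ⟨hw, hw1⟩ ⟨0, y⟩ ⟨⟨le_rfl, zero_le_one, hy0, by simp only; linarith⟩, Or.inl rfl, hy1⟩,
        h2 w ⟨hw, hw1⟩ ⟨1, y⟩ ⟨⟨zero_le_one, le_rfl, hy0, by simp only; linarith⟩, Or.inr rfl, hy1⟩⟩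
    · intro w hw hw1
      rw [add_sub_add_right_eq_sub, add_sub_add_right_eq_sub]
      exact ⟨h3 w ⟨hw, hw1⟩ _ (Or.inl rfl), h3 w ⟨hw, hw1⟩ _ (Or.inr rfl)⟩
    · intro w hw
      rw [add_sub_add_right_eq_sub, add_sub_add_right_eq_sub]
      exact ⟨fun h => (h4 w hw _ c01 (by linarith)).le, fun h => (h4 w hw _ c11 (by linarith)).le⟩
  have hq1 : 12 * r₁ / r₂ = θ := by rw [hr₁]; field_simp
  have hq2 : 12 * r₄ / r₃ = θ := by rw [hr₄]; field_simp
  have := bad_prob hN (hq.add a) (hG ε hε e1 a) hM e2.le (by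
      have : θ * r₂ ≤ 1 * r₂ := mul_le_mul_of_nonneg_right hθ1 hr₂.le
      rw [hr₁]; linarith) e3.le (by
      have : θ * r₃ ≤ 1 * r₃ := mul_le_mul_of_nonneg_right hθ1 hr₃.le
      rw [hr₄]; linarith) hS (g := η / 6) (by rw [hq1]; exact hθη) (by rw [hq2]; exact hθη)
  linarith

end Full
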