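import Pool.Agent.Full.Rough.DualCross

/-!
# The estimate in the other direction (by duality)
-/

set_option autoImplicit false

open Set Filter Topology Complex H47Perc Relation
open Pool.Agent.Helper69.RSW (P P_restrict P_congr P_mono P_nonneg P_or_le Dep)

namespace Full

lemma sq_nonempty : sq.Nonempty := ⟨0, by norm_num [sq]⟩

lemma mem_box_of_mem {N : ℕ} {z : ℤ × ℤ} (h : z ∈ Finset.Icc (-(N:ℤ), -(N:ℤ)) ((N:ℤ), (N:ℤ))) :
    ∀ i j : ℤ, 0 ≤ i → i ≤ 1 → 0 ≤ j → j ≤ 1 →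
      (z.1 + i, z.2 + j) ∈ Finset.Icc (-((N + 1 : ℕ):ℤ), -((N + 1 : ℕ):ℤ))
        (((N + 1 : ℕ):ℤ), ((N + 1 : ℕ):ℤ)) := by
  intro i j h1 h2 h3 h4
  rw [Finset.mem_Icc, Prod.le_def, Prod.le_def] at h ⊢
  simp only at h ⊢
  push_cast
  omega

/-- **The outer estimate.** -/
theorem outer_crossed {q : ℂ → ℂ} (hq : IsQuad q) {η : ℝ} (hη : 0 < η) :
    ∃ t₀ : ℝ, 0 < t₀ ∧ t₀ ≤ 1/4 ∧ ∀ s t : ℝ, 0 < s → s < 1/4 → 0 < t → t < t₀ →
      ∃ ε₀ : ℝ, 0 < ε₀ ∧ ∀ ε : ℝ, 0 < ε → ε < ε₀ → ∀ (S : Finset (ℤ × ℤ)),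
        (∀ z : ℤ × ℤ, Metric.infDist (pos ε z) (q '' sq) ≤ ε → z ∈ S) →
        perc half S (fun ω => CrossR q ε ω 0 1 0 1 ∧
          ¬ CrossR q ε ω s (1 - s) t (1 - t)) ≤ η := by
  classical
  obtain ⟨s₀, hs₀, hs₀4, hin⟩ := inner_crossed hq.trn hη
  refine ⟨s₀ / 2, by linarith, by linarith, fun s t hs hs4 ht ht0 => ?_⟩
  have hm : 0 < min s t := lt_min hs ht
  have hms : min s t ≤ s := min_le_left _ _
  have hmt : min s t ≤ t := min_le_right _ _
  set κ := min s t / 2 with hκ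
  have hκ0 : 0 < κ := by rw [hκ]; linarith
  have hκs : κ < s := by rw [hκ]; linarith
  have hκt : κ < t := by rw [hκ]; linarith
  obtain ⟨ε₁, hε₁, hG⟩ := geo_exists hq hs hs4 ht (by linarith) hκ0 hκs.le hκt.le
  obtain ⟨ε₂, hε₂, hI⟩ := hin (t + κ) (s - κ) (by linarith) (by linarith) (by linarith) (by linarith)
  refine ⟨min ε₁ ε₂, lt_min hε₁ hε₂, fun ε hε hε0 S hS => ?_⟩
  have hGε : Geo q ε s t κ := by
    have := hG ε hε (hε0.trans_le (min_le_left _ _)) 0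
    simpa using this
  -- the sets of vertices
  set q' : ℂ → ℂ := fun w => q (trn w) + sh ε with hq'
  have hq'Q : IsQuad q' := hq.trn.add (sh ε)
  obtain ⟨N, hN⟩ := exists_cover (isCompact_sq.image_of_continuousOn hq'Q.cont).isBounded
    (sq_nonempty.image _) hε
  set S₂ : Finset (ℤ × ℤ) := Finset.Icc (-(N:ℤ), -(N:ℤ)) ((N:ℤ), (N:ℤ)) with hS₂
  set S₁ : Finset (ℤ × ℤ) := S ∪ Finset.Icc (-((N + 1 : ℕ):ℤ), -((N + 1 : ℕ):ℤ))
        (((N + 1 : ℕ):ℤ), ((N + 1 : ℕ):ℤ)) with hS₁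
  have hbd := hI ε hε (hε0.trans_le (min_le_right _ _)) (sh ε) S₂ hN
  rw [Pool.Agent.Helper69.RSW.perc_half_eq] at hbd
  set F := edgesIn S₁ with hF
  have hedge : ∀ ω ⊆ F, ∀ e ∈ ω, IsEdge e := fun ω hω e he => edgesIn_cases (hω he)
  set E : Finset (Sym2 (ℤ × ℤ)) → Prop :=
    fun ω => CrossR q ε ω 0 1 0 1 ∧ ¬ CrossR q ε ω s (1 - s) t (1 - t) with hE
  have hEi : ∀ ω ⊆ F, (E ω ↔ E (ω ∩ edgesIn S)) := by
    intro ω hω
    exact and_congr (CrossR.inter hε (hedge ω hω) hS le_rfl le_rfl le_rfl le_rfl)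
      (not_congr (CrossR.inter hε (hedge ω hω) hS hs.le (by linarith) ht.le (by linarith)))
  have hPE : perc half S E = P F E := by
    rw [Pool.Agent.Helper69.RSW.perc_half_eq]
    have hsub : edgesIn S ⊆ F := edgesIn_mono Finset.subset_union_left
    have e1 : P F E = P F (fun ω => E (ω ∩ edgesIn S)) := P_congr hEi
    rw [e1, P_restrict hsub (A := fun ω => E (ω ∩ edgesIn S)) (fun ω => by
      show E (ω ∩ edgesIn S) ↔ E (ω ∩ edgesIn S ∩ edgesIn S)
      rw [Finset.inter_assoc, Finset.inter_self])]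
    apply P_congr
    intro ω hω
    rw [Finset.inter_eq_left.2 hω]
  show perc half S E ≤ η
  rw [hPE]
  -- duality
  have hdual := P_dcfg (S := S₂) (S' := S₁) (by
    intro z hz
    have h := mem_box_of_mem hz
    refine ⟨?_, ?_, ?_, ?_⟩
    · have := h 0 0 le_rfl zero_le_one le_rfl zero_le_one
      simp only [add_zero] at this
      exact Finset.mem_union_right _ this
    · have := h 1 0 zero_le_one le_rfl le_rfl zero_le_one
      simp only [add_zero] at this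
      exact Finset.mem_union_right _ this
    · have := h 0 1 le_rfl zero_le_one zero_le_one le_rfl
      simp only [add_zero] at this
      exact Finset.mem_union_right _ this
    · exact Finset.mem_union_right _ (h 1 1 zero_le_one le_rfl zero_le_one le_rfl))
    (fun ω => CrossR q' ε ω (t + κ) (1 - (t + κ)) (s - κ) (1 - (s - κ)) ∧
          ¬ CrossR q' ε ω 0 1 0 1)
  refine (P_mono ?_).trans (hdual.le.trans hbd)
  intro ω hω h
  exact ⟨dual_cross hq hGε (hedge ω hω) hN h.2,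
    fun h' => dual_excl hε (hedge ω hω) (fun e he => edgesIn_cases he) h.1 h'⟩

end Full
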