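import Pool.Agent.Full.Rough.Outer

/-!
# The homeomorphism of the plane onto the open square which is affine on the closed square
-/

set_option autoImplicit false

open Set Filter Topology Complex H47Perc Relation

namespace Full

/-- `u / (1 + |u|)` -/
noncomputable def hcut (u : ℝ) : ℝ := u / (1 + |u|)

lemma one_add_abs_pos (u : ℝ) : 0 < 1 + |u| := by positivity

lemma continuous_hcut : Continuous hcut :=
  continuous_id.div (continuous_const.add continuous_abs) fun u => (one_add_abs_pos u).ne'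

lemma hcut_zero : hcut 0 = 0 := by simp [hcut]

lemma hcut_lt_one (u : ℝ) : hcut u < 1 := by
  unfold hcut
  rw [div_lt_one (one_add_abs_pos u)]
  linarith [le_abs_self u]

lemma neg_one_lt_hcut (u : ℝ) : -1 < hcut u := by
  unfold hcut
  rw [lt_div_iff₀ (one_add_abs_pos u)]
  linarith [neg_abs_le u]

lemma hcut_strictMono : StrictMono hcut := by
  intro u v h
  unfold hcut
  rw [div_lt_div_iff₀ (one_add_abs_pos u) (one_add_abs_pos v)]
  rcases le_total 0 u with hu | hu
  · have hv : 0 ≤ v := hu.trans h.le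
    rw [abs_of_nonneg hu, abs_of_nonneg hv]
    nlinarith
  · rcases le_total 0 v with hv | hv
    · rw [abs_of_nonpos hu, abs_of_nonneg hv]
      nlinarith [mul_nonneg (neg_nonneg.2 hu) hv]
    · rw [abs_of_nonpos hu, abs_of_nonpos hv]
      nlinarith

/-- the coordinate map -/
noncomputable def gs (s x : ℝ) : ℝ :=
  s + (1 - 2 * s) * max 0 (min 1 x) + s * hcut (x - max 0 (min 1 x))

variable {s : ℝ}

lemma continuous_gs : Continuous (gs s) := by
  unfold gs
  have := continuous_hcut
  fun_prop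

lemma gs_strictMono (hs : 0 < s) (hs2 : s < 1/2) : StrictMono (gs s) := by
  intro x y h
  have h1 : max 0 (min 1 x) ≤ max 0 (min 1 y) := max_le_max le_rfl (min_le_min le_rfl h.le)
  have h2 : x - max 0 (min 1 x) ≤ y - max 0 (min 1 y) := by
    rcases le_total x 0 with hx | hx
    · rw [min_eq_right (by linarith), max_eq_left hx]
      rcases le_total y 0 with hy | hy
      · rw [min_eq_right (by linarith), max_eq_left hy]; linarith
      · have : max 0 (min 1 y) ≤ y := max_le hy (min_le_right _ _)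
        linarith
    · rcases le_total x 1 with hx1 | hx1
      · rw [min_eq_right hx1, max_eq_right hx]
        have : max 0 (min 1 y) ≤ y := max_le (by linarith) (min_le_right _ _)
        linarith
      · rw [min_eq_left hx1, min_eq_left (by linarith)]
        linarith
  unfold gs
  have h3 := hcut_strictMono.monotone h2
  have h4 : (1 - 2 * s) * max 0 (min 1 x) ≤ (1 - 2 * s) * max 0 (min 1 y) :=
    mul_le_mul_of_nonneg_left h1 (by linarith)
  have h5 : s * hcut (x - max 0 (min 1 x)) ≤ s * hcut (y - max 0 (min 1 y)) :=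
    mul_le_mul_of_nonneg_left h3 hs.le
  rcases eq_or_lt_of_le h1 with h6 | h6
  · have h7 : x - max 0 (min 1 x) < y - max 0 (min 1 y) := by rw [h6]; linarith
    have h8 := mul_lt_mul_of_pos_left (hcut_strictMono h7) hs
    linarith
  · have h8 := mul_lt_mul_of_pos_left h6 (by linarith : 0 < 1 - 2 * s)
    linarith

lemma gs_pos (hs : 0 < s) (hs2 : s < 1/2) (x : ℝ) : 0 < gs s x := by
  unfold gs
  have h1 := mul_lt_mul_of_pos_left (neg_one_lt_hcut (x - max 0 (min 1 x))) hs
  have h2 : 0 ≤ (1 - 2 * s) * max 0 (min 1 x) := mul_nonneg (by linarith) (le_max_left _ _)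
  linarith

lemma gs_lt_one (hs : 0 < s) (hs2 : s < 1/2) (x : ℝ) : gs s x < 1 := by
  unfold gs
  have h1 := mul_lt_mul_of_pos_left (hcut_lt_one (x - max 0 (min 1 x))) hs
  have h2 : (1 - 2 * s) * max 0 (min 1 x) ≤ (1 - 2 * s) * 1 :=
    mul_le_mul_of_nonneg_left (max_le zero_le_one (min_le_left _ _)) (by linarith)
  linarith

lemma gs_eq {x : ℝ} (h0 : 0 ≤ x) (h1 : x ≤ 1) : gs s x = s + ((1 - s) - s) * x := by
  unfold gs
  rw [min_eq_right h1, max_eq_right h0, sub_self, hcut_zero]
  ring

lemma isOpenMap_of_strictMono {g : ℝ → ℝ} (hg : Continuous g) (hm : StrictMono g) :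
    IsOpenMap g := by
  rw [isOpenMap_iff_nhds_le]
  intro x U hU
  rw [mem_map, mem_nhds_iff_exists_Ioo_subset] at hU
  obtain ⟨a, b, hx, hab⟩ := hU
  obtain ⟨a', ha, hax⟩ := exists_between hx.1
  obtain ⟨b', hxb, hb⟩ := exists_between hx.2
  have h1 : Icc (g a') (g b') ⊆ U := by
    refine (intermediate_value_Icc (hax.trans hxb).le hg.continuousOn).trans ?_
    rintro _ ⟨y, hy, rfl⟩
    exact hab ⟨ha.trans_le hy.1, hy.2.trans_lt hb⟩
  exact mem_of_superset (Icc_mem_nhds (hm hax) (hm hxb)) h1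

/-- the homeomorphism of the plane onto the open unit square -/
noncomputable def phiR (s : ℝ) (w : ℂ) : ℂ := ⟨gs s w.re, gs s w.im⟩

lemma continuous_phiR : Continuous (phiR s) :=
  continuous_mk (continuous_gs.comp Complex.continuous_re) (continuous_gs.comp Complex.continuous_im)

lemma phiR_injective (hs : 0 < s) (hs2 : s < 1/2) : Function.Injective (phiR s) := by
  intro w w' h
  have h1 : gs s w.re = gs s w'.re := congrArg Complex.re h
  have h2 : gs s w.im = gs s w'.im := congrArg Complex.im h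
  exact Complex.ext ((gs_strictMono hs hs2).injective h1) ((gs_strictMono hs hs2).injective h2)

lemma phiR_mem (hs : 0 < s) (hs2 : s < 1/2) (w : ℂ) : phiR s w ∈ sqo :=
  ⟨gs_pos hs hs2 _, gs_lt_one hs hs2 _, gs_pos hs hs2 _, gs_lt_one hs hs2 _⟩

lemma phiR_open (hs : 0 < s) (hs2 : s < 1/2) : IsOpenMap (phiR s) := by
  have h := isOpenMap_of_strictMono continuous_gs (gs_strictMono hs hs2)
  have h1 : phiR s = fun w => Complex.equivRealProdCLM.symm
      (Prod.map (gs s) (gs s) (Complex.equivRealProdCLM w)) := by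
    funext w; rfl
  rw [h1]
  exact (Complex.equivRealProdCLM.symm.toHomeomorph.isOpenMap.comp (h.prodMap h)).comp
    Complex.equivRealProdCLM.toHomeomorph.isOpenMap

lemma phiR_eq {w : ℂ} (hw : w ∈ sq) : phiR s w = aff s (1 - s) s (1 - s) w := by
  apply Complex.ext
  · exact gs_eq hw.1 hw.2.1
  · exact gs_eq hw.2.2.1 hw.2.2.2

/-- the inner quadrilaterals are tame -/
theorem IsQuad.tame {q : ℂ → ℂ} (hq : IsQuad q) (hs : 0 < s) (hs2 : s < 1/2) :
    IsTame (fun w => q (phiR s w)) := by
  refine ⟨hq.cont.comp_continuous continuous_phiR fun w => sqo_subset_sq (phiR_mem hs hs2 w), ?_, ?_⟩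
  · intro w w' h
    exact phiR_injective hs hs2 (hq.inj (sqo_subset_sq (phiR_mem hs hs2 w))
      (sqo_subset_sq (phiR_mem hs hs2 w')) h)
  · intro U hU
    have h1 : (fun w => q (phiR s w)) '' U = q '' ((phiR s '' U) ∩ sqo) := by
      rw [inter_eq_self_of_subset_left (by rintro _ ⟨w, -, rfl⟩; exact phiR_mem hs hs2 w), image_image]
    rw [h1]
    exact hq.isOpen_image (phiR_open hs hs2 U hU)

/-- crossings of the inner quadrilaterals -/
theorem crossed_phiR {q : ℂ → ℂ} (hq : IsQuad q) (hs : 0 < s) (hs2 : s < 1/2) {ε : ℝ}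
    {ω : Finset (Sym2 (ℤ × ℤ))} :
    Crossed ε (fun w => q (phiR s w)) ω ↔ CrossR q ε ω s (1 - s) s (1 - s) := by
  rw [crossed_iff (hq.tame hs hs2).isQuad, ← crossR_aff (q := q) (a := s) (b := 1 - s) (c := s)
    (d := 1 - s) (by linarith) (by linarith)]
  have : {w | w ∈ rc 0 1 0 1 ∧ q (phiR s w) ∈ openSet ε ω} =
      {w | w ∈ rc 0 1 0 1 ∧ q (aff s (1 - s) s (1 - s) w) ∈ openSet ε ω} := by
    ext w
    constructor
    · rintro ⟨h1, h2⟩; exact ⟨h1, by rwa [← phiR_eq h1]⟩
    · rintro ⟨h1, h2⟩; exact ⟨h1, by show q (phiR s w) ∈ _; rwa [phiR_eq h1]⟩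
  unfold CrossR
  rw [this]

end Full
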