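import Pool.Agent.Full.Tame

/-!
# Planar lemmas for rectangles: crossing lemma in a rectangle, sub-crossings, interlaced chords
-/

set_option autoImplicit false

open Set Filter Topology Complex

namespace Full

/-- closed rectangles -/
def rc (a b c d : ℝ) : Set ℂ := {w | a ≤ w.re ∧ w.re ≤ b ∧ c ≤ w.im ∧ w.im ≤ d}

lemma mem_rc {a b c d : ℝ} {w : ℂ} : w ∈ rc a b c d ↔ a ≤ w.re ∧ w.re ≤ b ∧ c ≤ w.im ∧ w.im ≤ d :=
  Iff.rfl

lemma rc_sq : rc 0 1 0 1 = sq := rfl

lemma rc_eq {a b c d : ℝ} : rc a b c d = Icc a b ×ℂ Icc c d := by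
  ext w; simp [rc, Complex.mem_reProdIm, and_assoc]

lemma isCompact_rc {a b c d : ℝ} : IsCompact (rc a b c d) := by
  rw [rc_eq]; exact isCompact_Icc.reProdIm isCompact_Icc

lemma isClosed_rc {a b c d : ℝ} : IsClosed (rc a b c d) := isCompact_rc.isClosed

lemma convex_rc {a b c d : ℝ} : Convex ℝ (rc a b c d) := by
  intro x hx y hy u v hu hv huv
  simp only [mem_rc, add_re, add_im, real_smul, re_ofReal_mul, im_ofReal_mul] at hx hy ⊢
  have hv' : v = 1 - u := by linarith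
  subst hv'
  refine ⟨?_, ?_, ?_, ?_⟩ <;> nlinarith [hx.1, hx.2.1, hx.2.2.1, hx.2.2.2, hy.1, hy.2.1, hy.2.2.1, hy.2.2.2]

/-- the last time a closed set is visited -/
lemma last_time {X : Type*} [TopologicalSpace X] {γ : ℝ → X} (hγ : Continuous γ) {Z : Set X}
    (hZ : IsClosed Z) {a b : ℝ} (hab : a ≤ b) (ha : γ a ∈ Z) :
    ∃ t ∈ Icc a b, γ t ∈ Z ∧ ∀ s, t < s → s ≤ b → γ s ∉ Z := by
  have hc : IsCompact (Icc a b ∩ γ ⁻¹' Z) := isCompact_Icc.inter_right (hZ.preimage hγ)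
  obtain ⟨t, ht, hm⟩ := hc.exists_isGreatest ⟨a, ⟨le_rfl, hab⟩, ha⟩
  refine ⟨t, ht.1, ht.2, fun s h1 h2 h3 => ?_⟩
  have := hm ⟨⟨ht.1.1.trans h1.le, h2⟩, h3⟩
  linarith

/-- the first time a closed set is visited -/
lemma first_time {X : Type*} [TopologicalSpace X] {γ : ℝ → X} (hγ : Continuous γ) {Z : Set X}
    (hZ : IsClosed Z) {a b : ℝ} (hab : a ≤ b) (hb : γ b ∈ Z) :
    ∃ t ∈ Icc a b, γ t ∈ Z ∧ ∀ s, a ≤ s → s < t → γ s ∉ Z := by
  have hc : IsCompact (Icc a b ∩ γ ⁻¹' Z) := isCompact_Icc.inter_right (hZ.preimage hγ)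
  obtain ⟨t, ht, hm⟩ := hc.exists_isLeast ⟨b, ⟨hab, le_rfl⟩, hb⟩
  refine ⟨t, ht.1, ht.2, fun s h1 h2 h3 => ?_⟩
  have := hm ⟨⟨h1, h2.le.trans ht.1.2⟩, h3⟩
  linarith

/-- a continuous function which goes from `≤ c` to `≥ d` has a passage from `c` to `d` -/
lemma passage {h : ℝ → ℝ} (hh : Continuous h) {a b c d : ℝ} (hab : a ≤ b) (hcd : c ≤ d)
    (h0 : h a ≤ c) (h1 : d ≤ h b) :
    ∃ t₁ t₂, a ≤ t₁ ∧ t₁ ≤ t₂ ∧ t₂ ≤ b ∧ h t₁ = c ∧ h t₂ = d ∧
      ∀ s ∈ Icc t₁ t₂, c ≤ h s ∧ h s ≤ d := by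
  obtain ⟨t₂, ht₂, h2, h3⟩ := first_time hh (isClosed_Ici (a := d)) hab h1
  have e2 : h t₂ = d := by
    refine le_antisymm ?_ h2
    by_contra hlt
    push Not at hlt
    have hne : a ≠ t₂ := by rintro rfl; linarith
    have hlt' : a < t₂ := lt_of_le_of_ne ht₂.1 hne
    obtain ⟨x, hx, hxe⟩ : d ∈ h '' Icc a t₂ :=
      intermediate_value_Icc hlt'.le hh.continuousOn ⟨h0.trans hcd, hlt.le⟩
    have hxt : x < t₂ := by
      refine lt_of_le_of_ne hx.2 ?_
      rintro rfl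
      linarith
    exact h3 x hx.1 hxt (by rw [mem_Ici, hxe])
  obtain ⟨t₁, ht₁, h4, h5⟩ := last_time hh (isClosed_Iic (a := c)) ht₂.1 h0
  have e1 : h t₁ = c := by
    refine le_antisymm h4 ?_
    by_contra hlt
    push Not at hlt
    obtain ⟨x, hx, hxe⟩ : c ∈ h '' Icc t₁ t₂ :=
      intermediate_value_Icc ht₁.2 hh.continuousOn ⟨hlt.le, by rw [e2]; exact hcd⟩
    have hxt : t₁ < x := by
      refine lt_of_le_of_ne hx.1 ?_
      rintro rfl
      linarith
    exact h5 x hxt hx.2 (by rw [mem_Iic, hxe])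
  refine ⟨t₁, t₂, ht₁.1, ht₁.2, ht₂.2, e1, e2, fun s hs => ⟨?_, ?_⟩⟩
  · rcases eq_or_lt_of_le hs.1 with h | h
    · rw [← h, e1]
    · have := h5 s h hs.2
      rw [mem_Iic] at this
      exact (not_le.1 this).le
  · rcases eq_or_lt_of_le hs.2 with h | h
    · rw [h, e2]
    · have := h3 s (ht₁.1.trans hs.1) h
      rw [mem_Ici] at this
      exact (not_le.1 this).le

/-- the crossing lemma in a rectangle, for maps of the line -/
theorem cross_rc {a b c d : ℝ} (hab : a < b) (hcd : c < d) {α β : ℝ → ℂ} (hα : Continuous α)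
    (hβ : Continuous β) {s₁ s₂ t₁ t₂ : ℝ} (hs : s₁ ≤ s₂) (ht : t₁ ≤ t₂)
    (hαs : ∀ s ∈ Icc s₁ s₂, α s ∈ rc a b c d) (hβs : ∀ t ∈ Icc t₁ t₂, β t ∈ rc a b c d)
    (hα0 : (α s₁).re = a) (hα1 : (α s₂).re = b) (hβ0 : (β t₁).im = c) (hβ1 : (β t₂).im = d) :
    ∃ s ∈ Icc s₁ s₂, ∃ t ∈ Icc t₁ t₂, α s = β t := by
  set A : ℂ → ℂ := fun w => ⟨(w.re - a) / (b - a), (w.im - c) / (d - c)⟩ with hA
  have hAc : Continuous A := by
    have : A = fun w => Complex.equivRealProdCLM.symm ((w.re - a) / (b - a), (w.im - c) / (d - c)) := by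
      funext x; rfl
    rw [this]
    exact Complex.equivRealProdCLM.symm.continuous.comp (by fun_prop)
  have hba : 0 < b - a := by linarith
  have hdc : 0 < d - c := by linarith
  have hAs : ∀ w ∈ rc a b c d, A w ∈ sq := by
    intro w hw
    refine ⟨div_nonneg (by linarith [hw.1]) hba.le, ?_, div_nonneg (by linarith [hw.2.2.1]) hdc.le, ?_⟩
    · simp only [hA]; rw [div_le_one hba]; linarith [hw.2.1]
    · simp only [hA]; rw [div_le_one hdc]; linarith [hw.2.2.2]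
  have hinj : ∀ w w', A w = A w' → w = w' := by
    intro w w' h
    have h1 := congrArg Complex.re h
    have h2 := congrArg Complex.im h
    simp only [hA] at h1 h2
    rw [div_left_inj' hba.ne'] at h1
    rw [div_left_inj' hdc.ne'] at h2
    apply Complex.ext <;> linarith
  set p : ℝ → ℝ → ℝ → ℝ := fun x y u => x + (y - x) * max 0 (min 1 u) with hp
  have hpc : ∀ x y, Continuous (p x y) := by intro x y; simp only [hp]; fun_prop
  have hp0 : ∀ x y, p x y 0 = x := by intro x y; simp [hp]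
  have hp1 : ∀ x y, p x y 1 = y := by intro x y; simp [hp]
  have hpm : ∀ x y u, x ≤ y → p x y u ∈ Icc x y := by
    intro x y u hxy
    have h0 : 0 ≤ max 0 (min 1 u) := le_max_left _ _
    have h1 : max 0 (min 1 u) ≤ 1 := max_le zero_le_one (min_le_left _ _)
    constructor
    · simp only [hp]; nlinarith
    · simp only [hp]; nlinarith
  obtain ⟨s, t, h⟩ := cross_line (α := fun u => A (α (p s₁ s₂ u))) (β := fun u => A (β (p t₁ t₂ u)))
    (hAc.comp (hα.comp (hpc _ _))) (hAc.comp (hβ.comp (hpc _ _)))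
    (fun u => hAs _ (hαs _ (hpm _ _ _ hs))) (fun u => hAs _ (hβs _ (hpm _ _ _ ht)))
    (by simp only [hp0, hA, hα0]; simp) (by simp only [hp1, hA, hα1]; exact div_self hba.ne')
    (by simp only [hp0, hA, hβ0]; simp) (by simp only [hp1, hA, hβ1]; exact div_self hdc.ne')
  exact ⟨_, hpm _ _ _ hs, _, hpm _ _ _ ht, hinj _ _ h⟩

/-- the crossing lemma in a rectangle, for joined points -/
theorem cross_joined {a b c d : ℝ} (hab : a < b) (hcd : c < d) {F G : Set ℂ}
    (hF : F ⊆ rc a b c d) (hG : G ⊆ rc a b c d) {u v x y : ℂ} (hu : u.re = a) (hv : v.re = b)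
    (hx : x.im = c) (hy : y.im = d) (h1 : JoinedIn F u v) (h2 : JoinedIn G x y) :
    (F ∩ G).Nonempty := by
  obtain ⟨α, hα⟩ := h1
  obtain ⟨β, hβ⟩ := h2
  obtain ⟨s, -, t, -, h⟩ := cross_rc hab hcd (α := α.extend) (β := β.extend) α.continuous_extend
    β.continuous_extend zero_le_one zero_le_one (fun s _ => hF (hα _)) (fun t _ => hG (hβ _))
    (by simpa using hu) (by simpa using hv) (by simpa using hx) (by simpa using hy)
  refine ⟨α.extend s, hα _, ?_⟩
  rw [h]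
  exact hβ _

lemma joinedIn_segment {F : Set ℂ} {u v : ℂ} (h : segment ℝ u v ⊆ F) : JoinedIn F u v :=
  ((convex_segment u v).isPathConnected ⟨u, left_mem_segment ℝ u v⟩).joinedIn u
    (left_mem_segment ℝ u v) v (right_mem_segment ℝ u v) |>.mono h

/-- points of a horizontal segment -/
lemma segment_horiz {u v w : ℂ} (h : u.im = v.im) (hw : w ∈ segment ℝ u v) :
    w.im = u.im ∧ min u.re v.re ≤ w.re ∧ w.re ≤ max u.re v.re := by
  obtain ⟨a, b, ha, hb, hab, rfl⟩ := hw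
  have hb' : b = 1 - a := by linarith
  subst hb'
  simp only [add_re, add_im, real_smul, re_ofReal_mul, im_ofReal_mul]
  refine ⟨by rw [h]; ring, ?_, ?_⟩
  · have h1 := min_le_left u.re v.re
    have h2 := min_le_right u.re v.re
    nlinarith
  · have h1 := le_max_left u.re v.re
    have h2 := le_max_right u.re v.re
    nlinarith

/-- points of a vertical segment -/
lemma segment_vert {u v w : ℂ} (h : u.re = v.re) (hw : w ∈ segment ℝ u v) :
    w.re = u.re ∧ min u.im v.im ≤ w.im ∧ w.im ≤ max u.im v.im := by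
  obtain ⟨a, b, ha, hb, hab, rfl⟩ := hw
  have hb' : b = 1 - a := by linarith
  subst hb'
  simp only [add_re, add_im, real_smul, re_ofReal_mul, im_ofReal_mul]
  refine ⟨by rw [h]; ring, ?_, ?_⟩
  · have h1 := min_le_left u.im v.im
    have h2 := min_le_right u.im v.im
    nlinarith
  · have h1 := le_max_left u.im v.im
    have h2 := le_max_right u.im v.im
    nlinarith

/-- **Interlaced chords.** In the unit square a chord from the point `i y₁` of the left side to the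
upper side and a chord from the lower side to the point `i y₂` of the left side meet if `y₁ < y₂`. -/
theorem interlace {F G : Set ℂ} (hF : F ⊆ sq) (hG : G ⊆ sq) {y₁ y₂ : ℝ} (hy : y₁ < y₂) {t b : ℂ}
    (ht : t.im = 1) (hb : b.im = 0) (h1 : JoinedIn F ⟨0, y₁⟩ t) (h2 : JoinedIn G b ⟨0, y₂⟩) :
    (F ∩ G).Nonempty := by
  have m1 : (⟨0, y₁⟩ : ℂ) ∈ F := h1.source_mem
  have m2 : (⟨0, y₂⟩ : ℂ) ∈ G := h2.target_mem
  have mb : b ∈ G := h2.source_mem
  have hy1 : 0 ≤ y₁ := (hF m1).2.2.1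
  have hy2 : y₂ ≤ 1 := (hG m2).2.2.2
  have hb0 : 0 ≤ b.re := (hG mb).1
  have hb1 : b.re ≤ 1 := (hG mb).2.1
  set A1 : Set ℂ := segment ℝ ⟨-1/2, -1⟩ ⟨-1/2, y₁⟩ with hA1
  set A2 : Set ℂ := segment ℝ ⟨-1/2, y₁⟩ ⟨0, y₁⟩ with hA2
  set B1 : Set ℂ := segment ℝ ⟨-1, y₂⟩ ⟨0, y₂⟩ with hB1
  set B2 : Set ℂ := segment ℝ b ⟨b.re, -1/2⟩ with hB2
  set B3 : Set ℂ := segment ℝ ⟨b.re, -1/2⟩ ⟨1, -1/2⟩ with hB3
  have a1 : ∀ w ∈ A1, w.re = -1/2 ∧ -1 ≤ w.im ∧ w.im ≤ y₁ := by
    intro w hw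
    have := segment_vert (u := ⟨-1/2, -1⟩) (v := ⟨-1/2, y₁⟩) rfl hw
    simp only at this
    rw [min_eq_left (by linarith), max_eq_right (by linarith)] at this
    exact this
  have a2 : ∀ w ∈ A2, w.im = y₁ ∧ -1/2 ≤ w.re ∧ w.re ≤ 0 := by
    intro w hw
    have := segment_horiz (u := ⟨-1/2, y₁⟩) (v := ⟨0, y₁⟩) rfl hw
    simp only at this
    rw [min_eq_left (by linarith), max_eq_right (by linarith)] at this
    exact this
  have b1 : ∀ w ∈ B1, w.im = y₂ ∧ -1 ≤ w.re ∧ w.re ≤ 0 := by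
    intro w hw
    have := segment_horiz (u := ⟨-1, y₂⟩) (v := ⟨0, y₂⟩) rfl hw
    simp only at this
    rw [min_eq_left (by linarith), max_eq_right (by linarith)] at this
    exact this
  have b2 : ∀ w ∈ B2, w.re = b.re ∧ -1/2 ≤ w.im ∧ w.im ≤ 0 := by
    intro w hw
    have := segment_vert (u := b) (v := ⟨b.re, -1/2⟩) rfl hw
    simp only at this
    rw [hb, min_eq_right (by linarith), max_eq_left (by linarith)] at this
    exact this
  have b3 : ∀ w ∈ B3, w.im = -1/2 ∧ b.re ≤ w.re ∧ w.re ≤ 1 := by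
    intro w hw
    have := segment_horiz (u := ⟨b.re, -1/2⟩) (v := ⟨1, -1/2⟩) rfl hw
    simp only at this
    rw [min_eq_left (by linarith), max_eq_right (by linarith)] at this
    exact this
  have j1 : JoinedIn (F ∪ A1 ∪ A2) ⟨-1/2, -1⟩ t := by
    have e1 : JoinedIn (F ∪ A1 ∪ A2) ⟨-1/2, -1⟩ ⟨-1/2, y₁⟩ :=
      joinedIn_segment fun w hw => Or.inl (Or.inr hw)
    have e2 : JoinedIn (F ∪ A1 ∪ A2) ⟨-1/2, y₁⟩ ⟨0, y₁⟩ :=
      joinedIn_segment fun w hw => Or.inr hw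
    have e3 : JoinedIn (F ∪ A1 ∪ A2) ⟨0, y₁⟩ t := h1.mono fun w hw => Or.inl (Or.inl hw)
    exact (e1.trans e2).trans e3
  have j2 : JoinedIn (G ∪ B1 ∪ (B2 ∪ B3)) ⟨-1, y₂⟩ ⟨1, -1/2⟩ := by
    have e1 : JoinedIn (G ∪ B1 ∪ (B2 ∪ B3)) ⟨-1, y₂⟩ ⟨0, y₂⟩ :=
      joinedIn_segment fun w hw => Or.inl (Or.inr hw)
    have e2 : JoinedIn (G ∪ B1 ∪ (B2 ∪ B3)) ⟨0, y₂⟩ b :=
      h2.symm.mono fun w hw => Or.inl (Or.inl hw)
    have e3 : JoinedIn (G ∪ B1 ∪ (B2 ∪ B3)) b ⟨b.re, -1/2⟩ :=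
      joinedIn_segment fun w hw => Or.inr (Or.inl hw)
    have e4 : JoinedIn (G ∪ B1 ∪ (B2 ∪ B3)) ⟨b.re, -1/2⟩ ⟨1, -1/2⟩ :=
      joinedIn_segment fun w hw => Or.inr (Or.inr hw)
    exact ((e1.trans e2).trans e3).trans e4
  have s1 : F ∪ A1 ∪ A2 ⊆ rc (-1) 1 (-1) 1 := by
    rintro w ((hw | hw) | hw)
    · have := hF hw
      exact ⟨by linarith [this.1], this.2.1, by linarith [this.2.2.1], this.2.2.2⟩
    · have := a1 w hw
      exact ⟨by linarith, by linarith, by linarith, by linarith⟩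
    · have := a2 w hw
      exact ⟨by linarith, by linarith, by linarith, by linarith⟩
  have s2 : G ∪ B1 ∪ (B2 ∪ B3) ⊆ rc (-1) 1 (-1) 1 := by
    rintro w ((hw | hw) | (hw | hw))
    · have := hG hw
      exact ⟨by linarith [this.1], this.2.1, by linarith [this.2.2.1], this.2.2.2⟩
    · have := b1 w hw
      exact ⟨by linarith, by linarith, by linarith, by linarith⟩
    · have := b2 w hw
      exact ⟨by linarith, by linarith, by linarith, by linarith⟩
    · have := b3 w hw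
      exact ⟨by linarith, by linarith, by linarith, by linarith⟩
  obtain ⟨w, hw2, hw1⟩ := cross_joined (by norm_num) (by norm_num) s2 s1 rfl rfl rfl ht j2 j1
  rcases hw1 with (h | h) | h
  · rcases hw2 with (h' | h') | (h' | h')
    · exact ⟨w, h, h'⟩
    · have e1 := hF h
      have e2 := b1 w h'
      have : w = ⟨0, y₂⟩ := Complex.ext (by simp only; linarith [e1.1]) (by simp only; linarith)
      exact ⟨w, h, by rw [this]; exact m2⟩
    · have e1 := hF h
      have e2 := b2 w h'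
      have : w = b := Complex.ext (by linarith) (by linarith [e1.2.2.1])
      exact ⟨w, h, by rw [this]; exact mb⟩
    · have e1 := hF h
      have e2 := b3 w h'
      linarith [e1.2.2.1]
  · have e1 := a1 w h
    rcases hw2 with (h' | h') | (h' | h')
    · linarith [(hG h').1]
    · linarith [b1 w h']
    · linarith [b2 w h']
    · linarith [b3 w h']
  · have e1 := a2 w h
    rcases hw2 with (h' | h') | (h' | h')
    · have e2 := hG h'
      have : w = ⟨0, y₁⟩ := Complex.ext (by simp only; linarith [e2.1]) (by simp only; linarith)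
      exact ⟨w, by rw [this]; exact m1, h'⟩
    · linarith [b1 w h']
    · have e2 := b2 w h'
      have e3 : w = b := Complex.ext (by linarith) (by linarith)
      have e4 : w = ⟨0, y₁⟩ := Complex.ext (by simp only; linarith) (by simp only; linarith)
      exact ⟨w, by rw [e4]; exact m1, by rw [e3]; exact mb⟩
    · linarith [b3 w h']

end Full
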