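import Pool.Agent.Full.Rough.Faces

/-!
# Exploration of dual clusters by faces
-/

set_option autoImplicit false

open Set Filter Topology Complex H47Perc Relation

namespace Full

variable {ε : ℝ} {ω ω' : Finset (Sym2 (ℤ × ℤ))}

/-- two faces are adjacent across a closed edge -/
def Fadj (ω : Finset (Sym2 (ℤ × ℤ))) (z z' : ℤ × ℤ) : Prop :=
  (z' = (z.1 + 1, z.2) ∧ vE (z.1 + 1) z.2 ∉ ω) ∨ (z = (z'.1 + 1, z'.2) ∧ vE (z'.1 + 1) z'.2 ∉ ω) ∨
  (z' = (z.1, z.2 + 1) ∧ hE z.1 (z.2 + 1) ∉ ω) ∨ (z = (z'.1, z'.2 + 1) ∧ hE z'.1 (z'.2 + 1) ∉ ω)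

lemma Fadj.symm {z z' : ℤ × ℤ} (h : Fadj ω z z') : Fadj ω z' z := by
  unfold Fadj at *
  tauto

open Classical in
/-- the edges of a face -/
noncomputable def bd (z : ℤ × ℤ) : Finset (Sym2 (ℤ × ℤ)) :=
  {hE z.1 z.2, hE z.1 (z.2 + 1), vE z.1 z.2, vE (z.1 + 1) z.2}

lemma mem_bd {z : ℤ × ℤ} {e : Sym2 (ℤ × ℤ)} : e ∈ bd z ↔
    e = hE z.1 z.2 ∨ e = hE z.1 (z.2 + 1) ∨ e = vE z.1 z.2 ∨ e = vE (z.1 + 1) z.2 := by
  unfold bd; simp

/-- the edges of a face lie in the face -/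
lemma seg_bd_subset (hε : 0 < ε) {z : ℤ × ℤ} {e : Sym2 (ℤ × ℤ)} (he : e ∈ bd z) :
    seg ε e ⊆ face ε z := by
  intro w hw
  rw [mem_bd] at he
  rw [mem_face]
  rcases he with rfl | rfl | rfl | rfl
  · rw [mem_seg_hE hε] at hw
    refine ⟨hw.2.1, hw.2.2, hw.1.ge, ?_⟩
    rw [hw.1]; nlinarith
  · rw [mem_seg_hE hε] at hw
    have := hw.1
    push_cast at this
    refine ⟨hw.2.1, hw.2.2, ?_, ?_⟩
    · rw [this]; nlinarith
    · rw [this]
  · rw [mem_seg_vE hε] at hw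
    refine ⟨hw.1.ge, ?_, hw.2.1, hw.2.2⟩
    rw [hw.1]; nlinarith
  · rw [mem_seg_vE hε] at hw
    have := hw.1
    push_cast at this
    refine ⟨?_, ?_, hw.2.1, hw.2.2⟩
    · rw [this]; nlinarith
    · rw [this]

/-- changing the configuration off the edges of `z` does not change the adjacencies of `z` -/
lemma Fadj.congr {z z' : ℤ × ℤ} (h : Fadj ω z z') (hω : ∀ e ∈ bd z, e ∈ ω' → e ∈ ω) :
    Fadj ω' z z' := by
  rcases h with ⟨h1, h2⟩ | ⟨h1, h2⟩ | ⟨h1, h2⟩ | ⟨h1, h2⟩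
  · exact Or.inl ⟨h1, fun h => h2 (hω _ (by rw [mem_bd]; tauto) h)⟩
  · exact Or.inr (Or.inl ⟨h1, fun h => h2 (hω _ (by rw [mem_bd, h1]; tauto) h)⟩)
  · exact Or.inr (Or.inr (Or.inl ⟨h1, fun h => h2 (hω _ (by rw [mem_bd]; tauto) h)⟩))
  · exact Or.inr (Or.inr (Or.inr ⟨h1, fun h => h2 (hω _ (by rw [mem_bd, h1]; tauto) h)⟩))

/-- the faces of `L` which can be reached from `B` through closed edges -/
def Reach (ω : Finset (Sym2 (ℤ × ℤ))) (L B : Set (ℤ × ℤ)) : Set (ℤ × ℤ) :=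
  {z | ∃ b ∈ B, b ∈ L ∧ ReflTransGen (fun a c => a ∈ L ∧ c ∈ L ∧ Fadj ω a c) b z}

lemma Reach.sub {L B : Set (ℤ × ℤ)} : Reach ω L B ⊆ L := by
  rintro z ⟨b, -, hb, h⟩
  induction h with
  | refl => exact hb
  | tail _ h _ => exact h.2.1

lemma Reach.start {L B : Set (ℤ × ℤ)} {z : ℤ × ℤ} (h : z ∈ B) (h' : z ∈ L) : z ∈ Reach ω L B :=
  ⟨z, h, h', ReflTransGen.refl⟩

lemma Reach.step {L B : Set (ℤ × ℤ)} {z z' : ℤ × ℤ} (h : z ∈ Reach ω L B) (h' : z' ∈ L)
    (ha : Fadj ω z z') : z' ∈ Reach ω L B := by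
  obtain ⟨b, h1, h2, h3⟩ := h
  exact ⟨b, h1, h2, h3.tail ⟨Reach.sub ⟨b, h1, h2, h3⟩, h', ha⟩⟩

/-- the explored edges -/
def Xpl (ω : Finset (Sym2 (ℤ × ℤ))) (L B : Set (ℤ × ℤ)) : Set (Sym2 (ℤ × ℤ)) :=
  {e | ∃ z ∈ Reach ω L B, e ∈ bd z}

/-- the reached set is determined by the explored edges -/
theorem Reach.congr {L B : Set (ℤ × ℤ)} (h : ∀ e ∈ Xpl ω L B, (e ∈ ω' ↔ e ∈ ω)) :
    Reach ω' L B = Reach ω L B := by
  apply Subset.antisymm
  · rintro z ⟨b, hb, hbL, hz⟩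
    induction hz with
    | refl => exact Reach.start hb hbL
    | tail _ h1 ih =>
      exact Reach.step ih h1.2.1 (h1.2.2.congr fun e he he' => (h e ⟨_, ih, he⟩).2 he')
  · rintro z ⟨b, hb, hbL, hz⟩
    have : z ∈ Reach ω L B ∧ z ∈ Reach ω' L B := by
      induction hz with
      | refl => exact ⟨Reach.start hb hbL, Reach.start hb hbL⟩
      | tail _ h1 ih =>
        exact ⟨Reach.step ih.1 h1.2.1 h1.2.2,
          Reach.step ih.2 h1.2.1 (h1.2.2.congr fun e he he' => (h e ⟨_, ih.1, he⟩).1 he')⟩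
    exact this.2

/-- around a point off the open set the faces are adjacent across closed edges -/
theorem face_chain (hε : 0 < ε) {w : ℂ} (hw : w ∉ openSet ε ω) {z z' : ℤ × ℤ}
    (h : w ∈ face ε z) (h' : w ∈ face ε z') :
    ReflTransGen (fun a c => Fadj ω a c ∧ w ∈ face ε a ∧ w ∈ face ε c) z z' := by
  -- horizontal steps
  have horiz : ∀ a c : ℤ × ℤ, w ∈ face ε a → w ∈ face ε c → a.2 = c.2 →
      ReflTransGen (fun a c => Fadj ω a c ∧ w ∈ face ε a ∧ w ∈ face ε c) a c := by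
    intro a c ha hc hac
    have h1 := face_near hε ha hc
    have key : ∀ a c : ℤ × ℤ, w ∈ face ε a → w ∈ face ε c → c = (a.1 + 1, a.2) →
        vE (a.1 + 1) a.2 ∉ ω := by
      intro a c ha hc hac hcon
      apply hw
      rw [mem_openSet]
      refine ⟨_, hcon, ?_⟩
      rw [mem_seg_vE hε]
      rw [hac] at hc
      rw [mem_face] at ha hc
      simp only at hc
      push_cast at hc ⊢
      exact ⟨le_antisymm ha.2.1 hc.1, ha.2.2⟩
    rcases lt_trichotomy a.1 c.1 with h2 | h2 | h2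
    · have e : c = (a.1 + 1, a.2) := Prod.ext (by simp only; omega) (by simp only; omega)
      exact ReflTransGen.single ⟨Or.inl ⟨e, key a c ha hc e⟩, ha, hc⟩
    · have : a = c := Prod.ext h2 hac
      rw [this]
    · have e : a = (c.1 + 1, c.2) := Prod.ext (by simp only; omega) (by simp only; omega)
      exact ReflTransGen.single ⟨Or.inr (Or.inl ⟨e, key c a hc ha e⟩), ha, hc⟩
  have vert : ∀ a c : ℤ × ℤ, w ∈ face ε a → w ∈ face ε c → a.1 = c.1 →
      ReflTransGen (fun a c => Fadj ω a c ∧ w ∈ face ε a ∧ w ∈ face ε c) a c := by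
    intro a c ha hc hac
    have h1 := face_near hε ha hc
    have key : ∀ a c : ℤ × ℤ, w ∈ face ε a → w ∈ face ε c → c = (a.1, a.2 + 1) →
        hE a.1 (a.2 + 1) ∉ ω := by
      intro a c ha hc hac hcon
      apply hw
      rw [mem_openSet]
      refine ⟨_, hcon, ?_⟩
      rw [mem_seg_hE hε]
      rw [hac] at hc
      rw [mem_face] at ha hc
      simp only at hc
      push_cast at hc ⊢
      exact ⟨le_antisymm ha.2.2.2 hc.2.2.1, ha.1, ha.2.1⟩
    rcases lt_trichotomy a.2 c.2 with h2 | h2 | h2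
    · have e : c = (a.1, a.2 + 1) := Prod.ext (by simp only; omega) (by simp only; omega)
      exact ReflTransGen.single ⟨Or.inr (Or.inr (Or.inl ⟨e, key a c ha hc e⟩)), ha, hc⟩
    · have : a = c := Prod.ext hac h2
      rw [this]
    · have e : a = (c.1, c.2 + 1) := Prod.ext (by simp only; omega) (by simp only; omega)
      exact ReflTransGen.single ⟨Or.inr (Or.inr (Or.inr ⟨e, key c a hc ha e⟩)), ha, hc⟩
  have hm : w ∈ face ε (z'.1, z.2) := ⟨h'.1, h'.2.1, h.2.2.1, h.2.2.2⟩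
  exact (horiz z (z'.1, z.2) h hm rfl).trans (vert (z'.1, z.2) z' hm h' rfl)

/-- the points off the open set all of whose faces are in `Z` -/
def Gap (ε : ℝ) (ω : Finset (Sym2 (ℤ × ℤ))) (Z : Set (ℤ × ℤ)) : Set ℂ :=
  {w | w ∉ openSet ε ω ∧ ∀ z, w ∈ face ε z → z ∈ Z}

/-- no open edge meets an open face -/
lemma faceo_off (hε : 0 < ε) (hω : ∀ e ∈ ω, IsEdge e) {z : ℤ × ℤ} {w : ℂ} (hw : w ∈ faceo ε z) :
    w ∉ openSet ε ω := by
  rw [mem_openSet]
  rintro ⟨e, he, hwe⟩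
  rw [mem_faceo] at hw
  rcases hω e he with ⟨i, j, rfl⟩ | ⟨i, j, rfl⟩
  · rw [mem_seg_hE hε] at hwe
    have h1 : z.2 < j := lt_of_mul_lt' hε (by linarith [hw.2.2.1, hwe.1])
    have h2 : j < z.2 + 1 := lt_of_mul_lt' hε (by push_cast; linarith [hw.2.2.2, hwe.1])
    omega
  · rw [mem_seg_vE hε] at hwe
    have h1 : z.1 < i := lt_of_mul_lt' hε (by linarith [hw.1, hwe.1])
    have h2 : i < z.1 + 1 := lt_of_mul_lt' hε (by push_cast; linarith [hw.2.1, hwe.1])
    omega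

lemma faceo_subset_Gap (hε : 0 < ε) (hω : ∀ e ∈ ω, IsEdge e) {Z : Set (ℤ × ℤ)} {z : ℤ × ℤ}
    (hz : z ∈ Z) : faceo ε z ⊆ Gap ε ω Z := by
  intro w hw
  refine ⟨faceo_off hε hω hw, fun z' hz' => ?_⟩
  rw [face_unique hε hw hz']
  exact hz

lemma joined_faceo (hε : 0 < ε) (hω : ∀ e ∈ ω, IsEdge e) {Z : Set (ℤ × ℤ)} {z : ℤ × ℤ}
    (hz : z ∈ Z) {w w' : ℂ} (hw : w ∈ faceo ε z) (hw' : w' ∈ faceo ε z) :
    JoinedIn (Gap ε ω Z) w w' :=
  joinedIn_segment ((convex_faceo.segment_subset hw hw').trans (faceo_subset_Gap hε hω hz))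

/-- the centres of two faces adjacent across a closed edge are joined -/
lemma joined_adj (hε : 0 < ε) (hω : ∀ e ∈ ω, IsEdge e) {Z : Set (ℤ × ℤ)} {z z' : ℤ × ℤ}
    (hz : z ∈ Z) (hz' : z' ∈ Z) (h : Fadj ω z z') : JoinedIn (Gap ε ω Z) (fctr ε z) (fctr ε z') := by
  -- right neighbour
  have right : ∀ a : ℤ × ℤ, a ∈ Z → (a.1 + 1, a.2) ∈ Z → vE (a.1 + 1) a.2 ∉ ω →
      JoinedIn (Gap ε ω Z) (fctr ε a) (fctr ε (a.1 + 1, a.2)) := by
    intro a ha ha' he
    apply joinedIn_segment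
    intro w hw
    rw [mem_segment_horiz (by simp [fctr]) (by simp [fctr]; nlinarith)] at hw
    simp only [fctr] at hw
    push_cast at hw
    rcases lt_trichotomy w.re (ε * (a.1 + 1)) with h1 | h1 | h1
    · exact faceo_subset_Gap hε hω ha ⟨by nlinarith [hw.2.1], h1, by rw [hw.1]; nlinarith,
        by rw [hw.1]; nlinarith⟩
    · constructor
      · rw [mem_openSet]
        rintro ⟨e, hee, hwe⟩
        rcases hω e hee with ⟨i, j, rfl⟩ | ⟨i, j, rfl⟩
        · rw [mem_seg_hE hε] at hwe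
          have g1 : a.2 < j := lt_of_mul_lt' hε (by rw [← hwe.1, hw.1]; nlinarith)
          have g2 : j < a.2 + 1 := lt_of_mul_lt' hε (by push_cast; rw [← hwe.1, hw.1]; nlinarith)
          omega
        · rw [mem_seg_vE hε] at hwe
          have g1 : i = a.1 + 1 := by
            have : ε * (i : ℝ) = ε * ((a.1 + 1 : ℤ) : ℝ) := by push_cast; linarith [hwe.1]
            exact_mod_cast mul_left_cancel₀ hε.ne' this
          have g2 : j < a.2 + 1 := lt_of_mul_lt' hε (by push_cast; nlinarith [hwe.2.1, hw.1])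
          have g3 : a.2 < j + 1 := lt_of_mul_lt' hε (by push_cast; nlinarith [hwe.2.2, hw.1])
          have g4 : j = a.2 := by omega
          rw [g1, g4] at hee
          exact he hee
      · intro c hc
        rw [mem_face] at hc
        have g1 : c.1 ≤ a.1 + 1 := le_of_mul_le' hε (by push_cast; linarith [hc.1])
        have g2 : a.1 + 1 ≤ c.1 + 1 := le_of_mul_le' hε (by push_cast; linarith [hc.2.1])
        have g3 : c.2 < a.2 + 1 := lt_of_mul_lt' hε (by push_cast; nlinarith [hc.2.2.1, hw.1])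
        have g4 : a.2 < c.2 + 1 := lt_of_mul_lt' hε (by push_cast; nlinarith [hc.2.2.2, hw.1])
        have g5 : c.1 = a.1 ∨ c.1 = a.1 + 1 := by omega
        rcases g5 with g5 | g5
        · have : c = a := Prod.ext g5 (by omega)
          rw [this]; exact ha
        · have : c = (a.1 + 1, a.2) := Prod.ext g5 (by simp only; omega)
          rw [this]; exact ha'
    · refine faceo_subset_Gap hε hω ha' ⟨?_, ?_, ?_, ?_⟩
      · push_cast; exact h1
      · push_cast; nlinarith [hw.2.2]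
      · simp only; rw [hw.1]; nlinarith
      · simp only; rw [hw.1]; nlinarith
  have up : ∀ a : ℤ × ℤ, a ∈ Z → (a.1, a.2 + 1) ∈ Z → hE a.1 (a.2 + 1) ∉ ω →
      JoinedIn (Gap ε ω Z) (fctr ε a) (fctr ε (a.1, a.2 + 1)) := by
    intro a ha ha' he
    apply joinedIn_segment
    intro w hw
    rw [mem_segment_vert (by simp [fctr]) (by simp [fctr]; nlinarith)] at hw
    simp only [fctr] at hw
    push_cast at hw
    rcases lt_trichotomy w.im (ε * (a.2 + 1)) with h1 | h1 | h1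
    · exact faceo_subset_Gap hε hω ha ⟨by rw [hw.1]; nlinarith, by rw [hw.1]; nlinarith,
        by nlinarith [hw.2.1], h1⟩
    · constructor
      · rw [mem_openSet]
        rintro ⟨e, hee, hwe⟩
        rcases hω e hee with ⟨i, j, rfl⟩ | ⟨i, j, rfl⟩
        · rw [mem_seg_hE hε] at hwe
          have g1 : j = a.2 + 1 := by
            have : ε * (j : ℝ) = ε * ((a.2 + 1 : ℤ) : ℝ) := by push_cast; linarith [hwe.1]
            exact_mod_cast mul_left_cancel₀ hε.ne' this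
          have g2 : i < a.1 + 1 := lt_of_mul_lt' hε (by push_cast; nlinarith [hwe.2.1, hw.1])
          have g3 : a.1 < i + 1 := lt_of_mul_lt' hε (by push_cast; nlinarith [hwe.2.2, hw.1])
          have g4 : i = a.1 := by omega
          rw [g1, g4] at hee
          exact he hee
        · rw [mem_seg_vE hε] at hwe
          have g1 : a.1 < i := lt_of_mul_lt' hε (by rw [← hwe.1, hw.1]; nlinarith)
          have g2 : i < a.1 + 1 := lt_of_mul_lt' hε (by push_cast; rw [← hwe.1, hw.1]; nlinarith)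
          omega
      · intro c hc
        rw [mem_face] at hc
        have g1 : c.2 ≤ a.2 + 1 := le_of_mul_le' hε (by push_cast; linarith [hc.2.2.1])
        have g2 : a.2 + 1 ≤ c.2 + 1 := le_of_mul_le' hε (by push_cast; linarith [hc.2.2.2])
        have g3 : c.1 < a.1 + 1 := lt_of_mul_lt' hε (by push_cast; nlinarith [hc.1, hw.1])
        have g4 : a.1 < c.1 + 1 := lt_of_mul_lt' hε (by push_cast; nlinarith [hc.2.1, hw.1])
        have g5 : c.2 = a.2 ∨ c.2 = a.2 + 1 := by omega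
        rcases g5 with g5 | g5
        · have : c = a := Prod.ext (by omega) g5
          rw [this]; exact ha
        · have : c = (a.1, a.2 + 1) := Prod.ext (by simp only; omega) g5
          rw [this]; exact ha'
    · refine faceo_subset_Gap hε hω ha' ⟨?_, ?_, ?_, ?_⟩
      · simp only; rw [hw.1]; nlinarith
      · simp only; rw [hw.1]; nlinarith
      · push_cast; exact h1
      · push_cast; nlinarith [hw.2.2]
  rcases h with ⟨h1, h2⟩ | ⟨h1, h2⟩ | ⟨h1, h2⟩ | ⟨h1, h2⟩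
  · rw [h1] at hz' ⊢; exact right z hz hz' h2
  · rw [h1] at hz ⊢; exact (right z' hz' hz h2).symm
  · rw [h1] at hz' ⊢; exact up z hz hz' h2
  · rw [h1] at hz ⊢; exact (up z' hz' hz h2).symm

/-- every reached face is joined to the start set through the gaps -/
theorem Reach.joined (hε : 0 < ε) (hω : ∀ e ∈ ω, IsEdge e) {L B : Set (ℤ × ℤ)} {z : ℤ × ℤ}
    (hz : z ∈ Reach ω L B) : ∃ b ∈ B, b ∈ L ∧
      JoinedIn (Gap ε ω (Reach ω L B)) (fctr ε b) (fctr ε z) := by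
  obtain ⟨b, hb, hbL, h⟩ := hz
  refine ⟨b, hb, hbL, ?_⟩
  have : z ∈ Reach ω L B ∧ JoinedIn (Gap ε ω (Reach ω L B)) (fctr ε b) (fctr ε z) := by
    induction h with
    | refl =>
      have hb' : b ∈ Reach ω L B := Reach.start hb hbL
      exact ⟨hb', JoinedIn.refl (faceo_subset_Gap hε hω hb' (fctr_mem hε b))⟩
    | tail _ h1 ih =>
      have h2 := Reach.step ih.1 h1.2.1 h1.2.2
      exact ⟨h2, ih.2.trans (joined_adj hε hω ih.1 h2 h1.2.2)⟩
  exact this.2

end Full
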