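import Pool.Agent.Full.Rough.ExitA

/-!
# Small meshes: existence of the geometric set-up; moduli of continuity
-/

set_option autoImplicit false

open Set Filter Topology Complex H47Perc Relation

namespace Full

/-- translates of quadrilaterals -/
lemma IsQuad.add {q : ℂ → ℂ} (hq : IsQuad q) (a : ℂ) : IsQuad (fun w => q w + a) := by
  refine ⟨hq.cont.add continuousOn_const, fun w hw w' hw' h => hq.inj hw hw' (add_right_cancel h), ?_⟩
  have : (fun w => q w + a) '' sqo = (fun y => y + a) '' (q '' sqo) := by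
    rw [image_image]
  rw [this]
  exact (Homeomorph.addRight a).isOpenMap _ hq.isOpen

lemma face_diam {ε : ℝ} {z : ℤ × ℤ} {w w' : ℂ} (h : w ∈ face ε z) (h' : w' ∈ face ε z) :
    ‖w - w'‖ ≤ 2 * ε := by
  refine (Complex.norm_le_abs_re_add_abs_im _).trans ?_
  have h1 : |(w - w').re| ≤ ε := by
    rw [sub_re, abs_le]; constructor <;> linarith [h.1, h.2.1, h'.1, h'.2.1]
  have h2 : |(w - w').im| ≤ ε := by
    rw [sub_im, abs_le]; constructor <;> linarith [h.2.2.1, h.2.2.2, h'.2.2.1, h'.2.2.2]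
  linarith

/-- modulus of continuity of a quadrilateral -/
lemma IsQuad.modulus {q : ℂ → ℂ} (hq : IsQuad q) {r : ℝ} (hr : 0 < r) :
    ∃ d > 0, ∀ w ∈ sq, ∀ w' ∈ sq, ‖w - w'‖ < d → ‖q w - q w'‖ < r := by
  have h := isCompact_sq.uniformContinuousOn_of_continuous hq.cont
  rw [Metric.uniformContinuousOn_iff] at h
  obtain ⟨d, hd, h⟩ := h r hr
  refine ⟨d, hd, fun w hw w' hw' hww => ?_⟩
  have := h w hw w' hw' (by rwa [Complex.dist_eq])
  rwa [Complex.dist_eq] at this

/-- modulus of continuity of the inverse -/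
lemma IsQuad.modulus_inv {q : ℂ → ℂ} (hq : IsQuad q) {r : ℝ} (hr : 0 < r) :
    ∃ d > 0, ∀ w ∈ sq, ∀ w' ∈ sq, ‖q w - q w'‖ < d → ‖w - w'‖ < r := by
  obtain ⟨g, hg, hgq⟩ := hq.inv_cont
  have h := (isCompact_sq.image_of_continuousOn hq.cont).uniformContinuousOn_of_continuous hg
  rw [Metric.uniformContinuousOn_iff] at h
  obtain ⟨d, hd, h⟩ := h r hr
  refine ⟨d, hd, fun w hw w' hw' hww => ?_⟩
  have := h (q w) ⟨w, hw, rfl⟩ (q w') ⟨w', hw', rfl⟩ (by rwa [Complex.dist_eq])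
  rwa [Complex.dist_eq, hgq w hw, hgq w' hw'] at this

/-- images of disjoint closed subsets of the square are at positive distance -/
lemma IsQuad.dist_pos {q : ℂ → ℂ} (hq : IsQuad q) {A B : Set ℂ} (hA : IsClosed A) (hB : IsClosed B)
    (hAs : A ⊆ sq) (hBs : B ⊆ sq) (hAB : Disjoint A B) :
    ∃ d > 0, ∀ w ∈ A, ∀ w' ∈ B, d ≤ ‖q w - q w'‖ := by
  have hA' := isCompact_sq.of_isClosed_subset hA hAs
  have hB' := isCompact_sq.of_isClosed_subset hB hBs
  have h1 := hA'.image_of_continuousOn (hq.cont.mono hAs)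
  have h2 := hB'.image_of_continuousOn (hq.cont.mono hBs)
  have h3 : Disjoint (q '' A) (q '' B) := by
    rw [disjoint_left]
    rintro _ ⟨w, hw, rfl⟩ ⟨w', hw', h⟩
    have := hq.inj (hBs hw') (hAs hw) h
    rw [this] at hw'
    exact disjoint_left.1 hAB hw hw'
  obtain ⟨d, hd, h⟩ := Metric.exists_pos_forall_lt_edist h1 h2.isClosed h3
  refine ⟨d, by exact_mod_cast hd, fun w hw w' hw' => ?_⟩
  have := h _ ⟨w, hw, rfl⟩ _ ⟨w', hw', rfl⟩
  rw [edist_dist, Complex.dist_eq] at this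
  have h4 : (d : ENNReal) = ENNReal.ofReal (d : ℝ) := by simp
  rw [h4] at this
  exact ((ENNReal.ofReal_lt_ofReal_iff_of_nonneg (by positivity)).1 this).le

/-- the geometric set-up exists for small meshes, uniformly in translations -/
theorem geo_exists {q : ℂ → ℂ} (hq : IsQuad q) {s t κ : ℝ} (hs : 0 < s) (hs4 : s < 1/4)
    (ht : 0 < t) (ht4 : t < 1/4) (hκ : 0 < κ) (hκs : κ ≤ s) (hκt : κ ≤ t) :
    ∃ ε₀ > 0, ∀ ε : ℝ, 0 < ε → ε < ε₀ → ∀ a : ℂ, Geo (fun w => q w + a) ε s t κ := by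
  obtain ⟨d, hd, h1⟩ := hq.modulus_inv hκ
  have hrc : rc s (1 - s) t (1 - t) ⊆ sqo := fun w hw =>
    ⟨by linarith [hw.1], by linarith [hw.2.1], by linarith [hw.2.2.1], by linarith [hw.2.2.2]⟩
  have hK : IsCompact (q '' rc s (1 - s) t (1 - t)) :=
    isCompact_rc.image_of_continuousOn (hq.cont.mono (hrc.trans sqo_subset_sq))
  obtain ⟨η, hη, h2⟩ := hK.exists_thickening_subset_open hq.isOpen (image_mono hrc)
  refine ⟨min (d / 2) (η / 2), lt_min (by linarith) (by linarith), fun ε hε hε0 a => ?_⟩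
  have hεd : 2 * ε < d := by linarith [hε0.trans_le (min_le_left _ _)]
  have hεη : 2 * ε < η := by linarith [hε0.trans_le (min_le_right _ _)]
  refine ⟨hε, hs, hs4, ht, ht4, hκ, hκs, hκt, ?_, ?_⟩
  · intro z w hw w' hw' h h'
    have h3 := face_diam h h'
    rw [add_sub_add_right_eq_sub] at h3
    exact (h1 w hw w' hw' (by linarith)).le
  · intro z w hw hwz y hy
    have h3 := face_diam hy hwz
    have h4 : y - a ∈ Metric.thickening η (q '' rc s (1 - s) t (1 - t)) := by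
      rw [Metric.mem_thickening_iff]
      refine ⟨q w, ⟨w, hw, rfl⟩, ?_⟩
      rw [Complex.dist_eq]
      have : y - a - q w = y - (q w + a) := by ring
      rw [this]
      linarith
    obtain ⟨u, hu, hue⟩ := h2 h4
    exact ⟨u, hu, by show q u + a = y; rw [hue]; ring⟩

end Full
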